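import Mathlib

/-!
Short exact sequences and homological dimensions of modules (helper lemmas).
-/

set_option autoImplicit false

open CategoryTheory Limits

namespace Pool.Agent.N9.GS

universe u v

section SES

variable {R : Type u} [Ring R] {X Y Z : Type u} [AddCommGroup X] [Module R X] [AddCommGroup Y]
  [Module R Y] [AddCommGroup Z] [Module R Z]

theorem mc_shortExact (i : X →ₗ[R] Y) (p : Y →ₗ[R] Z) (hi : Function.Injective i)
    (hp : Function.Surjective p) (h : ∀ y, p y = 0 ↔ ∃ x, i x = y) :
    (ShortComplex.mk (ModuleCat.ofHom i) (ModuleCat.ofHom p) (by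
      apply ModuleCat.hom_ext
      apply LinearMap.ext
      intro x
      exact (h _).2 ⟨x, rfl⟩)).ShortExact :=
  ModuleCat.shortComplex_shortExact _ (fun y => h y) hi hp

/-- projective dimension less than `n` -/
abbrev PD (R : Type u) [Ring R] (X : Type u) [AddCommGroup X] [Module R X] (n : ℕ) : Prop :=
  HasProjectiveDimensionLT (ModuleCat.of R X) n

/-- injective dimension less than `n` -/
abbrev ID (R : Type u) [Ring R] (X : Type u) [AddCommGroup X] [Module R X] (n : ℕ) : Prop :=
  HasInjectiveDimensionLT (ModuleCat.of R X) n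

theorem pd_mono {m n : ℕ} (h : m ≤ n) (hX : PD R X m) : PD R X n :=
  hasProjectiveDimensionLT_of_ge _ m n h

theorem id_mono {m n : ℕ} (h : m ≤ n) (hX : ID R X m) : ID R X n :=
  hasInjectiveDimensionLT_of_ge _ m n h

theorem pd_congr (e : X ≃ₗ[R] Y) {n : ℕ} (h : PD R X n) : PD R Y n :=
  hasProjectiveDimensionLT_of_iso e.toModuleIso n

theorem id_congr (e : X ≃ₗ[R] Y) {n : ℕ} (h : ID R X n) : ID R Y n :=
  hasInjectiveDimensionLT_of_iso e.toModuleIso n

theorem pd_mid (i : X →ₗ[R] Y) (p : Y →ₗ[R] Z) (hi : Function.Injective i)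
    (hp : Function.Surjective p) (h : ∀ y, p y = 0 ↔ ∃ x, i x = y) {n : ℕ}
    (h1 : PD R X n) (h3 : PD R Z n) : PD R Y n :=
  (mc_shortExact i p hi hp h).hasProjectiveDimensionLT_X₂ n h1 h3

theorem pd_right (i : X →ₗ[R] Y) (p : Y →ₗ[R] Z) (hi : Function.Injective i)
    (hp : Function.Surjective p) (h : ∀ y, p y = 0 ↔ ∃ x, i x = y) {n : ℕ}
    (h1 : PD R X n) (h2 : PD R Y (n + 1)) : PD R Z (n + 1) :=
  (mc_shortExact i p hi hp h).hasProjectiveDimensionLT_X₃ n h1 h2

theorem pd_left (i : X →ₗ[R] Y) (p : Y →ₗ[R] Z) (hi : Function.Injective i)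
    (hp : Function.Surjective p) (h : ∀ y, p y = 0 ↔ ∃ x, i x = y) {n : ℕ}
    (h2 : PD R Y n) (h3 : PD R Z (n + 1)) : PD R X n :=
  (mc_shortExact i p hi hp h).hasProjectiveDimensionLT_X₁ n h2 h3

theorem id_mid (i : X →ₗ[R] Y) (p : Y →ₗ[R] Z) (hi : Function.Injective i)
    (hp : Function.Surjective p) (h : ∀ y, p y = 0 ↔ ∃ x, i x = y) {n : ℕ}
    (h1 : ID R X n) (h3 : ID R Z n) : ID R Y n :=
  (mc_shortExact i p hi hp h).hasInjectiveDimensionLT_X₂ n h1 h3

theorem id_left (i : X →ₗ[R] Y) (p : Y →ₗ[R] Z) (hi : Function.Injective i)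
    (hp : Function.Surjective p) (h : ∀ y, p y = 0 ↔ ∃ x, i x = y) {n : ℕ}
    (h2 : ID R Y (n + 1)) (h3 : ID R Z n) : ID R X (n + 1) :=
  (mc_shortExact i p hi hp h).hasInjectiveDimensionLT_X₁ n h3 h2

theorem id_right (i : X →ₗ[R] Y) (p : Y →ₗ[R] Z) (hi : Function.Injective i)
    (hp : Function.Surjective p) (h : ∀ y, p y = 0 ↔ ∃ x, i x = y) {n : ℕ}
    (h1 : ID R X (n + 1)) (h2 : ID R Y n) : ID R Z n :=
  (mc_shortExact i p hi hp h).hasInjectiveDimensionLT_X₃ n h2 h1

theorem pd_proj [Module.Projective R X] : PD R X 1 := by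
  have : Projective (ModuleCat.of R X) := (IsProjective.iff_projective X).1 inferInstance
  infer_instance

theorem proj_of_pd (h : PD R X 1) : Module.Projective R X := by
  have : Projective (ModuleCat.of R X) := projective_iff_hasProjectiveDimensionLT_one.2 h
  exact (IsProjective.iff_projective X).2 this

theorem id_inj (h : Module.Injective R X) : ID R X 1 := by
  have : Injective (ModuleCat.of R X) := Module.injective_object_of_injective_module R X
  infer_instance

theorem inj_of_id (h : ID R X 1) : Module.Injective R X := by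
  have : Injective (ModuleCat.of R X) := injective_iff_hasInjectiveDimensionLT_one.2 h
  exact Module.injective_module_of_injective_object R X

theorem pd_sub [Subsingleton X] (n : ℕ) : PD R X n := by
  have : IsZero (ModuleCat.of R X) := ModuleCat.isZero_of_subsingleton _
  have := this.hasProjectiveDimensionLT_zero
  exact hasProjectiveDimensionLT_of_ge _ 0 n (Nat.zero_le n)

theorem id_sub [Subsingleton X] (n : ℕ) : ID R X n := by
  have : IsZero (ModuleCat.of R X) := ModuleCat.isZero_of_subsingleton _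
  have := this.hasInjectiveDimensionLT_zero
  exact hasInjectiveDimensionLT_of_ge _ 0 n (Nat.zero_le n)

/-- retracts of injective modules are injective -/
theorem inj_retract (hY : Module.Injective R Y) (i : X →ₗ[R] Y) (p : Y →ₗ[R] X)
    (h : ∀ x, p (i x) = x) : Module.Injective R X := by
  constructor
  intro A B _ _ _ _ f hf g
  obtain ⟨k, hk⟩ := hY.out f hf (i.comp g)
  refine ⟨p.comp k, fun x => ?_⟩
  rw [LinearMap.comp_apply, hk, LinearMap.comp_apply, h]

/-- an injective module is a retract of every module containing it -/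
theorem inj_split (hX : Module.Injective R X) (i : X →ₗ[R] Y) (hi : Function.Injective i) :
    ∃ p : Y →ₗ[R] X, ∀ x, p (i x) = x := by
  obtain ⟨p, hp⟩ := hX.out i hi LinearMap.id
  exact ⟨p, fun x => hp x⟩

end SES

section Range

variable {R : Type u} [Ring R] {X Y Z : Type u} [AddCommGroup X] [Module R X] [AddCommGroup Y]
  [Module R Y] [AddCommGroup Z] [Module R Z]

theorem exact_aux (f : X →ₗ[R] Y) (g : Y →ₗ[R] Z) (h : Function.Exact f g) (y : Y) :
    g.rangeRestrict y = 0 ↔ ∃ x, (LinearMap.range f).subtype x = y := by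
  have h0 : g.rangeRestrict y = 0 ↔ g y = 0 := Subtype.ext_iff
  rw [h0]
  constructor
  · intro hy
    obtain ⟨x, hx⟩ := (h y).1 hy
    exact ⟨⟨y, x, hx⟩, rfl⟩
  · rintro ⟨⟨_, x, rfl⟩, rfl⟩
    exact (h _).2 ⟨x, rfl⟩

/-- `f : X → Y`, `g : Y → Z` exact at the injective module `Y` -/
theorem id_range (f : X →ₗ[R] Y) (g : Y →ₗ[R] Z) (h : Function.Exact f g)
    (hY : Module.Injective R Y) {n : ℕ} (hg : ID R (LinearMap.range g) n) :
    ID R (LinearMap.range f) (n + 1) := by
  refine id_left (LinearMap.range f).subtype g.rangeRestrict (Submodule.subtype_injective _)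
    g.surjective_rangeRestrict (exact_aux f g h)
    (id_mono (Nat.le_add_left 1 n) (id_inj hY)) hg

theorem id_range_surj (f : X →ₗ[R] Y) (h : Function.Surjective f)
    (hY : Module.Injective R Y) : ID R (LinearMap.range f) 1 := by
  rw [LinearMap.range_eq_top.2 h]
  exact id_congr (Submodule.topEquiv (R := R) (M := Y)).symm (id_inj hY)

theorem id_of_range (f : X →ₗ[R] Y) (h : Function.Injective f) {n : ℕ}
    (hf : ID R (LinearMap.range f) n) : ID R X n :=
  id_congr (LinearEquiv.ofInjective f h).symm hf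

/-- `f : X → Y`, `g : Y → Z` exact at the projective module `Y` -/
theorem pd_range (f : X →ₗ[R] Y) (g : Y →ₗ[R] Z) (h : Function.Exact f g)
    [Module.Projective R Y] {n : ℕ} (hf : PD R (LinearMap.range f) n) :
    PD R (LinearMap.range g) (n + 1) := by
  refine pd_right (LinearMap.range f).subtype g.rangeRestrict (Submodule.subtype_injective _)
    g.surjective_rangeRestrict (exact_aux f g h) hf (pd_mono (Nat.le_add_left 1 n) pd_proj)

theorem pd_range_left (f : X →ₗ[R] Y) (g : Y →ₗ[R] Z) (h : Function.Exact f g)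
    [Module.Projective R Y] {n : ℕ} (hg : PD R (LinearMap.range g) (n + 2)) :
    PD R (LinearMap.range f) (n + 1) := by
  refine pd_left (LinearMap.range f).subtype g.rangeRestrict (Submodule.subtype_injective _)
    g.surjective_rangeRestrict (exact_aux f g h) (pd_mono (Nat.le_add_left 1 n) pd_proj) hg

theorem pd_range_inj (f : X →ₗ[R] Y) (h : Function.Injective f)
    [Module.Projective R X] : PD R (LinearMap.range f) 1 :=
  pd_congr (LinearEquiv.ofInjective f h) pd_proj

theorem pd_of_range (f : X →ₗ[R] Y) (h : Function.Surjective f) {n : ℕ}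
    (hf : PD R (LinearMap.range f) n) : PD R Y n := by
  rw [LinearMap.range_eq_top.2 h] at hf
  exact pd_congr (Submodule.topEquiv (R := R) (M := Y)) hf

theorem pd_range_of (f : X →ₗ[R] Y) (h : Function.Surjective f) {n : ℕ}
    (hf : PD R Y n) : PD R (LinearMap.range f) n := by
  rw [LinearMap.range_eq_top.2 h]
  exact pd_congr (Submodule.topEquiv (R := R) (M := Y)).symm hf

end Range

end Pool.Agent.N9.GS
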