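import Pool.Agent.N9.GS.Res

/-!
Filtrations of an algebra with multiplicative basis by ideals with subquotients `U ⊗ V`.
-/

set_option autoImplicit false

open CategoryTheory TensorProduct Module MulOpposite

namespace Pool.Agent.N9.GS

universe u

section Op

variable {K : Type u} [Field K] {T : Tab} {A : Type u} [Ring A] [Algebra K A]

theorem pt_map {M N : Type u} [AddCommGroup M] [Module K M] [AddCommGroup N] [Module K N] {n : ℕ}
    (b : Basis (Fin n) K M) (e : M ≃ₗ[K] N) (i : ℕ) : pt (b.map e) i = e (pt b i) := by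
  by_cases h : 0 < i ∧ i ≤ n
  · rw [pt, dif_pos h, pt, dif_pos h, Basis.map_apply]
  · rw [pt, dif_neg h, pt, dif_neg h, map_zero]

theorem op_mul_aux [tA : TabAlg K A T] (x y : Fin T.n) :
    (tA.b.map (opLinearEquiv K) : Basis (Fin T.n) K Aᵐᵒᵖ) x *
      (tA.b.map (opLinearEquiv K) : Basis (Fin T.n) K Aᵐᵒᵖ) y
      = pt (tA.b.map (opLinearEquiv K) : Basis (Fin T.n) K Aᵐᵒᵖ)
        (T.mul ((y : ℕ) + 1) ((x : ℕ) + 1)) := by
  have h := tA.mul y x
  have h1 : (tA.b.map (opLinearEquiv K) : Basis (Fin T.n) K Aᵐᵒᵖ) x *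
      (tA.b.map (opLinearEquiv K) : Basis (Fin T.n) K Aᵐᵒᵖ) y = op (tA.b y * tA.b x) := by
    rw [Basis.map_apply, Basis.map_apply]; rfl
  rw [h1, h, pt_map]
  rfl

theorem op_one_aux [tA : TabAlg K A T] :
    (1 : Aᵐᵒᵖ) = (T.ids.map (pt (tA.b.map (opLinearEquiv K) : Basis (Fin T.n) K Aᵐᵒᵖ))).sum := by
  have h1 : ∀ l : List ℕ, (l.map (pt (tA.b.map (opLinearEquiv K) : Basis (Fin T.n) K Aᵐᵒᵖ))).sum
      = op ((l.map (pt tA.b)).sum) := by
    intro l
    induction l with
    | nil => rfl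
    | cons a l ih => rw [List.map_cons, List.sum_cons, ih, pt_map]; rfl
  rw [h1, ← tA.one]
  rfl

noncomputable instance opTabAlg [tA : TabAlg K A T] : TabAlg K Aᵐᵒᵖ T.op :=
  { b := (tA.b.map (opLinearEquiv K) : Basis (Fin T.n) K Aᵐᵒᵖ)
    mul := fun x y => op_mul_aux (T := T) x y
    one := op_one_aux (T := T) }

theorem pt_op [tA : TabAlg K A T] (i : ℕ) :
    pt (TabAlg.b (K := K) (R := Aᵐᵒᵖ) (T := T.op)) i = op (pt tA.b i) :=
  pt_map tA.b (opLinearEquiv K) i

end Op

/-- check that the set `s` of basis elements spans an ideal -/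
def idlChk (T : Tab) (s : ℕ → Bool) : Bool :=
  allx T.n T.n fun x w => !(s w) || ((T.mul x w == 0 || s (T.mul x w)) &&
    (T.mul w x == 0 || s (T.mul w x)))

section Idl

variable (K : Type u) [Field K] {T : Tab} (A : Type u) [Ring A] [Algebra K A]
  [tA : TabAlg K A T]

attribute [local instance] TensorProduct.Algebra.module
attribute [local instance] tmod

theorem ten_smul (a : A) (c : Aᵐᵒᵖ) (x : A) : (a ⊗ₜ[K] c) • x = a * (x * c.unop) := rfl

theorem idl_left {s : ℕ → Bool} (h : idlChk T s = true) (r a : A)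
    (ha : ∀ j : Fin T.n, s ((j : ℕ) + 1) = false → tA.b.repr a j = 0) (j : Fin T.n)
    (hj : s ((j : ℕ) + 1) = false) : tA.b.repr (r * a) j = 0 := by
  have h1 : (tA.b.coord j) ∘ₗ ((LinearMap.mul K A).flip a) = 0 := by
    refine tA.b.ext fun x => ?_
    show tA.b.repr (tA.b x * a) j = 0
    have h2 : a = ∑ w, tA.b.repr a w • tA.b w := (tA.b.sum_repr a).symm
    rw [h2, Finset.mul_sum, map_sum, Finsupp.finsetSum_apply]
    refine Finset.sum_eq_zero fun w _ => ?_
    rw [mul_smul_comm, map_smul, Finsupp.smul_apply, tA.mul, pt_repr]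
    by_cases hw : s ((w : ℕ) + 1) = false
    · rw [ha w hw, zero_smul]
    · have h3 := allx_spec h (x := (x : ℕ) + 1) (i := (w : ℕ) + 1) x.2 w.2
      simp only [Bool.or_eq_true, Bool.and_eq_true, Bool.not_eq_true', beq_iff_eq] at h3
      have h4 := (h3.resolve_left hw).1
      rw [if_neg, smul_zero]
      intro h5
      rw [h5, hj] at h4
      rcases h4 with h4 | h4
      · omega
      · exact Bool.false_ne_true h4
  exact LinearMap.congr_fun h1 r

theorem idl_right {s : ℕ → Bool} (h : idlChk T s = true) (r a : A)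
    (ha : ∀ j : Fin T.n, s ((j : ℕ) + 1) = false → tA.b.repr a j = 0) (j : Fin T.n)
    (hj : s ((j : ℕ) + 1) = false) : tA.b.repr (a * r) j = 0 := by
  have h1 : (tA.b.coord j) ∘ₗ (LinearMap.mul K A a) = 0 := by
    refine tA.b.ext fun x => ?_
    show tA.b.repr (a * tA.b x) j = 0
    have h2 : a = ∑ w, tA.b.repr a w • tA.b w := (tA.b.sum_repr a).symm
    rw [h2, Finset.sum_mul, map_sum, Finsupp.finsetSum_apply]
    refine Finset.sum_eq_zero fun w _ => ?_
    rw [smul_mul_assoc, map_smul, Finsupp.smul_apply, tA.mul, pt_repr]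
    by_cases hw : s ((w : ℕ) + 1) = false
    · rw [ha w hw, zero_smul]
    · have h3 := allx_spec h (x := (x : ℕ) + 1) (i := (w : ℕ) + 1) x.2 w.2
      simp only [Bool.or_eq_true, Bool.and_eq_true, Bool.not_eq_true', beq_iff_eq] at h3
      have h4 := (h3.resolve_left hw).2
      rw [if_neg, smul_zero]
      intro h5
      rw [h5, hj] at h4
      rcases h4 with h4 | h4
      · omega
      · exact Bool.false_ne_true h4
  exact LinearMap.congr_fun h1 r

theorem ten_zero (a : A) : (0 : A ⊗[K] Aᵐᵒᵖ) • a = 0 := by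
  show TensorProduct.Algebra.moduleAux (0 : A ⊗[K] Aᵐᵒᵖ) a = 0
  rw [map_zero]; rfl

theorem idl_smul {s : ℕ → Bool} (h : idlChk T s = true) (r : A ⊗[K] Aᵐᵒᵖ) (a : A)
    (ha : ∀ j : Fin T.n, s ((j : ℕ) + 1) = false → tA.b.repr a j = 0) :
    ∀ j : Fin T.n, s ((j : ℕ) + 1) = false → tA.b.repr (r • a) j = 0 := by
  induction r using TensorProduct.induction_on with
  | zero =>
    intro j _
    rw [ten_zero, map_zero, Finsupp.zero_apply]
  | tmul x c =>
    intro j hj
    rw [ten_smul]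
    exact idl_left K A h x _ (fun j hj => idl_right K A h c.unop a ha j hj) j hj
  | add x y hx hy =>
    intro j hj
    rw [add_smul, map_add, Finsupp.add_apply, hx j hj, hy j hj, add_zero]

/-- the ideal spanned by the basis elements in `s` -/
def idl (s : ℕ → Bool) (h : idlChk T s = true) : Submodule (A ⊗[K] Aᵐᵒᵖ) A where
  carrier := {a | ∀ j : Fin T.n, s ((j : ℕ) + 1) = false → tA.b.repr a j = 0}
  zero_mem' := fun j _ => by rw [map_zero, Finsupp.zero_apply]
  add_mem' := fun {a b} ha hb j hj => by rw [map_add, Finsupp.add_apply, ha j hj, hb j hj, add_zero]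
  smul_mem' := fun r a ha => idl_smul K A h r a ha

variable {K A}

theorem mem_idl {s : ℕ → Bool} {h : idlChk T s = true} {a : A} :
    a ∈ idl K A s h ↔ ∀ j : Fin T.n, s ((j : ℕ) + 1) = false → tA.b.repr a j = 0 := Iff.rfl

end Idl

/-- equality of codes of pure tensors -/
def zeq (p q : ℕ × ℕ) : Bool :=
  p == q || ((p.1 == 0 || p.2 == 0) && (q.1 == 0 || q.2 == 0))

/-- check that `idx` describes an isomorphism from the subquotient `s / s'` to `U ⊗ V` -/
def stepChk (T : Tab) (U : Rep T) (V : Rep T.op) (s s' : ℕ → Bool) (idx : ℕ → ℕ × ℕ)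
    (inv : ℕ → ℕ → ℕ) : Bool :=
  (allx T.n T.n fun x w => !(s w) ||
    (zeq (idx (T.mul x w)) (U.act x (idx w).1, (idx w).2) &&
     zeq (idx (T.mul w x)) ((idx w).1, V.act x (idx w).2))) &&
  ((List.range T.n).all fun w => !(s' (w + 1)) || s (w + 1)) &&
  ((List.range T.n).all fun w => !(s' (w + 1)) || zeq (idx (w + 1)) (0, 0)) &&
  ((List.range T.n).all fun w => !(s (w + 1)) || s' (w + 1) ||
    (decide (0 < (idx (w + 1)).1) && decide ((idx (w + 1)).1 ≤ U.m) &&
     decide (0 < (idx (w + 1)).2) && decide ((idx (w + 1)).2 ≤ V.m) &&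
     inv (idx (w + 1)).1 (idx (w + 1)).2 == w + 1)) &&
  (allx (U.m - 1) (V.m - 1) fun i j => idx (inv (i + 1) (j + 1)) == (i + 1, j + 1) &&
    decide (0 < inv (i + 1) (j + 1)) && decide (inv (i + 1) (j + 1) ≤ T.n) &&
    s (inv (i + 1) (j + 1))) &&
  (allx T.n T.n fun w x => decide ((idx w).1 ≤ U.m) && decide ((idx w).2 ≤ V.m) &&
    decide (T.mul w x ≤ T.n)) && zeq (idx 0) (0, 0)

section Step

variable {K : Type u} [Field K] {T : Tab} {A : Type u} [Ring A] [Algebra K A]
  [tA : TabAlg K A T]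

attribute [local instance] TensorProduct.Algebra.module
attribute [local instance] tmod

/-- pure tensor with a given code -/
noncomputable def ptt (K : Type u) [Field K] {T : Tab} (U : Rep T) (V : Rep T.op) (p : ℕ × ℕ) :
    MMod K U ⊗[K] MMod K V := pt (mb K U) p.1 ⊗ₜ pt (mb K V) p.2

theorem ptt_eq {U : Rep T} {V : Rep T.op} {p q : ℕ × ℕ} (h : zeq p q = true) :
    ptt K U V p = ptt K U V q := by
  simp only [zeq, Bool.or_eq_true, Bool.and_eq_true, beq_iff_eq] at h
  have h0 : ∀ p : ℕ × ℕ, (p.1 = 0 ∨ p.2 = 0) → ptt K U V p = 0 := by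
    rintro ⟨a, b⟩ (h | h)
    · rw [ptt, h, pt_zero, zero_tmul]
    · rw [ptt, h, pt_zero, tmul_zero]
  rcases h with h | ⟨h1, h2⟩
  · rw [h]
  · rw [h0 p h1, h0 q h2]

/-- the projection on the subquotient -/
noncomputable def prj (K : Type u) [Field K] {T : Tab} (A : Type u) [Ring A] [Algebra K A]
    [tA : TabAlg K A T] (U : Rep T) (V : Rep T.op) (idx : ℕ → ℕ × ℕ) :
    A →ₗ[K] (MMod K U ⊗[K] MMod K V) :=
  tA.b.constr K fun w => ptt K U V (idx ((w : ℕ) + 1))

theorem prj_basis (U : Rep T) (V : Rep T.op) (idx : ℕ → ℕ × ℕ) (w : Fin T.n) :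
    prj K A U V idx (tA.b w) = ptt K U V (idx ((w : ℕ) + 1)) := Basis.constr_basis _ _ _ _

theorem prj_pt (U : Rep T) (V : Rep T.op) {idx : ℕ → ℕ × ℕ} (h0 : zeq (idx 0) (0, 0) = true)
    {w : ℕ} (hw : w ≤ T.n) :
    prj K A U V idx (pt tA.b w) = ptt K U V (idx w) := by
  rcases w with _ | w
  · rw [pt_zero, map_zero, ptt_eq h0, ptt, pt_zero, zero_tmul]
  · have := prj_basis (K := K) (A := A) U V idx ⟨w, hw⟩
    rwa [← pt_succ] at this

structure StepData {T : Tab} (U : Rep T) (V : Rep T.op) (s s' : ℕ → Bool) (idx : ℕ → ℕ × ℕ)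
    (inv : ℕ → ℕ → ℕ) : Prop where
  left : ∀ x w, x ≤ T.n → w ≤ T.n → s w = true →
    zeq (idx (T.mul x w)) (U.act x (idx w).1, (idx w).2) = true
  right : ∀ x w, x ≤ T.n → w ≤ T.n → s w = true →
    zeq (idx (T.mul w x)) ((idx w).1, V.act x (idx w).2) = true
  le : ∀ w, 0 < w → w ≤ T.n → s' w = true → s w = true
  zero : ∀ w, 0 < w → w ≤ T.n → s' w = true → zeq (idx w) (0, 0) = true
  mem : ∀ w, 0 < w → w ≤ T.n → s w = true → s' w = false →
    0 < (idx w).1 ∧ (idx w).1 ≤ U.m ∧ 0 < (idx w).2 ∧ (idx w).2 ≤ V.m ∧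
      inv (idx w).1 (idx w).2 = w
  inv : ∀ i j, 0 < i → i ≤ U.m → 0 < j → j ≤ V.m → idx (inv i j) = (i, j) ∧ 0 < inv i j ∧
    inv i j ≤ T.n ∧ s (inv i j) = true
  ub : ∀ w, w ≤ T.n → (idx w).1 ≤ U.m ∧ (idx w).2 ≤ V.m
  mul_le : ∀ x y, x ≤ T.n → y ≤ T.n → T.mul x y ≤ T.n
  idx0 : zeq (idx 0) (0, 0) = true

theorem stepChk_spec {U : Rep T} {V : Rep T.op} {s s' : ℕ → Bool} {idx : ℕ → ℕ × ℕ}
    {inv : ℕ → ℕ → ℕ} (h : stepChk T U V s s' idx inv = true) : StepData U V s s' idx inv := by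
  simp only [stepChk, Bool.and_eq_true] at h
  obtain ⟨⟨⟨⟨⟨⟨h1, h2⟩, h3⟩, h4⟩, h5⟩, h6⟩, h7⟩ := h
  refine ⟨fun x w hx hw hs => ?_, fun x w hx hw hs => ?_, fun w hw hw' hs => ?_,
    fun w hw hw' hs => ?_, fun w hw hw' hs hs' => ?_, fun i j hi hi' hj hj' => ?_, fun w hw => ?_,
    fun x y hx hy => ?_, h7⟩
  · have := allx_spec h1 hx hw
    rw [hs] at this
    simp only [Bool.not_true, Bool.false_or, Bool.and_eq_true] at this
    exact this.1
  · have := allx_spec h1 hx hw
    rw [hs] at this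
    simp only [Bool.not_true, Bool.false_or, Bool.and_eq_true] at this
    exact this.2
  · have := List.all_eq_true.1 h2 (w - 1) (List.mem_range.2 (by omega))
    rw [show w - 1 + 1 = w by omega, hs] at this
    simpa using this
  · have := List.all_eq_true.1 h3 (w - 1) (List.mem_range.2 (by omega))
    rw [show w - 1 + 1 = w by omega, hs] at this
    simpa using this
  · have := List.all_eq_true.1 h4 (w - 1) (List.mem_range.2 (by omega))
    rw [show w - 1 + 1 = w by omega, hs, hs'] at this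
    simp only [Bool.not_true, Bool.false_or, Bool.and_eq_true, decide_eq_true_eq,
      beq_iff_eq] at this
    exact ⟨this.1.1.1.1, this.1.1.1.2, this.1.1.2, this.1.2, this.2⟩
  · have := allx_spec h5 (show i - 1 ≤ U.m - 1 by omega) (show j - 1 ≤ V.m - 1 by omega)
    rw [show i - 1 + 1 = i by omega, show j - 1 + 1 = j by omega] at this
    simp only [Bool.and_eq_true, decide_eq_true_eq, beq_iff_eq] at this
    exact ⟨this.1.1.1, this.1.1.2, this.1.2, this.2⟩
  · have := allx_spec h6 hw (Nat.zero_le T.n)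
    simp only [Bool.and_eq_true, decide_eq_true_eq] at this
    exact ⟨this.1.1, this.1.2⟩
  · have := allx_spec h6 hx hy
    simp only [Bool.and_eq_true, decide_eq_true_eq] at this
    exact this.2

variable {U : Rep T} {V : Rep T.op} {s s' : ℕ → Bool} {idx : ℕ → ℕ × ℕ} {inv : ℕ → ℕ → ℕ}

theorem prj_left (h : StepData U V s s' idx inv) (r a : A)
    (ha : ∀ j : Fin T.n, s ((j : ℕ) + 1) = false → tA.b.repr a j = 0) :
    prj K A U V idx (r * a) = (r ⊗ₜ[K] (1 : Aᵐᵒᵖ)) • prj K A U V idx a := by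
  let ψ : A →ₗ[K] (MMod K U ⊗[K] MMod K V) :=
    { toFun := fun r => (r ⊗ₜ[K] (1 : Aᵐᵒᵖ)) • prj K A U V idx a
      map_add' := fun r t => by rw [add_tmul, add_smul]
      map_smul' := fun k r => by rw [← smul_tmul', smul_assoc, RingHom.id_apply] }
  have h1 : prj K A U V idx ∘ₗ ((LinearMap.mul K A).flip a) = ψ := by
    refine tA.b.ext fun x => ?_
    show prj K A U V idx (tA.b x * a) = (tA.b x ⊗ₜ[K] (1 : Aᵐᵒᵖ)) • prj K A U V idx a
    have h2 : a = ∑ w, tA.b.repr a w • tA.b w := (tA.b.sum_repr a).symm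
    have e1 : tA.b x * a = ∑ w, tA.b.repr a w • pt tA.b (T.mul ((x : ℕ) + 1) ((w : ℕ) + 1)) := by
      conv_lhs => rw [h2]
      rw [Finset.mul_sum]
      refine Finset.sum_congr rfl fun w _ => ?_
      rw [mul_smul_comm, tA.mul]
    have e2 : prj K A U V idx a = ∑ w : Fin T.n, tA.b.repr a w • ptt K U V (idx ((w : ℕ) + 1)) := by
      conv_lhs => rw [h2]
      rw [map_sum]
      refine Finset.sum_congr rfl fun w _ => ?_
      rw [map_smul, prj_basis]
    rw [e1, e2, map_sum, Finset.smul_sum]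
    refine Finset.sum_congr rfl fun w _ => ?_
    rw [map_smul, prj_pt U V h.idx0 (h.mul_le _ _ x.2 w.2)]
    by_cases hw : s ((w : ℕ) + 1) = false
    · rw [ha w hw, zero_smul, zero_smul, smul_zero]
    · have hw' : s ((w : ℕ) + 1) = true := by simpa using hw
      rw [ptt_eq (h.left _ _ x.2 w.2 hw'), ← algebraMap_smul (A ⊗[K] Aᵐᵒᵖ) (tA.b.repr a w)
        (ptt K U V (idx ((w : ℕ) + 1))), ← mul_smul, ← Algebra.commutes, mul_smul,
        algebraMap_smul]
      congr 1
      show ptt K U V _ = (tA.b x • pt (mb K U) _) ⊗ₜ[K] ((1 : Aᵐᵒᵖ) • pt (mb K V) _)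
      rw [one_smul, ← pt_succ tA.b x, smul_pt x.2 (h.ub _ w.2).1]
      rfl
  exact LinearMap.congr_fun h1 r

theorem prj_right (h : StepData U V s s' idx inv) (r a : A)
    (ha : ∀ j : Fin T.n, s ((j : ℕ) + 1) = false → tA.b.repr a j = 0) :
    prj K A U V idx (a * r) = ((1 : A) ⊗ₜ[K] (op r)) • prj K A U V idx a := by
  let ψ : A →ₗ[K] (MMod K U ⊗[K] MMod K V) :=
    { toFun := fun r => ((1 : A) ⊗ₜ[K] (op r)) • prj K A U V idx a
      map_add' := fun r t => by rw [MulOpposite.op_add, tmul_add, add_smul]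
      map_smul' := fun k r => by rw [MulOpposite.op_smul, tmul_smul, smul_assoc, RingHom.id_apply] }
  have h1 : prj K A U V idx ∘ₗ (LinearMap.mul K A a) = ψ := by
    refine tA.b.ext fun x => ?_
    show prj K A U V idx (a * tA.b x) = ((1 : A) ⊗ₜ[K] (op (tA.b x))) • prj K A U V idx a
    have h2 : a = ∑ w, tA.b.repr a w • tA.b w := (tA.b.sum_repr a).symm
    have e1 : a * tA.b x = ∑ w, tA.b.repr a w • pt tA.b (T.mul ((w : ℕ) + 1) ((x : ℕ) + 1)) := by
      conv_lhs => rw [h2]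
      rw [Finset.sum_mul]
      refine Finset.sum_congr rfl fun w _ => ?_
      rw [smul_mul_assoc, tA.mul]
    have e2 : prj K A U V idx a = ∑ w : Fin T.n, tA.b.repr a w • ptt K U V (idx ((w : ℕ) + 1)) := by
      conv_lhs => rw [h2]
      rw [map_sum]
      refine Finset.sum_congr rfl fun w _ => ?_
      rw [map_smul, prj_basis]
    rw [e1, e2, map_sum, Finset.smul_sum]
    refine Finset.sum_congr rfl fun w _ => ?_
    rw [map_smul, prj_pt U V h.idx0 (h.mul_le _ _ w.2 x.2)]
    by_cases hw : s ((w : ℕ) + 1) = false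
    · rw [ha w hw, zero_smul, zero_smul, smul_zero]
    · have hw' : s ((w : ℕ) + 1) = true := by simpa using hw
      rw [ptt_eq (h.right _ _ x.2 w.2 hw'), ← algebraMap_smul (A ⊗[K] Aᵐᵒᵖ) (tA.b.repr a w)
        (ptt K U V (idx ((w : ℕ) + 1))), ← mul_smul, ← Algebra.commutes, mul_smul,
        algebraMap_smul]
      congr 1
      show ptt K U V _ = ((1 : A) • pt (mb K U) _) ⊗ₜ[K] (op (tA.b x) • pt (mb K V) _)
      have e3 : op (tA.b x) = pt (TabAlg.b (K := K) (R := Aᵐᵒᵖ) (T := T.op)) ((x : ℕ) + 1) := by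
        rw [pt_op, pt_succ]
      rw [one_smul, e3, smul_pt (T := T.op) x.2 (h.ub _ w.2).2]
      rfl
  exact LinearMap.congr_fun h1 r

theorem prj_ten (hi : idlChk T s = true) (h : StepData U V s s' idx inv) (r : A) (c : Aᵐᵒᵖ) (a : A)
    (ha : ∀ j : Fin T.n, s ((j : ℕ) + 1) = false → tA.b.repr a j = 0) :
    prj K A U V idx (r * (a * c.unop)) = (r ⊗ₜ[K] c) • prj K A U V idx a := by
  rw [prj_left h _ _ (idl_right K A hi c.unop a ha), prj_right h _ _ ha, ← mul_smul,
    Algebra.TensorProduct.tmul_mul_tmul, mul_one, one_mul, op_unop]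

variable (K A) in
/-- the bimodule map of a step -/
noncomputable def stepMap (hi : idlChk T s = true) (h : StepData U V s s' idx inv) :
    idl K A s hi →ₗ[A ⊗[K] Aᵐᵒᵖ] (MMod K U ⊗[K] MMod K V) where
  toFun a := prj K A U V idx a.1
  map_add' a b := map_add (prj K A U V idx) a.1 b.1
  map_smul' r a := by
    rw [RingHom.id_apply]
    let f : idl K A s hi →+ (MMod K U ⊗[K] MMod K V) :=
      { toFun := fun a => prj K A U V idx a.1
        map_zero' := map_zero (prj K A U V idx)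
        map_add' := fun a b => map_add (prj K A U V idx) a.1 b.1 }
    refine tlin_aux (K := K) (A := A) (C := Aᵐᵒᵖ) f (fun r c a => ?_) r a
    exact prj_ten hi h r c a a.2

/-- coordinate of the tensor product -/
noncomputable def tcd (U : Rep T) (V : Rep T.op) (i j : ℕ) :
    (MMod K U ⊗[K] MMod K V) →ₗ[K] K :=
  TensorProduct.lift ((LinearMap.mul K K).compl₁₂ (cd (mb K U) i) (cd (mb K V) j))

theorem tcd_tmul (U : Rep T) (V : Rep T.op) (i j : ℕ) (u : MMod K U) (v : MMod K V) :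
    tcd U V i j (u ⊗ₜ v) = cd (mb K U) i u * cd (mb K V) j v := rfl

theorem stepMap_ker (h : StepData U V s s' idx inv) (a : A)
    (ha : ∀ j : Fin T.n, s ((j : ℕ) + 1) = false → tA.b.repr a j = 0) :
    prj K A U V idx a = 0 ↔ ∀ j : Fin T.n, s' ((j : ℕ) + 1) = false → tA.b.repr a j = 0 := by
  have h2 : a = ∑ w, tA.b.repr a w • tA.b w := (tA.b.sum_repr a).symm
  have e2 : prj K A U V idx a = ∑ w : Fin T.n, tA.b.repr a w • ptt K U V (idx ((w : ℕ) + 1)) := by
    conv_lhs => rw [h2]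
    rw [map_sum]
    refine Finset.sum_congr rfl fun w _ => ?_
    rw [map_smul, prj_basis]
  constructor
  · intro h0 j hj
    by_cases hs : s ((j : ℕ) + 1) = false
    · exact ha j hs
    · have hs' : s ((j : ℕ) + 1) = true := by simpa using hs
      obtain ⟨m1, m2, m3, m4, m5⟩ := h.mem ((j : ℕ) + 1) (Nat.succ_pos _) j.2 hs' hj
      have h3 : tcd U V (idx ((j : ℕ) + 1)).1 (idx ((j : ℕ) + 1)).2 (prj K A U V idx a) = 0 := by
        rw [h0, map_zero]
      rw [e2, map_sum, Finset.sum_eq_single j] at h3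
      · rw [map_smul, ptt, tcd_tmul, cd_pt _ m1 m2, cd_pt _ m3 m4, if_pos rfl, if_pos rfl,
          mul_one, smul_eq_mul, mul_one] at h3
        exact h3
      · intro w _ hw
        rw [map_smul, ptt, tcd_tmul, cd_pt _ m1 m2, cd_pt _ m3 m4]
        by_cases hws : s ((w : ℕ) + 1) = false
        · rw [ha w hws, zero_smul]
        · have hws1 : s ((w : ℕ) + 1) = true := by simpa using hws
          by_cases hws' : s' ((w : ℕ) + 1) = true
          · have h4 := h.zero ((w : ℕ) + 1) (Nat.succ_pos _) w.2 hws'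
            simp only [zeq, Bool.or_eq_true, Bool.and_eq_true, beq_iff_eq] at h4
            have h5 : (idx ((w : ℕ) + 1)).1 = 0 ∨ (idx ((w : ℕ) + 1)).2 = 0 := by
              rcases h4 with h4 | h4
              · left; rw [h4]
              · exact h4.1
            rcases h5 with h5 | h5
            · rw [h5, if_neg (by omega), zero_mul, smul_zero]
            · rw [h5, if_neg (by omega : ¬ (0 = (idx ((j : ℕ) + 1)).2)), mul_zero, smul_zero]
          · have hws2 : s' ((w : ℕ) + 1) = false := by simpa using hws'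
            obtain ⟨n1, n2, n3, n4, n5⟩ := h.mem ((w : ℕ) + 1) (Nat.succ_pos _) w.2 hws1 hws2
            by_cases h6 : (idx ((w : ℕ) + 1)).1 = (idx ((j : ℕ) + 1)).1
            · by_cases h7 : (idx ((w : ℕ) + 1)).2 = (idx ((j : ℕ) + 1)).2
              · exfalso
                apply hw
                rw [h6, h7, m5] at n5
                exact Fin.ext (by omega)
              · rw [if_neg h7, mul_zero, smul_zero]
            · rw [if_neg h6, zero_mul, smul_zero]
      · intro hj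
        exact absurd (Finset.mem_univ _) hj
  · intro h0
    rw [e2]
    refine Finset.sum_eq_zero fun w _ => ?_
    by_cases hws' : s' ((w : ℕ) + 1) = true
    · rw [ptt_eq (h.zero ((w : ℕ) + 1) (Nat.succ_pos _) w.2 hws'), ptt, pt_zero, zero_tmul, smul_zero]
    · rw [h0 w (by simpa using hws'), zero_smul]

theorem stepMap_surj (h : StepData U V s s' idx inv)
    (z : MMod K U ⊗[K] MMod K V) :
    ∃ a : A, (∀ j : Fin T.n, s ((j : ℕ) + 1) = false → tA.b.repr a j = 0) ∧
      prj K A U V idx a = z := by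
  let σ : (MMod K U ⊗[K] MMod K V) →ₗ[K] A := TensorProduct.lift
    ((mb K U).constr K fun i => (mb K V).constr K fun j => pt tA.b (inv ((i : ℕ) + 1) ((j : ℕ) + 1)))
  have hσ : ∀ (i : Fin U.m) (j : Fin V.m), σ (mb K U i ⊗ₜ mb K V j)
      = pt tA.b (inv ((i : ℕ) + 1) ((j : ℕ) + 1)) := by
    intro i j
    show (mb K U).constr K (fun i : Fin U.m => (mb K V).constr K
      fun j : Fin V.m => pt tA.b (inv ((i : ℕ) + 1) ((j : ℕ) + 1))) (mb K U i) (mb K V j) = _
    rw [Basis.constr_basis, Basis.constr_basis]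
  have h1 : ∀ j : Fin T.n, s ((j : ℕ) + 1) = false → (tA.b.coord j) ∘ₗ σ = 0 := by
    intro j hj
    refine TensorProduct.ext ((mb K U).ext fun i => (mb K V).ext fun k => ?_)
    show tA.b.repr (σ (mb K U i ⊗ₜ mb K V k)) j = 0
    obtain ⟨_, _, _, h4⟩ := h.inv _ _ (Nat.succ_pos _) i.2 (Nat.succ_pos _) k.2
    rw [hσ, pt_repr, if_neg]
    intro h5
    rw [h5, hj] at h4
    exact Bool.false_ne_true h4
  have h2 : (prj K A U V idx) ∘ₗ σ = LinearMap.id := by
    refine TensorProduct.ext ((mb K U).ext fun i => (mb K V).ext fun k => ?_)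
    show prj K A U V idx (σ (mb K U i ⊗ₜ mb K V k)) = mb K U i ⊗ₜ mb K V k
    obtain ⟨g1, g2, g3, g4⟩ := h.inv _ _ (Nat.succ_pos _) i.2 (Nat.succ_pos _) k.2
    rw [hσ, prj_pt U V h.idx0 g3, g1, ptt, pt_succ, pt_succ]
  exact ⟨σ z, fun j hj => LinearMap.congr_fun (h1 j hj) z, LinearMap.congr_fun h2 z⟩

/-- one step of the filtration -/
theorem id_step_idl [Module.Finite K A] (hi : idlChk T s = true) (hi' : idlChk T s' = true)
    (hc : stepChk T U V s s' idx inv = true) {p q N : ℕ} (hU : ID A (MMod K U) (p + 1))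
    (hV : ID Aᵐᵒᵖ (MMod K V) (q + 1)) (hN : p + q ≤ N)
    (h' : ID (A ⊗[K] Aᵐᵒᵖ) (idl K A s' hi') (N + 1)) :
    ID (A ⊗[K] Aᵐᵒᵖ) (idl K A s hi) (N + 1) := by
  have h := stepChk_spec hc
  have hle : idl K A s' hi' ≤ idl K A s hi := by
    intro a ha j hj
    refine ha j ?_
    by_contra h1
    have h2 := h.le _ (Nat.succ_pos _) j.2 (by simpa using h1)
    rw [hj] at h2
    exact Bool.false_ne_true h2
  have h3 : ID (A ⊗[K] Aᵐᵒᵖ) (MMod K U ⊗[K] MMod K V) (N + 1) :=
    id_mono (by omega) (id_tensor p q (MMod K U) (MMod K V) hU hV)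
  refine id_mid (Submodule.inclusion hle) (stepMap K A hi h) (Submodule.inclusion_injective hle)
    ?_ ?_ h' h3
  · intro z
    obtain ⟨a, ha, haz⟩ := stepMap_surj (K := K) (A := A) h z
    exact ⟨⟨a, ha⟩, haz⟩
  · intro a
    have h4 := stepMap_ker h a.1 a.2
    constructor
    · intro h5
      exact ⟨⟨a.1, h4.1 h5⟩, Subtype.ext rfl⟩
    · rintro ⟨b, rfl⟩
      exact h4.2 b.2

theorem id_bot (s : ℕ → Bool) (hi : idlChk T s = true)
    (h : ((List.range T.n).all fun w => !(s (w + 1))) = true) (N : ℕ) :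
    ID (A ⊗[K] Aᵐᵒᵖ) (idl K A s hi) N := by
  have h0 : ∀ a : idl K A s hi, a = 0 := by
    intro a
    apply Subtype.ext
    apply tA.b.ext_elem
    intro j
    have h1 := List.all_eq_true.1 h j (List.mem_range.2 j.2)
    rw [a.2 j (by simpa using h1)]
    rw [Submodule.coe_zero, map_zero, Finsupp.zero_apply]
  have : Subsingleton (idl K A s hi) := ⟨fun a b => by rw [h0 a, h0 b]⟩
  exact id_sub N

theorem id_top (s : ℕ → Bool) (hi : idlChk T s = true)
    (h : ((List.range T.n).all fun w => s (w + 1)) = true) {N : ℕ}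
    (h1 : ID (A ⊗[K] Aᵐᵒᵖ) (idl K A s hi) N) : ID (A ⊗[K] Aᵐᵒᵖ) A N := by
  have h2 : idl K A s hi = ⊤ := by
    rw [eq_top_iff]
    intro a _ j hj
    have h3 := List.all_eq_true.1 h j (List.mem_range.2 j.2)
    rw [hj] at h3
    exact absurd h3 Bool.false_ne_true
  rw [h2] at h1
  exact id_congr (Submodule.topEquiv (R := A ⊗[K] Aᵐᵒᵖ) (M := A)) h1

end Step

end Pool.Agent.N9.GS
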