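import Pool.Agent.N9.GS.Gl
import Pool.Agent.N9.GS.Filt

/-!
Generated tables (see `notes` in the header of `Main.lean`).
-/

set_option autoImplicit false
set_option linter.style.longLine false

namespace Pool.Agent.N9.GS.Data

/-- table look-up -/
def lk (L : List (List ℕ)) (x i : ℕ) : ℕ := (L.getD x []).getD i 0

/-- list look-up -/
def l1 (L : List ℕ) (i : ℕ) : ℕ := L.getD i 0

/-- the symmetric Nakayama algebra with 3 simple modules and Loewy length 4 -/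
def tabB : Tab := ⟨12, lk [[0, 0, 0, 0, 0, 0, 0, 0, 0, 0, 0, 0, 0],
    [0, 1, 0, 0, 4, 0, 0, 7, 0, 0, 10, 0, 0],
    [0, 2, 0, 0, 0, 0, 0, 8, 0, 0, 11, 0, 0],
    [0, 3, 0, 0, 0, 0, 0, 0, 0, 0, 12, 0, 0],
    [0, 4, 0, 0, 0, 0, 0, 0, 0, 0, 0, 0, 0],
    [0, 0, 2, 0, 0, 5, 0, 0, 8, 0, 0, 11, 0],
    [0, 0, 3, 0, 0, 6, 0, 0, 0, 0, 0, 12, 0],
    [0, 0, 4, 0, 0, 7, 0, 0, 0, 0, 0, 0, 0],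
    [0, 0, 0, 0, 0, 8, 0, 0, 0, 0, 0, 0, 0],
    [0, 0, 0, 3, 0, 0, 6, 0, 0, 9, 0, 0, 12],
    [0, 0, 0, 4, 0, 0, 7, 0, 0, 10, 0, 0, 0],
    [0, 0, 0, 0, 0, 0, 8, 0, 0, 11, 0, 0, 0],
    [0, 0, 0, 0, 0, 0, 0, 0, 0, 12, 0, 0, 0]], [1, 5, 9]⟩

/-- the endomorphism algebra -/
def tabA : Tab := ⟨25, lk [[0, 0, 0, 0, 0, 0, 0, 0, 0, 0, 0, 0, 0, 0, 0, 0, 0, 0, 0, 0, 0, 0, 0, 0, 0, 0],
    [0, 1, 2, 0, 0, 0, 0, 7, 0, 0, 0, 0, 0, 13, 0, 0, 0, 17, 0, 19, 0, 0, 0, 0, 0, 0],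
    [0, 2, 0, 0, 0, 0, 0, 0, 0, 0, 0, 0, 0, 0, 0, 0, 0, 0, 0, 0, 0, 0, 0, 0, 0, 0],
    [0, 3, 0, 0, 0, 0, 0, 9, 0, 0, 0, 0, 0, 0, 0, 0, 0, 0, 0, 0, 0, 0, 0, 0, 0, 0],
    [0, 4, 0, 0, 0, 0, 0, 10, 0, 0, 0, 0, 0, 16, 0, 0, 0, 0, 0, 0, 0, 0, 0, 0, 0, 0],
    [0, 5, 0, 0, 0, 0, 0, 0, 0, 0, 0, 0, 0, 0, 0, 0, 0, 0, 0, 0, 0, 0, 0, 0, 0, 0],
    [0, 6, 0, 0, 0, 0, 0, 11, 0, 0, 0, 0, 0, 0, 0, 0, 0, 0, 0, 0, 0, 0, 0, 0, 0, 0],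
    [0, 0, 0, 2, 0, 0, 0, 0, 7, 0, 0, 0, 0, 0, 13, 0, 0, 0, 0, 0, 19, 0, 0, 0, 0, 0],
    [0, 0, 0, 3, 0, 0, 0, 0, 8, 9, 0, 0, 0, 0, 14, 0, 0, 0, 0, 0, 20, 0, 0, 23, 0, 0],
    [0, 0, 0, 0, 0, 0, 0, 0, 9, 0, 0, 0, 0, 0, 0, 0, 0, 0, 0, 0, 0, 0, 0, 0, 0, 0],
    [0, 0, 0, 0, 0, 0, 0, 0, 10, 0, 0, 0, 0, 0, 16, 0, 0, 0, 0, 0, 0, 0, 0, 0, 0, 0],
    [0, 0, 0, 0, 0, 0, 0, 0, 11, 0, 0, 0, 0, 0, 0, 0, 0, 0, 0, 0, 0, 0, 0, 0, 0, 0],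
    [0, 0, 0, 0, 0, 0, 0, 0, 12, 0, 0, 0, 0, 0, 0, 0, 0, 0, 0, 0, 0, 0, 0, 0, 0, 0],
    [0, 0, 0, 0, 2, 0, 0, 0, 0, 0, 0, 0, 0, 0, 0, 13, 0, 0, 0, 0, 0, 0, 0, 0, 0, 0],
    [0, 0, 0, 0, 3, 0, 0, 0, 0, 0, 9, 0, 0, 0, 0, 14, 0, 0, 0, 0, 0, 0, 0, 0, 0, 0],
    [0, 0, 0, 0, 4, 0, 0, 0, 0, 0, 10, 0, 0, 0, 0, 15, 16, 0, 0, 0, 0, 0, 0, 0, 0, 0],
    [0, 0, 0, 0, 0, 0, 0, 0, 0, 0, 0, 0, 0, 0, 0, 16, 0, 0, 0, 0, 0, 0, 0, 0, 0, 0],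
    [0, 0, 0, 0, 0, 2, 0, 0, 0, 0, 0, 0, 0, 0, 0, 0, 0, 0, 17, 0, 0, 19, 0, 0, 0, 0],
    [0, 0, 0, 0, 0, 5, 0, 0, 0, 0, 0, 0, 0, 0, 0, 0, 0, 0, 18, 0, 0, 21, 0, 0, 0, 0],
    [0, 0, 0, 0, 0, 0, 2, 0, 0, 0, 0, 0, 0, 0, 0, 0, 0, 0, 0, 0, 0, 0, 19, 0, 0, 0],
    [0, 0, 0, 0, 0, 0, 3, 0, 0, 0, 0, 9, 0, 0, 0, 0, 0, 0, 0, 0, 0, 0, 20, 0, 23, 0],
    [0, 0, 0, 0, 0, 0, 5, 0, 0, 0, 0, 0, 0, 0, 0, 0, 0, 0, 0, 0, 0, 0, 21, 0, 0, 0],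
    [0, 0, 0, 0, 0, 0, 6, 0, 0, 0, 0, 11, 0, 0, 0, 0, 0, 0, 0, 0, 0, 0, 22, 0, 24, 0],
    [0, 0, 0, 0, 0, 0, 0, 0, 0, 0, 0, 0, 9, 0, 0, 0, 0, 0, 0, 0, 0, 0, 0, 0, 0, 23],
    [0, 0, 0, 0, 0, 0, 0, 0, 0, 0, 0, 0, 11, 0, 0, 0, 0, 0, 0, 0, 0, 0, 0, 0, 0, 24],
    [0, 0, 0, 0, 0, 0, 0, 0, 0, 0, 0, 0, 12, 0, 0, 0, 0, 0, 0, 0, 0, 0, 0, 0, 0, 25]], [1, 8, 15, 18, 22, 25]⟩

/-- the module `M` -/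
def repM : Rep tabB := ⟨16, lk [[0, 0, 0, 0, 0, 0, 0, 0, 0, 0, 0, 0, 0, 0, 0, 0, 0],
    [0, 1, 0, 0, 4, 0, 0, 7, 0, 0, 10, 0, 0, 13, 14, 0, 0],
    [0, 2, 0, 0, 0, 0, 0, 8, 0, 0, 11, 0, 0, 0, 15, 0, 0],
    [0, 3, 0, 0, 0, 0, 0, 0, 0, 0, 12, 0, 0, 0, 0, 0, 0],
    [0, 4, 0, 0, 0, 0, 0, 0, 0, 0, 0, 0, 0, 0, 0, 0, 0],
    [0, 0, 2, 0, 0, 5, 0, 0, 8, 0, 0, 11, 0, 0, 0, 15, 16],
    [0, 0, 3, 0, 0, 6, 0, 0, 0, 0, 0, 12, 0, 0, 0, 0, 0],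
    [0, 0, 4, 0, 0, 7, 0, 0, 0, 0, 0, 0, 0, 0, 0, 0, 0],
    [0, 0, 0, 0, 0, 8, 0, 0, 0, 0, 0, 0, 0, 0, 0, 0, 0],
    [0, 0, 0, 3, 0, 0, 6, 0, 0, 9, 0, 0, 12, 0, 0, 0, 0],
    [0, 0, 0, 4, 0, 0, 7, 0, 0, 10, 0, 0, 0, 0, 0, 0, 0],
    [0, 0, 0, 0, 0, 0, 8, 0, 0, 11, 0, 0, 0, 0, 0, 0, 0],
    [0, 0, 0, 0, 0, 0, 0, 0, 0, 12, 0, 0, 0, 0, 0, 0, 0]], by decide +kernel⟩

/-- the action of the endomorphism algebra on `M` -/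
def repMA : Rep tabA := ⟨16, lk [[0, 0, 0, 0, 0, 0, 0, 0, 0, 0, 0, 0, 0, 0, 0, 0, 0],
    [0, 1, 2, 3, 4, 0, 0, 0, 0, 0, 0, 0, 0, 0, 0, 0, 0],
    [0, 4, 0, 0, 0, 0, 0, 0, 0, 0, 0, 0, 0, 0, 0, 0, 0],
    [0, 7, 8, 0, 0, 0, 0, 0, 0, 0, 0, 0, 0, 0, 0, 0, 0],
    [0, 10, 11, 12, 0, 0, 0, 0, 0, 0, 0, 0, 0, 0, 0, 0, 0],
    [0, 13, 0, 0, 0, 0, 0, 0, 0, 0, 0, 0, 0, 0, 0, 0, 0],
    [0, 14, 15, 0, 0, 0, 0, 0, 0, 0, 0, 0, 0, 0, 0, 0, 0],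
    [0, 0, 0, 0, 0, 2, 3, 4, 0, 0, 0, 0, 0, 0, 0, 0, 0],
    [0, 0, 0, 0, 0, 5, 6, 7, 8, 0, 0, 0, 0, 0, 0, 0, 0],
    [0, 0, 0, 0, 0, 8, 0, 0, 0, 0, 0, 0, 0, 0, 0, 0, 0],
    [0, 0, 0, 0, 0, 11, 12, 0, 0, 0, 0, 0, 0, 0, 0, 0, 0],
    [0, 0, 0, 0, 0, 15, 0, 0, 0, 0, 0, 0, 0, 0, 0, 0, 0],
    [0, 0, 0, 0, 0, 16, 0, 0, 0, 0, 0, 0, 0, 0, 0, 0, 0],
    [0, 0, 0, 0, 0, 0, 0, 0, 0, 3, 4, 0, 0, 0, 0, 0, 0],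
    [0, 0, 0, 0, 0, 0, 0, 0, 0, 6, 7, 8, 0, 0, 0, 0, 0],
    [0, 0, 0, 0, 0, 0, 0, 0, 0, 9, 10, 11, 12, 0, 0, 0, 0],
    [0, 0, 0, 0, 0, 0, 0, 0, 0, 12, 0, 0, 0, 0, 0, 0, 0],
    [0, 0, 0, 0, 0, 0, 0, 0, 0, 0, 0, 0, 0, 4, 0, 0, 0],
    [0, 0, 0, 0, 0, 0, 0, 0, 0, 0, 0, 0, 0, 13, 0, 0, 0],
    [0, 0, 0, 0, 0, 0, 0, 0, 0, 0, 0, 0, 0, 0, 4, 0, 0],
    [0, 0, 0, 0, 0, 0, 0, 0, 0, 0, 0, 0, 0, 0, 7, 8, 0],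
    [0, 0, 0, 0, 0, 0, 0, 0, 0, 0, 0, 0, 0, 0, 13, 0, 0],
    [0, 0, 0, 0, 0, 0, 0, 0, 0, 0, 0, 0, 0, 0, 14, 15, 0],
    [0, 0, 0, 0, 0, 0, 0, 0, 0, 0, 0, 0, 0, 0, 0, 0, 8],
    [0, 0, 0, 0, 0, 0, 0, 0, 0, 0, 0, 0, 0, 0, 0, 0, 15],
    [0, 0, 0, 0, 0, 0, 0, 0, 0, 0, 0, 0, 0, 0, 0, 0, 16]], by decide +kernel⟩

/-- the regular module of `B` -/
def repB : Rep tabB := ⟨12, tabB.mul, by decide +kernel⟩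

def prMB : Mt := [[(1, 1)], [(2, 1)], [(3, 1)], [(4, 1)], [(5, 1)], [(6, 1)], [(7, 1)], [(8, 1)], [(9, 1)], [(10, 1)], [(11, 1)], [(12, 1)], [], [], [], []]

def gensM : List ℕ := [1, 5, 9, 13, 14, 16]

/-- code of the source generator of a basis element of `A` -/
def sA : ℕ → ℕ := l1 [0, 1, 1, 1, 1, 1, 1, 5, 5, 5, 5, 5, 5, 9, 9, 9, 9, 13, 13, 14, 14, 14, 14, 16, 16, 16]

/-- code of the image of the generator under a basis element of `A` -/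
def tA : ℕ → ℕ := l1 [0, 1, 4, 7, 10, 13, 14, 2, 5, 8, 11, 15, 16, 3, 6, 9, 12, 4, 13, 4, 7, 13, 14, 8, 15, 16]

/-- codes of the socle of `B` -/
def socB : List ℕ := [4, 8, 12]

def dualB : ℕ → ℕ := l1 [0, 4, 7, 10, 1, 8, 11, 2, 5, 12, 3, 6, 9]

/-- radical layer -/
def levA : ℕ → ℕ := l1 [0, 0, 3, 2, 1, 2, 1, 1, 0, 3, 2, 2, 1, 2, 1, 0, 3, 1, 0, 2, 1, 1, 0, 2, 1, 0]

theorem levA_chk : levChk tabA levA 4 = true := by decide +kernel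

def simp0 : Rep tabA := ⟨1, simpAct 1, by decide +kernel⟩

def simp1 : Rep tabA := ⟨1, simpAct 8, by decide +kernel⟩

def simp2 : Rep tabA := ⟨1, simpAct 15, by decide +kernel⟩

def simp3 : Rep tabA := ⟨1, simpAct 18, by decide +kernel⟩

def simp4 : Rep tabA := ⟨1, simpAct 22, by decide +kernel⟩

def simp5 : Rep tabA := ⟨1, simpAct 25, by decide +kernel⟩

def repLP_0 : Rep tabA := ⟨6, lk [[], [0, 1, 2, 0, 0, 0, 0], [0, 2, 0, 0, 0, 0, 0], [0, 3, 0, 0, 0, 0, 0], [0, 4, 0, 0, 0, 0, 0], [0, 5, 0, 0, 0, 0, 0], [0, 6, 0, 0, 0, 0, 0], [0, 0, 0, 2, 0, 0, 0], [0, 0, 0, 3, 0, 0, 0], [], [], [], [], [0, 0, 0, 0, 2, 0, 0], [0, 0, 0, 0, 3, 0, 0], [0, 0, 0, 0, 4, 0, 0], [], [0, 0, 0, 0, 0, 2, 0], [0, 0, 0, 0, 0, 5, 0], [0, 0, 0, 0, 0, 0, 2], [0, 0, 0, 0, 0, 0, 3], [0, 0,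 0, 0, 0, 0, 5], [0, 0, 0, 0, 0, 0, 6], [], [], []], by decide +kernel⟩

def repLP_24 : Rep tabA := ⟨8, lk [[], [0, 0, 2, 0, 0, 0, 6, 0, 0], [], [], [0, 0, 4, 0, 0, 0, 0, 0, 0], [], [], [0, 0, 0, 2, 0, 0, 0, 6, 0], [0, 0, 0, 3, 0, 0, 0, 7, 0], [], [0, 0, 0, 4, 0, 0, 0, 0, 0], [], [], [0, 2, 0, 0, 0, 0, 0, 0, 0], [0, 3, 0, 0, 0, 0, 0, 0, 0], [0, 1, 0, 0, 4, 0, 0, 0, 0], [0, 4, 0, 0, 0, 0, 0, 0, 0], [0, 0, 0, 0, 0, 0, 0, 0, 6], [0, 0, 0, 0, 0, 0, 0, 0, 8], [0, 0, 0, 0, 0, 6, 0, 0, 0], [0, 0, 0, 0, 0, 7, 0, 0, 0], [0, 0, 0, 0, 0, 8, 0, 0, 0], [0, 0, 0, 0, 0, 5, 0, 0, 0], [], [], []], by decide +kernel⟩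

def repLP_1 : Rep tabA := ⟨6, lk [[], [0, 0, 2, 0, 0, 0, 0], [], [0, 0, 3, 0, 0, 0, 0], [0, 0, 4, 0, 0, 0, 0], [], [0, 0, 5, 0, 0, 0, 0], [0, 2, 0, 0, 0, 0, 0], [0, 1, 0, 3, 0, 0, 0], [0, 3, 0, 0, 0, 0, 0], [0, 4, 0, 0, 0, 0, 0], [0, 5, 0, 0, 0, 0, 0], [0, 6, 0, 0, 0, 0, 0], [], [0, 0, 0, 0, 3, 0, 0], [0, 0, 0, 0, 4, 0, 0], [], [], [], [], [0, 0, 0, 0, 0, 3, 0], [], [0, 0, 0, 0, 0, 5, 0], [0, 0, 0, 0, 0, 0, 3], [0, 0, 0, 0, 0, 0, 5], [0, 0, 0, 0, 0, 0, 6]], by decide +kernel⟩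

def repLP_5 : Rep tabA := ⟨3, lk [[], [], [], [], [], [], [], [], [0, 0, 2, 0], [], [], [], [], [], [], [], [], [], [], [], [0, 0, 0, 2], [], [0, 0, 0, 3], [0, 2, 0, 0], [0, 3, 0, 0], [0, 1, 0, 0]], by decide +kernel⟩

def resS0 : List (Stg tabA) := [⟨repLP_0, l1 [0, 1, 2, 3, 4, 5, 6], l1 [0, 1, 1, 1, 1, 1, 1], l1 [0, 1], [[(1, 1)], [], [], [], [], []], [[(1, 1)]]⟩,
  ⟨repLP_24, l1 [0, 15, 13, 14, 16, 22, 19, 20, 21], l1 [0, 1, 1, 1, 1, 2, 2, 2, 2], l1 [0, 1, 5], [[(4, 1)], [(2, 1)], [(3, 1)], [], [(6, 1)], [(2, 1)], [(3, 1)], [(5, 1)]], [[], [(2, 1)], [(3, 1)], [(1, 1)], [(8, 1)], [(5, 1)]]⟩,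
  ⟨repLP_1, l1 [0, 8, 7, 9, 10, 11, 12], l1 [0, 1, 1, 1, 1, 1, 1], l1 [0, 1], [[(3, -1), (7, 1)], [(2, -1), (6, 1)], [], [(4, -1)], [], []], [[], [], [], [(4, -1)], [], [(2, 1)], [(1, 1)], []]⟩,
  ⟨repLP_5, l1 [0, 25, 23, 24], l1 [0, 1, 1, 1], l1 [0, 1], [[(6, 1)], [(3, 1)], [(5, 1)]], [[], [], [(2, 1)], [], [(3, 1)], [(1, 1)]]⟩]

theorem resS0_chk : resChk simp0 resS0 = true := by decide +kernel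

def repLP_05 : Rep tabA := ⟨9, lk [[], [0, 1, 2, 0, 0, 0, 0, 0, 0, 0], [0, 2, 0, 0, 0, 0, 0, 0, 0, 0], [0, 3, 0, 0, 0, 0, 0, 0, 0, 0], [0, 4, 0, 0, 0, 0, 0, 0, 0, 0], [0, 5, 0, 0, 0, 0, 0, 0, 0, 0], [0, 6, 0, 0, 0, 0, 0, 0, 0, 0], [0, 0, 0, 2, 0, 0, 0, 0, 0, 0], [0, 0, 0, 3, 0, 0, 0, 0, 8, 0], [], [], [], [], [0, 0, 0, 0, 2, 0, 0, 0, 0, 0], [0, 0, 0, 0, 3, 0, 0, 0, 0, 0], [0, 0, 0, 0, 4, 0, 0, 0, 0, 0], [], [0, 0, 0, 0, 0, 2, 0, 0, 0, 0], [0, 0, 0, 0, 0, 5, 0, 0, 0, 0], [0, 0, 0, 0, 0, 0, 2, 0, 0, 0], [0, 0, 0, 0, 0, 0, 3, 0, 0, 8], [0, 0, 0, 0, 0, 0, 5, 0, 0, 0], [0, 0, 0, 0, 0, 0, 6, 0, 0, 9], [0, 0, 0, 0, 0, 0, 0, 8, 0, 0], [0, 0, 0, 0, 0, 0, 0, 9, 0, 0], [0, 0, 0, 0, 0, 0, 0, 7, 0, 0]], by decide +kernel⟩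

def repLP_4 : Rep tabA := ⟨4, lk [[], [0, 0, 2, 0, 0], [], [], [], [], [], [0, 0, 0, 2, 0], [0, 0, 0, 3, 0], [], [], [], [], [], [], [], [], [0, 0, 0, 0, 2], [0, 0, 0, 0, 4], [0, 2, 0, 0, 0], [0, 3, 0, 0, 0], [0, 4, 0, 0, 0], [0, 1, 0, 0, 0], [], [], []], by decide +kernel⟩

def resS1 : List (Stg tabA) := [⟨repLP_1, l1 [0, 8, 7, 9, 10, 11, 12], l1 [0, 1, 1, 1, 1, 1, 1], l1 [0, 1], [[(1, 1)], [], [], [], [], []], [[(1, 1)]]⟩,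
  ⟨repLP_05, l1 [0, 1, 2, 3, 4, 5, 6, 25, 23, 24], l1 [0, 1, 1, 1, 1, 1, 1, 2, 2, 2], l1 [0, 1, 7], [[(2, 1)], [], [(3, 1)], [(4, 1)], [], [(5, 1)], [(6, 1)], [(3, 1)], [(5, 1)]], [[], [(1, 1)], [(3, 1)], [(4, 1)], [(6, 1)], [(7, 1)]]⟩,
  ⟨repLP_4, l1 [0, 22, 19, 20, 21], l1 [0, 1, 1, 1, 1], l1 [0, 1], [[(6, -1), (9, 1)], [(2, -1)], [(3, -1), (8, 1)], [(5, -1)]], [[], [(2, -1)], [], [], [(4, -1)], [], [], [(3, 1)], [(1, 1)]]⟩]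

theorem resS1_chk : resChk simp1 resS1 = true := by decide +kernel

def repLP_2 : Rep tabA := ⟨4, lk [[], [0, 0, 2, 0, 0], [], [], [0, 0, 4, 0, 0], [], [], [0, 0, 0, 2, 0], [0, 0, 0, 3, 0], [], [0, 0, 0, 4, 0], [], [], [0, 2, 0, 0, 0], [0, 3, 0, 0, 0], [0, 1, 0, 0, 4], [0, 4, 0, 0, 0], [], [], [], [], [], [], [], [], []], by decide +kernel⟩

def resS2 : List (Stg tabA) := [⟨repLP_2, l1 [0, 15, 13, 14, 16], l1 [0, 1, 1, 1, 1], l1 [0, 1], [[(1, 1)], [], [], []], [[(1, 1)]]⟩,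
  ⟨repLP_1, l1 [0, 8, 7, 9, 10, 11, 12], l1 [0, 1, 1, 1, 1, 1, 1], l1 [0, 1], [[(3, 1)], [(2, 1)], [], [(4, 1)], [], []], [[], [(2, 1)], [(1, 1)], [(4, 1)]]⟩,
  ⟨repLP_5, l1 [0, 25, 23, 24], l1 [0, 1, 1, 1], l1 [0, 1], [[(6, 1)], [(3, 1)], [(5, 1)]], [[], [], [(2, 1)], [], [(3, 1)], [(1, 1)]]⟩]

theorem resS2_chk : resChk simp2 resS2 = true := by decide +kernel

def repLP_3 : Rep tabA := ⟨2, lk [[], [0, 0, 2], [], [], [], [], [], [], [], [], [], [], [], [], [], [], [], [0, 2, 0], [0, 1, 0], [], [], [], [], [], [], []], by decide +kernel⟩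

def resS3 : List (Stg tabA) := [⟨repLP_3, l1 [0, 18, 17], l1 [0, 1, 1], l1 [0, 1], [[(1, 1)], []], [[(1, 1)]]⟩,
  ⟨repLP_0, l1 [0, 1, 2, 3, 4, 5, 6], l1 [0, 1, 1, 1, 1, 1, 1], l1 [0, 1], [[(2, 1)], [], [], [], [], []], [[], [(1, 1)]]⟩,
  ⟨repLP_24, l1 [0, 15, 13, 14, 16, 22, 19, 20, 21], l1 [0, 1, 1, 1, 1, 2, 2, 2, 2], l1 [0, 1, 5], [[(4, 1)], [(2, 1)], [(3, 1)], [], [(6, 1)], [(2, 1)], [(3, 1)], [(5, 1)]], [[], [(2, 1)], [(3, 1)], [(1, 1)], [(8, 1)], [(5, 1)]]⟩,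
  ⟨repLP_1, l1 [0, 8, 7, 9, 10, 11, 12], l1 [0, 1, 1, 1, 1, 1, 1], l1 [0, 1], [[(3, -1), (7, 1)], [(2, -1), (6, 1)], [], [(4, -1)], [], []], [[], [], [], [(4, -1)], [], [(2, 1)], [(1, 1)], []]⟩,
  ⟨repLP_5, l1 [0, 25, 23, 24], l1 [0, 1, 1, 1], l1 [0, 1], [[(6, 1)], [(3, 1)], [(5, 1)]], [[], [], [(2, 1)], [], [(3, 1)], [(1, 1)]]⟩]

theorem resS3_chk : resChk simp3 resS3 = true := by decide +kernel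

def repLP_13 : Rep tabA := ⟨8, lk [[], [0, 0, 2, 0, 0, 0, 0, 0, 8], [], [0, 0, 3, 0, 0, 0, 0, 0, 0], [0, 0, 4, 0, 0, 0, 0, 0, 0], [], [0, 0, 5, 0, 0, 0, 0, 0, 0], [0, 2, 0, 0, 0, 0, 0, 0, 0], [0, 1, 0, 3, 0, 0, 0, 0, 0], [0, 3, 0, 0, 0, 0, 0, 0, 0], [0, 4, 0, 0, 0, 0, 0, 0, 0], [0, 5, 0, 0, 0, 0, 0, 0, 0], [0, 6, 0, 0, 0, 0, 0, 0, 0], [], [0, 0, 0, 0, 3, 0, 0, 0, 0], [0, 0, 0, 0, 4, 0, 0, 0, 0], [], [0, 0, 0, 0, 0, 0, 0, 8, 0], [0, 0, 0, 0, 0, 0, 0, 7, 0], [], [0, 0, 0, 0, 0, 3, 0, 0, 0], [], [0, 0, 0, 0, 0, 5, 0, 0, 0], [0, 0, 0, 0, 0, 0, 3, 0, 0], [0, 0, 0, 0, 0, 0, 5, 0, 0], [0, 0, 0, 0, 0, 0, 6, 0, 0]], by decide +kernel⟩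

def resS4 : List (Stg tabA) := [⟨repLP_4, l1 [0, 22, 19, 20, 21], l1 [0, 1, 1, 1, 1], l1 [0, 1], [[(1, 1)], [], [], []], [[(1, 1)]]⟩,
  ⟨repLP_13, l1 [0, 8, 7, 9, 10, 11, 12, 18, 17], l1 [0, 1, 1, 1, 1, 1, 1, 2, 2], l1 [0, 1, 7], [[(3, 1)], [(2, 1)], [], [], [], [], [(4, 1)], [(2, 1)]], [[], [(2, 1)], [(1, 1)], [(7, 1)]]⟩,
  ⟨repLP_05, l1 [0, 1, 2, 3, 4, 5, 6, 25, 23, 24], l1 [0, 1, 1, 1, 1, 1, 1, 2, 2, 2], l1 [0, 1, 7], [[(2, -1), (8, 1)], [], [(3, -1)], [(4, -1)], [], [(5, -1)], [(6, 1)], [(3, 1)], [(5, 1)]], [[], [], [(3, -1)], [(4, -1)], [(6, -1)], [(7, 1)], [], [(1, 1)]]⟩,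
  ⟨repLP_4, l1 [0, 22, 19, 20, 21], l1 [0, 1, 1, 1, 1], l1 [0, 1], [[(6, 1), (9, 1)], [(2, 1)], [(3, 1), (8, 1)], [(5, 1)]], [[], [(2, 1)], [], [], [(4, 1)], [], [], [(3, 1)], [(1, 1)]]⟩]

theorem resS4_chk : resChk simp4 resS4 = true := by decide +kernel

def resS5 : List (Stg tabA) := [⟨repLP_5, l1 [0, 25, 23, 24], l1 [0, 1, 1, 1], l1 [0, 1], [[(1, 1)], [], []], [[(1, 1)]]⟩,
  ⟨repLP_4, l1 [0, 22, 19, 20, 21], l1 [0, 1, 1, 1, 1], l1 [0, 1], [[(3, 1)], [], [(2, 1)], []], [[], [(3, 1)], [(1, 1)]]⟩,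
  ⟨repLP_3, l1 [0, 18, 17], l1 [0, 1, 1], l1 [0, 1], [[(4, 1)], [(2, 1)]], [[], [(2, 1)], [], [(1, 1)]]⟩]

theorem resS5_chk : resChk simp5 resS5 = true := by decide +kernel

def xk3 : ℕ → ℕ := l1 [0, 8, 7, 9, 10, 11, 12]

def kk3 : ℕ → ℕ := l1 [0, 1, 1, 1, 1, 1, 1]

theorem rad3_chk : radChk repLP_5 repLP_1 [[(6, 1)], [(3, 1)], [(5, 1)]] 1 xk3 kk3 = true := by decide +kernel

def F3_0 : Mt := [[(1, 1)], []]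

def H3_0 : Mt := [[(1, 1)]]

def F3_1 : Mt := [[(2, 1)], [], [], [], [], []]

def H3_1 : Mt := [[], [(1, 1)]]

def F3_2 : Mt := [[(4, 1)], [(2, 1)], [(3, 1)], [], [(6, 1)], [(2, 1)], [(3, 1)], [(5, 1)]]

def H3_2 : Mt := [[], [(2, 1)], [(3, 1)], [(1, 1)], [(8, 1)], [(5, 1)]]

def F3_3 : Mt := [[(3, -1), (7, 1)], [(2, -1), (6, 1)], [], [(4, -1)], [], []]

def H3_3 : Mt := [[], [], [], [(4, -1)], [], [(2, 1)], [(1, 1)], []]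

def F3_4 : Mt := [[(6, 1)], [(3, 1)], [(5, 1)]]

def H3_4 : Mt := [[], [], [(2, 1)], [], [(3, 1)], [(1, 1)]]

def flt : ℕ → ℕ := l1 [0, 4, 1, 3, 4, 1, 3, 4, 5, 2, 4, 2, 2, 4, 5, 6, 4, 1, 1, 1, 3, 1, 3, 2, 2, 2]

/-- the ideals of the filtration -/
def sI (k w : ℕ) : Bool := decide (0 < flt w) && decide (flt w ≤ k)

theorem idl0_chk : idlChk tabA (sI 0) = true := by decide +kernel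

theorem idl1_chk : idlChk tabA (sI 1) = true := by decide +kernel

theorem idl2_chk : idlChk tabA (sI 2) = true := by decide +kernel

theorem idl3_chk : idlChk tabA (sI 3) = true := by decide +kernel

theorem idl4_chk : idlChk tabA (sI 4) = true := by decide +kernel

theorem idl5_chk : idlChk tabA (sI 5) = true := by decide +kernel

theorem idl6_chk : idlChk tabA (sI 6) = true := by decide +kernel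

def U1 : Rep tabA := ⟨2, lk [[], [0, 1, 0], [], [], [], [], [], [], [], [], [], [], [], [], [], [], [], [0, 0, 1], [0, 0, 2], [], [], [], [], [], [], []], by decide +kernel⟩

def V1 : Rep tabA.op := ⟨3, lk [[], [0, 1, 0, 0], [], [], [], [0, 0, 1, 0], [0, 0, 0, 1], [], [], [], [], [], [], [], [], [], [], [], [0, 0, 2, 0], [], [], [0, 0, 3, 0], [0, 0, 0, 3], [], [], []], by decide +kernel⟩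

def idx1 (w : ℕ) : ℕ × ℕ := (l1 [0, 0, 1, 0, 0, 2, 0, 0, 0, 0, 0, 0, 0, 0, 0, 0, 0, 1, 2, 1, 0, 2, 0, 0, 0, 0] w, l1 [0, 0, 1, 0, 0, 1, 0, 0, 0, 0, 0, 0, 0, 0, 0, 0, 0, 2, 2, 3, 0, 3, 0, 0, 0, 0] w)

def inv1 : ℕ → ℕ → ℕ := lk [[0, 0, 0, 0], [0, 2, 17, 19], [0, 5, 18, 21]]

theorem step1_chk : stepChk tabA U1 V1 (sI 1) (sI 0) idx1 inv1 = true := by decide +kernel

def repLI_0 : Rep tabA := ⟨6, lk [[], [0, 1, 2, 0, 0, 0, 0], [0, 0, 1, 0, 0, 0, 0], [0, 0, 3, 0, 0, 0, 0], [0, 0, 4, 0, 0, 0, 0], [0, 0, 5, 0, 0, 0, 0], [0, 0, 6, 0, 0, 0, 0], [0, 0, 0, 1, 0, 0, 0], [0, 0, 0, 3, 0, 0, 0], [], [], [], [], [0, 0, 0, 0, 1, 0, 0], [0, 0, 0, 0, 3, 0, 0], [0, 0, 0, 0, 4, 0, 0], [], [0, 0, 0, 0, 0, 1, 0], [0, 0, 0, 0, 0, 5, 0], [0, 0, 0, 0, 0, 0, 1], [0, 0, 0, 0, 0, 0,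 3], [0, 0, 0, 0, 0, 0, 5], [0, 0, 0, 0, 0, 0, 6], [], [], []], by decide +kernel⟩

def repLI_1 : Rep tabA := ⟨6, lk [[], [0, 0, 2, 0, 0, 0, 0], [], [0, 0, 1, 0, 0, 0, 0], [0, 0, 4, 0, 0, 0, 0], [], [0, 0, 5, 0, 0, 0, 0], [0, 0, 0, 2, 0, 0, 0], [0, 1, 0, 3, 0, 0, 0], [0, 0, 0, 1, 0, 0, 0], [0, 0, 0, 4, 0, 0, 0], [0, 0, 0, 5, 0, 0, 0], [0, 0, 0, 6, 0, 0, 0], [], [0, 0, 0, 0, 1, 0, 0], [0, 0, 0, 0, 4, 0, 0], [], [], [], [], [0, 0, 0, 0, 0, 1, 0], [], [0, 0, 0, 0, 0, 5, 0], [0, 0, 0, 0, 0, 0, 1], [0, 0, 0, 0, 0, 0, 5], [0, 0, 0, 0, 0, 0, 6]], by decide +kernel⟩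

def repLI_5 : Rep tabA := ⟨2, lk [[], [], [], [], [], [], [], [], [0, 0, 2], [], [], [], [0, 0, 1], [], [], [], [], [], [], [], [], [], [], [], [], [0, 1, 0]], by decide +kernel⟩

def repRI_0 : Rep tabA.op := ⟨6, lk [[], [0, 1, 2, 0, 0, 0, 0], [0, 0, 1, 0, 0, 0, 0], [0, 0, 0, 1, 0, 0, 0], [0, 0, 0, 0, 1, 0, 0], [0, 0, 0, 0, 0, 1, 0], [0, 0, 0, 0, 0, 0, 1], [0, 0, 3, 0, 0, 0, 0], [0, 0, 0, 3, 0, 0, 0], [], [], [], [], [0, 0, 4, 0, 0, 0, 0], [0, 0, 0, 4, 0, 0, 0], [0, 0, 0, 0, 4, 0, 0], [], [0, 0, 5, 0, 0, 0, 0], [0, 0, 0, 0, 0, 5, 0], [0, 0, 6, 0, 0, 0, 0], [0, 0, 0, 6, 0, 0, 0], [0, 0, 0, 0, 0, 6, 0], [0, 0, 0, 0, 0, 0, 6], [], [], []], by decide +kernel⟩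

def repRI_2 : Rep tabA.op := ⟨4, lk [[], [0, 0, 2, 0, 0], [], [], [0, 0, 0, 0, 2], [], [], [0, 0, 3, 0, 0], [0, 0, 0, 3, 0], [], [0, 0, 0, 0, 3], [], [], [0, 0, 1, 0, 0], [0, 0, 0, 1, 0], [0, 1, 0, 0, 4], [0, 0, 0, 0, 1], [], [], [], [], [], [], [], [], []], by decide +kernel⟩

def repRI_1 : Rep tabA.op := ⟨6, lk [[], [0, 0, 2, 0, 0, 0, 0], [], [0, 0, 0, 2, 0, 0, 0], [0, 0, 0, 0, 2, 0, 0], [], [0, 0, 0, 0, 0, 2, 0], [0, 0, 1, 0, 0, 0, 0], [0, 1, 0, 3, 0, 0, 0], [0, 0, 0, 1, 0, 0, 0], [0, 0, 0, 0, 1, 0, 0], [0, 0, 0, 0, 0, 1, 0], [0, 0, 0, 0, 0, 0, 1], [], [0, 0, 0, 4, 0, 0, 0], [0, 0, 0, 0, 4, 0, 0], [], [], [], [], [0, 0, 0, 5, 0, 0, 0], [], [0, 0, 0, 0, 0, 5, 0], [0, 0, 0, 6, 0, 0, 0], [0, 0, 0, 0, 0, 6, 0], [0, 0, 0, 0, 0, 0, 6]], by decide +kernel⟩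

def repRI_5 : Rep tabA.op := ⟨3, lk [[], [], [], [], [], [], [], [], [0, 0, 2, 0], [], [], [], [], [], [], [], [], [], [], [], [0, 0, 3, 0], [], [0, 0, 0, 3], [0, 0, 1, 0], [0, 0, 0, 1], [0, 1, 0, 0]], by decide +kernel⟩

def corU1 : List (Stg tabA) := [⟨repLI_0, l1 [0, 1, 2, 7, 13, 17, 19], l1 [0, 1, 1, 1, 1, 1, 1], l1 [0, 1], [[(1, 1)], [(5, 1)]], [[(1, 1)], [], [], [], [(2, 1)], []]⟩,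
  ⟨repLI_1, l1 [0, 8, 3, 9, 14, 20, 23], l1 [0, 1, 1, 1, 1, 1, 1], l1 [0, 1], [[], [(2, 1)], [(1, 1)], [(4, 1)], [], [(5, 1)]], [[(3, 1)], [(2, 1)], [], [(4, 1)], [(6, 1)], []]⟩,
  ⟨repLI_5, l1 [0, 25, 12], l1 [0, 1, 1], l1 [0, 1], [[], [], [(2, 1)], [], [], [(1, 1)]], [[(6, 1)], [(3, 1)]]⟩]

theorem corU1_chk : coresChk U1 corU1 = true := by decide +kernel

def corV1 : List (Stg tabA.op) := [⟨repRI_0, l1 [0, 1, 2, 3, 4, 5, 6], l1 [0, 1, 1, 1, 1, 1, 1], l1 [0, 1], [[(1, 1)], [(5, 1)], [(6, 1)]], [[(1, 1)], [], [], [], [(2, 1)], [(3, 1)]]⟩,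
  ⟨repRI_2, l1 [0, 15, 13, 14, 16], l1 [0, 1, 1, 1, 1], l1 [0, 1], [[], [(2, 1)], [(3, 1)], [(1, 1)], [], []], [[(4, 1)], [(2, 1)], [(3, 1)], []]⟩,
  ⟨repRI_2, l1 [0, 15, 13, 14, 16], l1 [0, 1, 1, 1, 1], l1 [0, 1], [[], [], [], [(1, 1)]], [[(4, 1)], [], [], []]⟩,
  ⟨repRI_1, l1 [0, 8, 7, 9, 10, 11, 12], l1 [0, 1, 1, 1, 1, 1, 1], l1 [0, 1], [[], [(2, 1)], [(1, 1)], [(4, 1)]], [[(3, 1)], [(2, 1)], [], [(4, 1)], [], []]⟩,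
  ⟨repRI_5, l1 [0, 25, 23, 24], l1 [0, 1, 1, 1], l1 [0, 1], [[], [], [(2, 1)], [], [(3, 1)], [(1, 1)]], [[(6, 1)], [(3, 1)], [(5, 1)]]⟩]

theorem corV1_chk : coresChk V1 corV1 = true := by decide +kernel

def U2 : Rep tabA := ⟨3, lk [[], [], [], [], [], [], [], [], [0, 1, 0, 0], [], [], [], [], [], [], [], [], [], [], [], [0, 0, 1, 0], [], [0, 0, 2, 0], [0, 0, 0, 1], [0, 0, 0, 2], [0, 0, 0, 3]], by decide +kernel⟩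

def V2 : Rep tabA.op := ⟨2, lk [[], [], [], [], [], [], [], [], [0, 1, 0], [], [], [], [0, 0, 1], [], [], [], [], [], [], [], [], [], [], [], [], [0, 0, 2]], by decide +kernel⟩

def idx2 (w : ℕ) : ℕ × ℕ := (l1 [0, 0, 0, 0, 0, 0, 0, 0, 0, 1, 0, 2, 3, 0, 0, 0, 0, 0, 0, 0, 0, 0, 0, 1, 2, 3] w, l1 [0, 0, 0, 0, 0, 0, 0, 0, 0, 1, 0, 1, 1, 0, 0, 0, 0, 0, 0, 0, 0, 0, 0, 2, 2, 2] w)

def inv2 : ℕ → ℕ → ℕ := lk [[0, 0, 0], [0, 9, 23], [0, 11, 24], [0, 12, 25]]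

theorem step2_chk : stepChk tabA U2 V2 (sI 2) (sI 1) idx2 inv2 = true := by decide +kernel

def repLI_2 : Rep tabA := ⟨4, lk [[], [0, 0, 2, 0, 0], [], [], [0, 0, 1, 0, 0], [], [], [0, 0, 0, 2, 0], [0, 0, 0, 3, 0], [], [0, 0, 0, 1, 0], [], [], [0, 0, 0, 0, 2], [0, 0, 0, 0, 3], [0, 1, 0, 0, 4], [0, 0, 0, 0, 1], [], [], [], [], [], [], [], [], []], by decide +kernel⟩

def repLI_3 : Rep tabA := ⟨3, lk [[], [0, 0, 2, 0], [], [], [], [0, 0, 1, 0], [0, 0, 3, 0], [], [], [], [], [], [], [], [], [], [], [], [0, 1, 0, 0], [], [], [0, 0, 0, 1], [0, 0, 0, 3], [], [], []], by decide +kernel⟩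

def repRI_3 : Rep tabA.op := ⟨2, lk [[], [0, 0, 2], [], [], [], [], [], [], [], [], [], [], [], [], [], [], [], [0, 0, 1], [0, 1, 0], [], [], [], [], [], [], []], by decide +kernel⟩

def corU2 : List (Stg tabA) := [⟨repLI_1, l1 [0, 8, 3, 9, 14, 20, 23], l1 [0, 1, 1, 1, 1, 1, 1], l1 [0, 1], [[(1, 1)], [(5, 1)], [(6, 1)]], [[(1, 1)], [], [], [], [(2, 1)], [(3, 1)]]⟩,
  ⟨repLI_2, l1 [0, 15, 4, 10, 16], l1 [0, 1, 1, 1, 1], l1 [0, 1], [[], [(2, 1)], [(3, 1)], [(1, 1)], [], []], [[(4, 1)], [(2, 1)], [(3, 1)], []]⟩,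
  ⟨repLI_2, l1 [0, 15, 4, 10, 16], l1 [0, 1, 1, 1, 1], l1 [0, 1], [[], [], [], [(1, 1)]], [[(4, 1)], [], [], []]⟩,
  ⟨repLI_0, l1 [0, 1, 2, 7, 13, 17, 19], l1 [0, 1, 1, 1, 1, 1, 1], l1 [0, 1], [[], [(1, 1)], [(3, 1)], [(4, 1)]], [[(2, 1)], [], [(3, 1)], [(4, 1)], [], []]⟩,
  ⟨repLI_3, l1 [0, 18, 5, 21], l1 [0, 1, 1, 1], l1 [0, 1], [[], [(2, 1)], [], [], [(1, 1)], [(3, 1)]], [[(5, 1)], [(2, 1)], [(6, 1)]]⟩]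

theorem corU2_chk : coresChk U2 corU2 = true := by decide +kernel

def corV2 : List (Stg tabA.op) := [⟨repRI_1, l1 [0, 8, 7, 9, 10, 11, 12], l1 [0, 1, 1, 1, 1, 1, 1], l1 [0, 1], [[(1, 1)], [(6, 1)]], [[(1, 1)], [], [], [], [], [(2, 1)]]⟩,
  ⟨repRI_0, l1 [0, 1, 2, 3, 4, 5, 6], l1 [0, 1, 1, 1, 1, 1, 1], l1 [0, 1], [[], [(1, 1)], [(3, 1)], [(4, 1)], [(6, 1)], []], [[(2, 1)], [], [(3, 1)], [(4, 1)], [], [(5, 1)]]⟩,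
  ⟨repRI_3, l1 [0, 18, 17], l1 [0, 1, 1], l1 [0, 1], [[], [(2, 1)], [], [], [(1, 1)], []], [[(5, 1)], [(2, 1)]]⟩]

theorem corV2_chk : coresChk V2 corV2 = true := by decide +kernel

def U3 : Rep tabA := ⟨2, lk [[], [], [], [], [], [], [], [], [0, 1, 0], [], [], [], [], [], [], [], [], [], [], [], [0, 0, 1], [], [0, 0, 2], [], [], []], by decide +kernel⟩

def V3 : Rep tabA.op := ⟨2, lk [[], [0, 1, 0], [], [], [], [], [0, 0, 1], [], [], [], [], [], [], [], [], [], [], [], [], [], [], [], [0, 0, 2], [], [], []], by decide +kernel⟩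

def idx3 (w : ℕ) : ℕ × ℕ := (l1 [0, 0, 0, 1, 0, 0, 2, 0, 0, 0, 0, 0, 0, 0, 0, 0, 0, 0, 0, 0, 1, 0, 2, 0, 0, 0] w, l1 [0, 0, 0, 1, 0, 0, 1, 0, 0, 0, 0, 0, 0, 0, 0, 0, 0, 0, 0, 0, 2, 0, 2, 0, 0, 0] w)

def inv3 : ℕ → ℕ → ℕ := lk [[0, 0, 0], [0, 3, 20], [0, 6, 22]]

theorem step3_chk : stepChk tabA U3 V3 (sI 3) (sI 2) idx3 inv3 = true := by decide +kernel

def repLI_25 : Rep tabA := ⟨6, lk [[], [0, 0, 2, 0, 0, 0, 0], [], [], [0, 0, 1, 0, 0, 0, 0], [], [], [0, 0, 0, 2, 0, 0, 0], [0, 0, 0, 3, 0, 0, 6], [], [0, 0, 0, 1, 0, 0, 0], [], [0, 0, 0, 0, 0, 0, 5], [0, 0, 0, 0, 2, 0, 0], [0, 0, 0, 0, 3, 0, 0], [0, 1, 0, 0, 4, 0, 0], [0, 0, 0, 0, 1, 0, 0], [], [], [], [], [], [], [], [], [0, 0, 0, 0, 0, 5, 0]], by decide +kernel⟩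

def repLI_4 : Rep tabA := ⟨4, lk [[], [0, 0, 2, 0, 0], [], [], [], [], [0, 0, 1, 0, 0], [0, 0, 0, 2, 0], [0, 0, 0, 3, 0], [], [], [0, 0, 0, 1, 0], [0, 0, 0, 4, 0], [], [], [], [], [], [], [], [], [], [0, 1, 0, 0, 0], [], [0, 0, 0, 0, 1], [0, 0, 0, 0, 4]], by decide +kernel⟩

def repRI_23 : Rep tabA.op := ⟨6, lk [[], [0, 0, 2, 0, 0, 0, 6], [], [], [0, 0, 0, 0, 2, 0, 0], [], [], [0, 0, 3, 0, 0, 0, 0], [0, 0, 0, 3, 0, 0, 0], [], [0, 0, 0, 0, 3, 0, 0], [], [], [0, 0, 1, 0, 0, 0, 0], [0, 0, 0, 1, 0, 0, 0], [0, 1, 0, 0, 4, 0, 0], [0, 0, 0, 0, 1, 0, 0], [0, 0, 0, 0, 0, 0, 5], [0, 0, 0, 0, 0, 5, 0], [], [], [], [], [], [], []], by decide +kernel⟩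

def repRI_4 : Rep tabA.op := ⟨4, lk [[], [0, 0, 2, 0, 0], [], [], [], [], [], [0, 0, 3, 0, 0], [0, 0, 0, 3, 0], [], [], [], [], [], [], [], [], [0, 0, 4, 0, 0], [0, 0, 0, 0, 4], [0, 0, 1, 0, 0], [0, 0, 0, 1, 0], [0, 0, 0, 0, 1], [0, 1, 0, 0, 0], [], [], []], by decide +kernel⟩

def corU3 : List (Stg tabA) := [⟨repLI_1, l1 [0, 8, 3, 9, 14, 20, 23], l1 [0, 1, 1, 1, 1, 1, 1], l1 [0, 1], [[(1, 1)], [(5, 1)]], [[(1, 1)], [], [], [], [(2, 1)], []]⟩,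
  ⟨repLI_25, l1 [0, 15, 4, 10, 16, 25, 12], l1 [0, 1, 1, 1, 1, 2, 2], l1 [0, 1, 5], [[], [(2, 1)], [(3, 1), (6, 1)], [(1, 1)], [], [(5, 1)]], [[(4, 1)], [(2, 1)], [(3, 1)], [], [(6, 1)], []]⟩,
  ⟨repLI_1, l1 [0, 8, 3, 9, 14, 20, 23], l1 [0, 1, 1, 1, 1, 1, 1], l1 [0, 1], [[], [], [(1, -1)], [(4, -1)], [], [(1, 1)]], [[(6, 1)], [], [], [(4, -1)], [], []]⟩,
  ⟨repLI_4, l1 [0, 22, 6, 11, 24], l1 [0, 1, 1, 1, 1], l1 [0, 1], [[], [(2, 1)], [(3, 1)], [], [(1, 1)], [(4, 1)]], [[(5, 1)], [(2, 1)], [(3, 1)], [(6, 1)]]⟩]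

theorem corU3_chk : coresChk U3 corU3 = true := by decide +kernel

def corV3 : List (Stg tabA.op) := [⟨repRI_0, l1 [0, 1, 2, 3, 4, 5, 6], l1 [0, 1, 1, 1, 1, 1, 1], l1 [0, 1], [[(1, 1)], [(6, 1)]], [[(1, 1)], [], [], [], [], [(2, 1)]]⟩,
  ⟨repRI_23, l1 [0, 15, 13, 14, 16, 18, 17], l1 [0, 1, 1, 1, 1, 2, 2], l1 [0, 1, 5], [[], [(2, 1), (6, 1)], [(3, 1)], [(1, 1)], [(5, 1)], []], [[(4, 1)], [(2, 1)], [(3, 1)], [], [(5, 1)], []]⟩,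
  ⟨repRI_0, l1 [0, 1, 2, 3, 4, 5, 6], l1 [0, 1, 1, 1, 1, 1, 1], l1 [0, 1], [[], [(1, -1)], [], [(4, -1)], [], [(1, 1)]], [[(6, 1)], [], [], [(4, -1)], [], []]⟩,
  ⟨repRI_4, l1 [0, 22, 19, 20, 21], l1 [0, 1, 1, 1, 1], l1 [0, 1], [[], [(2, 1)], [(3, 1)], [], [(4, 1)], [(1, 1)]], [[(6, 1)], [(2, 1)], [(3, 1)], [(5, 1)]]⟩]

theorem corV3_chk : coresChk V3 corV3 = true := by decide +kernel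

def U4 : Rep tabA := ⟨2, lk [[], [0, 1, 0], [], [], [0, 2, 0], [], [], [], [], [], [], [], [], [], [], [0, 0, 2], [], [], [], [], [], [], [], [], [], []], by decide +kernel⟩

def V4 : Rep tabA.op := ⟨3, lk [[], [0, 1, 0, 0], [], [], [], [], [], [0, 2, 0, 0], [0, 0, 2, 0], [], [], [], [], [0, 3, 0, 0], [0, 0, 3, 0], [0, 0, 0, 3], [], [], [], [], [], [], [], [], [], []], by decide +kernel⟩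

def idx4 (w : ℕ) : ℕ × ℕ := (l1 [0, 1, 0, 0, 2, 0, 0, 1, 0, 0, 2, 0, 0, 1, 0, 0, 2, 0, 0, 0, 0, 0, 0, 0, 0, 0] w, l1 [0, 1, 0, 0, 1, 0, 0, 2, 0, 0, 2, 0, 0, 3, 0, 0, 3, 0, 0, 0, 0, 0, 0, 0, 0, 0] w)

def inv4 : ℕ → ℕ → ℕ := lk [[0, 0, 0, 0], [0, 1, 7, 13], [0, 4, 10, 16]]

theorem step4_chk : stepChk tabA U4 V4 (sI 4) (sI 3) idx4 inv4 = true := by decide +kernel

def corU4 : List (Stg tabA) := [⟨repLI_2, l1 [0, 15, 4, 10, 16], l1 [0, 1, 1, 1, 1], l1 [0, 1], [[(2, 1)], [(1, 1)]], [[(2, 1)], [(1, 1)], [], []]⟩,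
  ⟨repLI_1, l1 [0, 8, 3, 9, 14, 20, 23], l1 [0, 1, 1, 1, 1, 1, 1], l1 [0, 1], [[], [], [(1, 1)], [(4, 1)]], [[(3, 1)], [], [], [(4, 1)], [], []]⟩,
  ⟨repLI_4, l1 [0, 22, 6, 11, 24], l1 [0, 1, 1, 1, 1], l1 [0, 1], [[], [(2, 1)], [(3, 1)], [], [(1, 1)], [(4, 1)]], [[(5, 1)], [(2, 1)], [(3, 1)], [(6, 1)]]⟩]

theorem corU4_chk : coresChk U4 corU4 = true := by decide +kernel

def corV4 : List (Stg tabA.op) := [⟨repRI_2, l1 [0, 15, 13, 14, 16], l1 [0, 1, 1, 1, 1], l1 [0, 1], [[(2, 1)], [(3, 1)], [(1, 1)]], [[(3, 1)], [(1, 1)], [(2, 1)], []]⟩,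
  ⟨repRI_2, l1 [0, 15, 13, 14, 16], l1 [0, 1, 1, 1, 1], l1 [0, 1], [[], [], [], [(1, 1)]], [[(4, 1)], [], [], []]⟩,
  ⟨repRI_1, l1 [0, 8, 7, 9, 10, 11, 12], l1 [0, 1, 1, 1, 1, 1, 1], l1 [0, 1], [[], [(2, 1)], [(1, 1)], [(4, 1)]], [[(3, 1)], [(2, 1)], [], [(4, 1)], [], []]⟩,
  ⟨repRI_5, l1 [0, 25, 23, 24], l1 [0, 1, 1, 1], l1 [0, 1], [[], [], [(2, 1)], [], [(3, 1)], [(1, 1)]], [[(6, 1)], [(3, 1)], [(5, 1)]]⟩]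

theorem corV4_chk : coresChk V4 corV4 = true := by decide +kernel

def U5 : Rep tabA := ⟨1, lk [[], [], [], [], [], [], [], [], [0, 1], [], [], [], [], [], [], [], [], [], [], [], [], [], [], [], [], []], by decide +kernel⟩

def V5 : Rep tabA.op := ⟨2, lk [[], [], [], [], [], [], [], [], [0, 1, 0], [], [], [], [], [], [0, 2, 0], [0, 0, 2], [], [], [], [], [], [], [], [], [], []], by decide +kernel⟩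

def idx5 (w : ℕ) : ℕ × ℕ := (l1 [0, 0, 0, 0, 0, 0, 0, 0, 1, 0, 0, 0, 0, 0, 1, 0, 0, 0, 0, 0, 0, 0, 0, 0, 0, 0] w, l1 [0, 0, 0, 0, 0, 0, 0, 0, 1, 0, 0, 0, 0, 0, 2, 0, 0, 0, 0, 0, 0, 0, 0, 0, 0, 0] w)

def inv5 : ℕ → ℕ → ℕ := lk [[0, 0, 0], [0, 8, 14]]

theorem step5_chk : stepChk tabA U5 V5 (sI 5) (sI 4) idx5 inv5 = true := by decide +kernel

def repLI_24 : Rep tabA := ⟨8, lk [[], [0, 0, 2, 0, 0, 0, 6, 0, 0], [], [], [0, 0, 1, 0, 0, 0, 0, 0, 0], [], [0, 0, 0, 0, 0, 0, 5, 0, 0], [0, 0, 0, 2, 0, 0, 0, 6, 0], [0, 0, 0, 3, 0, 0, 0, 7, 0], [], [0, 0, 0, 1, 0, 0, 0, 0, 0], [0, 0, 0, 0, 0, 0, 0, 5, 0], [0, 0, 0, 0, 0, 0, 0, 8, 0], [0, 0, 0, 0, 2, 0, 0, 0, 0], [0, 0, 0, 0, 3, 0, 0, 0, 0], [0, 1, 0, 0, 4, 0, 0, 0, 0], [0, 0, 0, 0, 1, 0, 0, 0, 0], [], [], [], [], [],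 [0, 0, 0, 0, 0, 5, 0, 0, 0], [], [0, 0, 0, 0, 0, 0, 0, 0, 5], [0, 0, 0, 0, 0, 0, 0, 0, 8]], by decide +kernel⟩

def corU5 : List (Stg tabA) := [⟨repLI_1, l1 [0, 8, 3, 9, 14, 20, 23], l1 [0, 1, 1, 1, 1, 1, 1], l1 [0, 1], [[(1, 1)]], [[(1, 1)], [], [], [], [], []]⟩,
  ⟨repLI_24, l1 [0, 15, 4, 10, 16, 22, 6, 11, 24], l1 [0, 1, 1, 1, 1, 2, 2, 2, 2], l1 [0, 1, 5], [[], [(2, 1), (6, 1)], [(3, 1), (7, 1)], [(1, 1)], [(5, 1)], [(8, 1)]], [[(4, 1)], [(2, 1)], [(3, 1)], [], [(5, 1)], [], [], [(6, 1)]]⟩,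
  ⟨repLI_0, l1 [0, 1, 2, 7, 13, 17, 19], l1 [0, 1, 1, 1, 1, 1, 1], l1 [0, 1], [[], [(1, -1)], [(3, -1)], [(4, -1)], [], [(1, 1)], [(3, 1)], []], [[(6, 1)], [], [(7, 1)], [(4, -1)], [], []]⟩,
  ⟨repLI_3, l1 [0, 18, 5, 21], l1 [0, 1, 1, 1], l1 [0, 1], [[], [(2, 1)], [], [], [(1, 1)], [(3, 1)]], [[(5, 1)], [(2, 1)], [(6, 1)]]⟩]

theorem corU5_chk : coresChk U5 corU5 = true := by decide +kernel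

def corV5 : List (Stg tabA.op) := [⟨repRI_2, l1 [0, 15, 13, 14, 16], l1 [0, 1, 1, 1, 1], l1 [0, 1], [[(3, 1)], [(1, 1)]], [[(2, 1)], [], [(1, 1)], []]⟩,
  ⟨repRI_0, l1 [0, 1, 2, 3, 4, 5, 6], l1 [0, 1, 1, 1, 1, 1, 1], l1 [0, 1], [[], [(1, 1)], [], [(4, 1)]], [[(2, 1)], [], [], [(4, 1)], [], []]⟩,
  ⟨repRI_4, l1 [0, 22, 19, 20, 21], l1 [0, 1, 1, 1, 1], l1 [0, 1], [[], [(2, 1)], [(3, 1)], [], [(4, 1)], [(1, 1)]], [[(6, 1)], [(2, 1)], [(3, 1)], [(5, 1)]]⟩]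

theorem corV5_chk : coresChk V5 corV5 = true := by decide +kernel

def U6 : Rep tabA := ⟨1, lk [[], [], [], [], [], [], [], [], [], [], [], [], [], [], [], [0, 1], [], [], [], [], [], [], [], [], [], []], by decide +kernel⟩

def V6 : Rep tabA.op := ⟨1, lk [[], [], [], [], [], [], [], [], [], [], [], [], [], [], [], [0, 1], [], [], [], [], [], [], [], [], [], []], by decide +kernel⟩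

def idx6 (w : ℕ) : ℕ × ℕ := (l1 [0, 0, 0, 0, 0, 0, 0, 0, 0, 0, 0, 0, 0, 0, 0, 1, 0, 0, 0, 0, 0, 0, 0, 0, 0, 0] w, l1 [0, 0, 0, 0, 0, 0, 0, 0, 0, 0, 0, 0, 0, 0, 0, 1, 0, 0, 0, 0, 0, 0, 0, 0, 0, 0] w)

def inv6 : ℕ → ℕ → ℕ := lk [[0, 0], [0, 15]]

theorem step6_chk : stepChk tabA U6 V6 (sI 6) (sI 5) idx6 inv6 = true := by decide +kernel

def corU6 : List (Stg tabA) := [⟨repLI_2, l1 [0, 15, 4, 10, 16], l1 [0, 1, 1, 1, 1], l1 [0, 1], [[(1, 1)]], [[(1, 1)], [], [], []]⟩,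
  ⟨repLI_0, l1 [0, 1, 2, 7, 13, 17, 19], l1 [0, 1, 1, 1, 1, 1, 1], l1 [0, 1], [[], [(1, 1)], [(3, 1)], [(4, 1)]], [[(2, 1)], [], [(3, 1)], [(4, 1)], [], []]⟩,
  ⟨repLI_3, l1 [0, 18, 5, 21], l1 [0, 1, 1, 1], l1 [0, 1], [[], [(2, 1)], [], [], [(1, 1)], [(3, 1)]], [[(5, 1)], [(2, 1)], [(6, 1)]]⟩]

theorem corU6_chk : coresChk U6 corU6 = true := by decide +kernel

def corV6 : List (Stg tabA.op) := [⟨repRI_2, l1 [0, 15, 13, 14, 16], l1 [0, 1, 1, 1, 1], l1 [0, 1], [[(1, 1)]], [[(1, 1)], [], [], []]⟩,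
  ⟨repRI_1, l1 [0, 8, 7, 9, 10, 11, 12], l1 [0, 1, 1, 1, 1, 1, 1], l1 [0, 1], [[], [(2, 1)], [(1, 1)], [(4, 1)]], [[(3, 1)], [(2, 1)], [], [(4, 1)], [], []]⟩,
  ⟨repRI_5, l1 [0, 25, 23, 24], l1 [0, 1, 1, 1], l1 [0, 1], [[], [], [(2, 1)], [], [(3, 1)], [(1, 1)]], [[(6, 1)], [(3, 1)], [(5, 1)]]⟩]

theorem corV6_chk : coresChk V6 corV6 = true := by decide +kernel

end Pool.Agent.N9.GS.Data
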