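import Pool.Agent.N9.GS.Engine

/-!
The algebra with a given multiplication table.
-/

set_option autoImplicit false

open CategoryTheory TensorProduct Module

namespace Pool.Agent.N9.GS

universe u

/-- check the axioms of a ring -/
def tabChk (T : Tab) : Bool :=
  ((List.range T.n).all fun x => allx (T.n - 1) (T.n - 1) fun y z =>
    T.mul (T.mul (x + 1) (y + 1)) (z + 1) == T.mul (x + 1) (T.mul (y + 1) (z + 1))) &&
  ((List.range T.n).all fun i => (T.ids.map (T.mul · (i + 1))).filter (· != 0) == [i + 1]) &&
  ((List.range T.n).all fun i => (T.ids.map (T.mul (i + 1) ·)).filter (· != 0) == [i + 1]) &&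
  (allx T.n T.n fun x y => decide (T.mul x y ≤ T.n) && T.mul 0 y == 0 && T.mul x 0 == 0) &&
  T.ids.all (fun e => decide (0 < e) && decide (e ≤ T.n))

/-- the algebra with multiplication table `T` -/
def TA (K : Type u) (T : Tab) : Type u := Fin T.n → K

section

variable (K : Type u) [Field K] (T : Tab)

instance : AddCommGroup (TA K T) := inferInstanceAs (AddCommGroup (Fin T.n → K))
instance : Module K (TA K T) := inferInstanceAs (Module K (Fin T.n → K))
instance : Module.Finite K (TA K T) := inferInstanceAs (Module.Finite K (Fin T.n → K))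

/-- the basis -/
noncomputable def taB : Basis (Fin T.n) K (TA K T) := Pi.basisFun K (Fin T.n)

/-- the multiplication -/
noncomputable def taMul : TA K T →ₗ[K] TA K T →ₗ[K] TA K T :=
  (taB K T).constr K fun x => (taB K T).constr K fun y =>
    pt (taB K T) (T.mul ((x : ℕ) + 1) ((y : ℕ) + 1))

theorem taMul_basis (x y : Fin T.n) : taMul K T (taB K T x) (taB K T y) =
    pt (taB K T) (T.mul ((x : ℕ) + 1) ((y : ℕ) + 1)) := by
  rw [taMul, Basis.constr_basis, Basis.constr_basis]

variable {T} in
theorem tabChk_spec (h : tabChk T = true) :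
    (∀ x y z, x < T.n → y < T.n → z < T.n →
      T.mul (T.mul (x + 1) (y + 1)) (z + 1) = T.mul (x + 1) (T.mul (y + 1) (z + 1))) ∧
    (∀ i, i < T.n → (T.ids.map (T.mul · (i + 1))).filter (· != 0) = [i + 1]) ∧
    (∀ i, i < T.n → (T.ids.map (T.mul (i + 1) ·)).filter (· != 0) = [i + 1]) ∧
    (∀ x y, x ≤ T.n → y ≤ T.n → T.mul x y ≤ T.n ∧ T.mul 0 y = 0 ∧ T.mul x 0 = 0) ∧
    (∀ e ∈ T.ids, 0 < e ∧ e ≤ T.n) := by
  simp only [tabChk, Bool.and_eq_true] at h
  obtain ⟨⟨⟨⟨h1, h2⟩, h3⟩, h4⟩, h5⟩ := h
  refine ⟨fun x y z hx hy hz => ?_, fun i hi => ?_, fun i hi => ?_, fun x y hx hy => ?_,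
    fun e he => ?_⟩
  · exact beq_iff_eq.1 (allx_spec (List.all_eq_true.1 h1 x (List.mem_range.2 hx))
      (show y ≤ T.n - 1 by omega) (show z ≤ T.n - 1 by omega))
  · exact beq_iff_eq.1 (List.all_eq_true.1 h2 i (List.mem_range.2 hi))
  · exact beq_iff_eq.1 (List.all_eq_true.1 h3 i (List.mem_range.2 hi))
  · have := allx_spec h4 hx hy
    simp only [Bool.and_eq_true, decide_eq_true_eq, beq_iff_eq] at this
    exact ⟨this.1.1, this.1.2, this.2⟩
  · have := List.all_eq_true.1 h5 e he
    simpa using this

variable {T}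

theorem taMul_pt (h : tabChk T = true) {x y : ℕ} (hx : x ≤ T.n) (hy : y ≤ T.n) :
    taMul K T (pt (taB K T) x) (pt (taB K T) y) = pt (taB K T) (T.mul x y) := by
  obtain ⟨_, _, _, h4, _⟩ := tabChk_spec h
  rcases x with _ | x
  · rw [pt_zero, map_zero, (h4 0 y (Nat.zero_le _) hy).2.1, pt_zero]; rfl
  · rcases y with _ | y
    · rw [pt_zero, map_zero, (h4 (x + 1) 0 hx (Nat.zero_le _)).2.2, pt_zero]
    · have := taMul_basis K T ⟨x, hx⟩ ⟨y, hy⟩
      rwa [← pt_succ, ← pt_succ] at this

theorem taMul_assoc (h : tabChk T = true) (f g k : TA K T) :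
    taMul K T (taMul K T f g) k = taMul K T f (taMul K T g k) := by
  obtain ⟨h1, _, _, h4, _⟩ := tabChk_spec h
  have k1 : ∀ x y z : Fin T.n, taMul K T (taMul K T (taB K T x) (taB K T y)) (taB K T z) =
      taMul K T (taB K T x) (taMul K T (taB K T y) (taB K T z)) := by
    intro x y z
    rw [taMul_basis, taMul_basis, ← pt_succ (taB K T) z, ← pt_succ (taB K T) x,
      taMul_pt K h (h4 _ _ x.2 y.2).1 z.2, taMul_pt K h x.2 (h4 _ _ y.2 z.2).1,
      h1 x y z x.2 y.2 z.2]
  have k2 : ∀ (x y : Fin T.n) (k : TA K T), taMul K T (taMul K T (taB K T x) (taB K T y)) k =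
      taMul K T (taB K T x) (taMul K T (taB K T y) k) := by
    intro x y k
    have e : taMul K T (taMul K T (taB K T x) (taB K T y)) =
        taMul K T (taB K T x) ∘ₗ taMul K T (taB K T y) := (taB K T).ext fun z => k1 x y z
    exact LinearMap.congr_fun e k
  have k3 : ∀ (x : Fin T.n) (g k : TA K T), taMul K T (taMul K T (taB K T x) g) k =
      taMul K T (taB K T x) (taMul K T g k) := by
    intro x g k
    have e : (taMul K T).flip k ∘ₗ taMul K T (taB K T x) =
        taMul K T (taB K T x) ∘ₗ (taMul K T).flip k := (taB K T).ext fun y => k2 x y k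
    exact LinearMap.congr_fun e g
  have e : (taMul K T).flip k ∘ₗ (taMul K T).flip g = (taMul K T).flip (taMul K T g k) :=
    (taB K T).ext fun x => k3 x g k
  exact LinearMap.congr_fun e f

/-- the unit -/
noncomputable def taOne : TA K T := (T.ids.map (pt (taB K T))).sum

theorem taOne_mul (h : tabChk T = true) (f : TA K T) : taMul K T (taOne K) f = f := by
  obtain ⟨_, h2, _, _, h5⟩ := tabChk_spec h
  have e : taMul K T (taOne K) = LinearMap.id := by
    refine (taB K T).ext fun i => ?_
    have h6 : ∀ l : List ℕ, (∀ e ∈ l, e ≤ T.n) → taMul K T ((l.map (pt (taB K T))).sum) (taB K T i)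
        = ((l.map (T.mul · ((i : ℕ) + 1))).map (pt (taB K T))).sum := by
      intro l hl
      induction l with
      | nil => simp
      | cons a l ih =>
        rw [List.map_cons, List.sum_cons, map_add, LinearMap.add_apply, ih (fun e he => hl e
          (List.mem_cons_of_mem _ he)), List.map_cons, List.map_cons, List.sum_cons,
          ← pt_succ (taB K T) i, taMul_pt K h (hl a List.mem_cons_self) i.2]
    rw [taOne, h6 T.ids (fun e he => (h5 e he).2), sum_filter_pt, h2 i i.2]
    simp [pt_succ]
  exact LinearMap.congr_fun e f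

theorem taMul_one (h : tabChk T = true) (f : TA K T) : taMul K T f (taOne K) = f := by
  obtain ⟨_, _, h3, _, h5⟩ := tabChk_spec h
  have e : (taMul K T).flip (taOne K) = LinearMap.id := by
    refine (taB K T).ext fun i => ?_
    have h6 : ∀ l : List ℕ, (∀ e ∈ l, e ≤ T.n) → taMul K T (taB K T i) ((l.map (pt (taB K T))).sum)
        = ((l.map (T.mul ((i : ℕ) + 1) ·)).map (pt (taB K T))).sum := by
      intro l hl
      induction l with
      | nil => simp
      | cons a l ih =>
        rw [List.map_cons, List.sum_cons, map_add, ih (fun e he => hl e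
          (List.mem_cons_of_mem _ he)), List.map_cons, List.map_cons, List.sum_cons,
          ← pt_succ (taB K T) i, taMul_pt K h i.2 (hl a List.mem_cons_self)]
    rw [LinearMap.flip_apply, taOne, h6 T.ids (fun e he => (h5 e he).2), sum_filter_pt, h3 i i.2]
    simp [pt_succ]
  exact LinearMap.congr_fun e f

/-- the ring structure -/
@[instance_reducible]
noncomputable def taRing (h : tabChk T = true) : Ring (TA K T) :=
  { (inferInstance : AddCommGroup (TA K T)) with
    mul := fun f g => taMul K T f g
    one := taOne K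
    mul_assoc := taMul_assoc K h
    one_mul := taOne_mul K h
    mul_one := taMul_one K h
    left_distrib := fun f g k => map_add (taMul K T f) g k
    right_distrib := fun f g k => LinearMap.congr_fun (map_add (taMul K T) f g) k
    zero_mul := fun f => LinearMap.congr_fun (map_zero (taMul K T)) f
    mul_zero := fun f => map_zero (taMul K T f) }

/-- the algebra structure -/
@[instance_reducible]
noncomputable def taAlg (h : tabChk T = true) :
    letI := taRing K h
    Algebra K (TA K T) :=
  letI := taRing K h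
  Algebra.ofModule (fun k f g => LinearMap.congr_fun (map_smul (taMul K T) k f) g)
    (fun k f g => map_smul (taMul K T f) k g)

end

end Pool.Agent.N9.GS
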