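import Pool.Agent.N9.GS.Data
import Pool.Agent.N9.GS.TA

/-!
The algebra `B`, the module `M` and the endomorphism algebra `A = End_B(M)`.
-/

set_option autoImplicit false

open CategoryTheory TensorProduct Module

namespace Pool.Agent.N9.GS.Data

universe u

theorem tabB_chk : tabChk tabB = true := by decide +kernel

/-- the symmetric Nakayama algebra -/
abbrev Bk (K : Type u) : Type u := TA K tabB

section

variable (K : Type u) [Field K]

noncomputable instance bRing : Ring (Bk K) := taRing K tabB_chk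
noncomputable instance bAlg : Algebra K (Bk K) := taAlg K tabB_chk

noncomputable instance bTab : TabAlg K (Bk K) tabB :=
  { b := taB K tabB
    mul := taMul_basis K tabB
    one := rfl }

/-- the generator `M` -/
abbrev Mk : Type u := MMod K repM

/-- the endomorphism algebra -/
abbrev Ak : Type u := Module.End (Bk K) (Mk K)

/-- the matrix of a basis element of `A` -/
def uF (x : ℕ) : Mt := (List.range 16).map fun i => [(repMA.act x (i + 1), 1)]

theorem uF_chk : ((List.range 26).all fun x => homChk repM repM (uF x)) = true := by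
  decide +kernel

theorem uF_hom (x : ℕ) (hx : x ≤ 25) : homChk repM repM (uF x) = true :=
  List.all_eq_true.1 uF_chk x (List.mem_range.2 (by omega))

/-- the basis elements of `A` -/
noncomputable def ub (x : ℕ) (hx : x ≤ 25) : Ak K := hom K (Bk K) (uF x) (uF_hom x hx)

theorem ent_uF (x i : ℕ) (hi : i < 16) : ent 16 (uF x) (i + 1) = [(repMA.act x (i + 1), 1)] := by
  rw [ent, if_pos hi, uF, List.getD_eq_getElem?_getD, List.getElem?_map,
    List.getElem?_range hi]
  rfl

theorem ub_pt (x : ℕ) (hx : x ≤ 25) {i : ℕ} (hi : i ≤ 16) :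
    ub K x hx (pt (mb K repM) i) = pt (mb K repM) (repMA.act x i) := by
  rcases i with _ | i
  · rw [pt_zero, map_zero]
    have : repMA.act x 0 = 0 := repMA.act_zero hx
    rw [this, pt_zero]
  · rw [ub, hom_apply, mat_pt]
    have : ent repM.m (uF x) (i + 1) = [(repMA.act x (i + 1), 1)] := ent_uF x i hi
    rw [this, ev_single]

theorem eChk1 : ((allx 24 24 fun x y =>
    (repMA.act (y + 1) (sA (x + 1)) == tA (x + 1)) == (x == y)) &&
    (List.range 25).all fun x => decide (0 < sA (x + 1)) && decide (sA (x + 1) ≤ 16) &&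
      decide (0 < tA (x + 1)) && decide (tA (x + 1) ≤ 16)) = true := by decide +kernel

theorem eChk2 : (gensM.all fun g => (List.range 16).all fun q' =>
    let q := q' + 1
    ((List.range 25).any fun x => sA (x + 1) == g && tA (x + 1) == q) ||
    ((List.range 12).any fun β => repM.act (β + 1) g == 0 && repM.act (β + 1) q != 0 &&
      (List.range 16).all fun r => (repM.act (β + 1) (r + 1) == repM.act (β + 1) q) == (r == q')) ||
    ((List.range 12).any fun β => repM.act (β + 1) g == g &&
      (List.range 16).all fun r => repM.act (β + 1) (r + 1) != q)) = true := by decide +kernel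

theorem eChk3 : (((List.range 16).all fun i => (List.range 12).any fun β =>
    gensM.any fun g => repM.act (β + 1) g == i + 1) &&
    gensM.all fun g => decide (g ≤ 16)) = true := by decide +kernel

theorem e1 (x y : ℕ) (hx : x < 25) (hy : y < 25) :
    repMA.act (y + 1) (sA (x + 1)) = tA (x + 1) ↔ x = y := by
  have h := eChk1
  rw [Bool.and_eq_true] at h
  have h1 := allx_spec h.1 (show x ≤ 24 by omega) (show y ≤ 24 by omega)
  rw [beq_iff_eq] at h1
  by_cases h2 : x = y
  · rw [beq_iff_eq.2 h2, beq_iff_eq] at h1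
    exact ⟨fun _ => h2, fun _ => h1⟩
  · rw [beq_eq_false_iff_ne.2 h2] at h1
    exact ⟨fun h3 => absurd h3 (beq_eq_false_iff_ne.1 h1), fun h3 => absurd h3 h2⟩

theorem e1' (x : ℕ) (hx : x < 25) : 0 < sA (x + 1) ∧ sA (x + 1) ≤ 16 ∧ 0 < tA (x + 1) ∧
    tA (x + 1) ≤ 16 := by
  have h := eChk1
  rw [Bool.and_eq_true] at h
  have h1 := List.all_eq_true.1 h.2 x (List.mem_range.2 hx)
  simp only [Bool.and_eq_true, decide_eq_true_eq] at h1
  exact ⟨h1.1.1.1, h1.1.1.2, h1.1.2, h1.2⟩

/-- the coordinates of an endomorphism -/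
noncomputable def cA (x : ℕ) : Ak K →ₗ[K] K where
  toFun φ := cd (mb K repM) (tA (x + 1)) (φ (pt (mb K repM) (sA (x + 1))))
  map_add' φ ψ := by rw [LinearMap.add_apply, map_add]
  map_smul' k φ := by
    rw [LinearMap.smul_apply, map_smul]; rfl

theorem cA_apply (x : ℕ) (φ : Ak K) :
    cA K x φ = cd (mb K repM) (tA (x + 1)) (φ (pt (mb K repM) (sA (x + 1)))) := rfl

theorem cA_ub (x y : ℕ) (hx : x < 25) (hy : y < 25) :
    cA K x (ub K (y + 1) hy) = if x = y then 1 else 0 := by
  obtain ⟨h1, h2, h3, h4⟩ := e1' x hx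
  rw [cA_apply, ub_pt K _ _ h2, cd_pt _ h3 (show tA (x + 1) ≤ repM.m from h4)]
  by_cases h : x = y
  · rw [if_pos h, if_pos ((e1 x y hx hy).2 h)]
  · rw [if_neg h, if_neg (fun h5 => h ((e1 x y hx hy).1 h5))]

theorem cd_smul_inj {β q : ℕ} (hβ : β < 12) (hq : q < 16)
    (h0 : repM.act (β + 1) (q + 1) ≠ 0)
    (h : ∀ r, r < 16 → (repM.act (β + 1) (r + 1) = repM.act (β + 1) (q + 1) ↔ r = q))
    (w : Mk K) : cd (mb K repM) (repM.act (β + 1) (q + 1))
      (pt (TabAlg.b (K := K) (R := Bk K) (T := tabB)) (β + 1) • w)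
      = cd (mb K repM) (q + 1) w := by
  have hβ' : β + 1 ≤ tabB.n := hβ
  have h1 : repM.act (β + 1) (q + 1) ≤ repM.m := repM.act_le hβ' (show q + 1 ≤ repM.m from hq)
  have e : (cd (mb K repM) (repM.act (β + 1) (q + 1))) ∘ₗ
      (actR K repM (Bk K) (pt (TabAlg.b (K := K) (R := Bk K) (T := tabB)) (β + 1)))
      = cd (mb K repM) (q + 1) := by
    refine (mb K repM).ext fun r => ?_
    have hr : (r : ℕ) + 1 ≤ repM.m := r.2
    rw [LinearMap.comp_apply, ← pt_succ (mb K repM), actR_pt K repM (Bk K) hβ' hr,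
      cd_pt _ (Nat.pos_of_ne_zero h0) h1, cd_pt _ (Nat.succ_pos _) (show q + 1 ≤ repM.m from hq)]
    by_cases h2 : (r : ℕ) = q
    · rw [if_pos ((h r r.2).2 h2), if_pos (by rw [h2])]
    · rw [if_neg (fun h3 => h2 ((h r r.2).1 h3)), if_neg (fun h3 => h2 (by omega))]
  exact LinearMap.congr_fun e w

theorem ak_zero (ψ : Ak K) (h : ∀ x, x < 25 → cA K x ψ = 0) : ψ = 0 := by
  have hg : ∀ g ∈ gensM, ψ (pt (mb K repM) g) = 0 := by
    intro g hg
    have hg16 : g ≤ 16 := by
      have := eChk3
      rw [Bool.and_eq_true] at this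
      simpa using List.all_eq_true.1 this.2 g hg
    apply (mb K repM).ext_elem
    intro q
    rw [map_zero, Finsupp.zero_apply]
    have hq : (q : ℕ) + 1 ≤ 16 := q.2
    have e0 : (mb K repM).repr (ψ (pt (mb K repM) g)) q
        = cd (mb K repM) ((q : ℕ) + 1) (ψ (pt (mb K repM) g)) := by
      rw [cd, dif_pos ⟨Nat.succ_pos _, hq⟩]
      rfl
    rw [e0]
    have h1 := List.all_eq_true.1 (List.all_eq_true.1 eChk2 g hg) q (List.mem_range.2 q.2)
    simp only [Bool.or_eq_true] at h1
    rcases h1 with (h1 | h1) | h1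
    · obtain ⟨x, hx, h2⟩ := List.any_eq_true.1 h1
      rw [Bool.and_eq_true, beq_iff_eq, beq_iff_eq] at h2
      have := h x (List.mem_range.1 hx)
      rw [cA_apply, h2.1, h2.2] at this
      exact this
    · obtain ⟨β, hβ, h2⟩ := List.any_eq_true.1 h1
      simp only [Bool.and_eq_true, beq_iff_eq, bne_iff_ne] at h2
      obtain ⟨⟨h3, h4⟩, h5⟩ := h2
      have hβ' := List.mem_range.1 hβ
      have h6 : ∀ r, r < 16 → (repM.act (β + 1) (r + 1) = repM.act (β + 1) ((q : ℕ) + 1) ↔
          r = q) := by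
        intro r hr
        have h7 := List.all_eq_true.1 h5 r (List.mem_range.2 hr)
        rw [beq_iff_eq] at h7
        by_cases h8 : r = q
        · rw [beq_iff_eq.2 h8, beq_iff_eq] at h7
          exact ⟨fun _ => h8, fun _ => h7⟩
        · rw [beq_eq_false_iff_ne.2 h8] at h7
          exact ⟨fun h9 => absurd h9 (beq_eq_false_iff_ne.1 h7), fun h9 => absurd h9 h8⟩
      have hβ'' : β + 1 ≤ tabB.n := hβ'
      rw [← cd_smul_inj K hβ' q.2 h4 h6, ← map_smul,
        smul_pt hβ'' (show g ≤ repM.m from hg16), h3, pt_zero, map_zero, map_zero]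
    · obtain ⟨β, hβ, h2⟩ := List.any_eq_true.1 h1
      simp only [Bool.and_eq_true, beq_iff_eq] at h2
      obtain ⟨h3, h4⟩ := h2
      have hβ' : β + 1 ≤ tabB.n := List.mem_range.1 hβ
      have h5 : pt (mb K repM) g
          = pt (TabAlg.b (K := K) (R := Bk K) (T := tabB)) (β + 1) • pt (mb K repM) g := by
        rw [smul_pt hβ' (show g ≤ repM.m from hg16), h3]
      rw [h5, map_smul]
      refine cd_smul_zero (T := tabB) (X := repM) hβ' (Nat.succ_pos _) hq ?_ _
      rw [List.all_eq_true]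
      intro r hr
      rcases r with _ | r
      · rw [repM.act_zero hβ']
        simp
      · have hr' := List.mem_range.1 hr
        exact List.all_eq_true.1 h4 r (List.mem_range.2 (by
          have : repM.m = 16 := rfl
          omega))
  have h16 : ∀ i : Fin repM.m, ψ (mb K repM i) = 0 := by
    intro i
    have h1 := eChk3
    rw [Bool.and_eq_true] at h1
    obtain ⟨β, hβ, h2⟩ := List.any_eq_true.1
      (List.all_eq_true.1 h1.1 i (List.mem_range.2 i.2))
    obtain ⟨g, hgm, h3⟩ := List.any_eq_true.1 h2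
    have hβ' : β + 1 ≤ tabB.n := List.mem_range.1 hβ
    have hg16' : g ≤ 16 := by
      simpa using List.all_eq_true.1 h1.2 g hgm
    have hg16 : g ≤ repM.m := hg16'
    rw [← pt_succ (mb K repM) i, ← beq_iff_eq.1 h3, ← smul_pt (K := K) (R := Bk K) hβ' hg16,
      map_smul, hg g hgm, smul_zero]
  apply LinearMap.ext
  intro w
  rw [← (mb K repM).sum_repr w, map_sum, LinearMap.zero_apply]
  refine Finset.sum_eq_zero fun i _ => ?_
  have e2 : ((mb K repM).repr w i) • mb K repM i
      = algebraMap K (Bk K) ((mb K repM).repr w i) • mb K repM i := by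
    rw [algebraMap_smul]
  rw [e2, map_smul, h16, smul_zero]

/-- coordinates -/
noncomputable def akEquiv : Ak K ≃ₗ[K] (Fin 25 → K) where
  toFun φ x := cA K x φ
  map_add' φ ψ := by funext x; exact map_add (cA K x) φ ψ
  map_smul' k φ := by funext x; exact map_smul (cA K x) k φ
  invFun f := ∑ x : Fin 25, f x • ub K ((x : ℕ) + 1) x.2
  left_inv φ := by
    rw [← sub_eq_zero]
    apply ak_zero
    intro x hx
    rw [map_sub, map_sum, Finset.sum_eq_single (⟨x, hx⟩ : Fin 25)]
    · rw [map_smul, cA_ub K x x hx hx, if_pos rfl]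
      simp
    · intro y _ hy
      rw [map_smul, cA_ub K x y hx y.2, if_neg (fun h => hy (Fin.ext h.symm)), smul_zero]
    · intro h
      exact absurd (Finset.mem_univ _) h
  right_inv f := by
    funext x
    show cA K x (∑ y : Fin 25, f y • ub K ((y : ℕ) + 1) y.2) = f x
    rw [map_sum, Finset.sum_eq_single x]
    · rw [map_smul, cA_ub K x x x.2 x.2, if_pos rfl]
      simp
    · intro y _ hy
      rw [map_smul, cA_ub K x y x.2 y.2, if_neg (fun h => hy (Fin.ext h.symm)), smul_zero]
    · intro h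
      exact absurd (Finset.mem_univ _) h

/-- the basis of `A` -/
noncomputable def akB : Basis (Fin 25) K (Ak K) := Basis.ofEquivFun (akEquiv K)

theorem akB_apply (x : Fin 25) : akB K x = ub K ((x : ℕ) + 1) x.2 := by
  rw [akB, Basis.coe_ofEquivFun]
  show ∑ y : Fin 25, (Pi.single x 1 : Fin 25 → K) y • ub K ((y : ℕ) + 1) y.2 = _
  rw [Finset.sum_eq_single (x : Fin 25)]
  · rw [Pi.single_eq_same, one_smul]
  · intro y _ hy
    rw [Pi.single_eq_of_ne hy, zero_smul]
  · intro h
    exact absurd (Finset.mem_univ _) h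

theorem akB_pt {x : ℕ} (hx : x ≤ 25) {i : ℕ} (hi : i ≤ 16) :
    pt (akB K) x (pt (mb K repM) i) = pt (mb K repM) (repMA.act x i) := by
  rcases x with _ | x
  · rw [pt_zero, show repMA.act 0 i = 0 from repMA.zero_act hi, pt_zero]
    rfl
  · have h : pt (akB K) (x + 1) = ub K (x + 1) hx :=
      (pt_succ (akB K) ⟨x, hx⟩).trans (akB_apply K ⟨x, hx⟩)
    rw [h, ub_pt K _ _ hi]

theorem end_ext {φ ψ : Ak K} (h : ∀ i, i < 16 → φ (pt (mb K repM) (i + 1))
    = ψ (pt (mb K repM) (i + 1))) : φ = ψ := by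
  rw [← sub_eq_zero]
  apply ak_zero
  intro x hx
  obtain ⟨h1, h2, _, _⟩ := e1' x hx
  rw [cA_apply, LinearMap.sub_apply]
  have := h (sA (x + 1) - 1) (by omega)
  rw [show sA (x + 1) - 1 + 1 = sA (x + 1) by omega] at this
  rw [this, sub_self, map_zero]

theorem ak_mul (x y : Fin 25) : akB K x * akB K y
    = pt (akB K) (tabA.mul ((x : ℕ) + 1) ((y : ℕ) + 1)) := by
  apply end_ext
  intro i hi
  have hx : (x : ℕ) + 1 ≤ 25 := x.2
  have hy : (y : ℕ) + 1 ≤ 25 := y.2
  have hx' : (x : ℕ) + 1 ≤ tabA.n := x.2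
  have hy' : (y : ℕ) + 1 ≤ tabA.n := y.2
  have hi' : i + 1 ≤ repMA.m := hi
  have h1 : repMA.act ((y : ℕ) + 1) (i + 1) ≤ 16 := repMA.act_le hy' hi'
  have h2 : tabA.mul ((x : ℕ) + 1) ((y : ℕ) + 1) ≤ 25 := repMA.mul_le hx' hy'
  rw [← pt_succ (akB K) x, ← pt_succ (akB K) y, Module.End.mul_apply, akB_pt K hy hi,
    akB_pt K hx h1, akB_pt K h2 hi, repMA.act_mul hx' hy' hi']

theorem ak_one : (1 : Ak K) = (tabA.ids.map (pt (akB K))).sum := by
  apply end_ext
  intro i hi
  have h1 : ∀ l : List ℕ, (∀ e ∈ l, e ≤ 25) →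
      (l.map (pt (akB K))).sum (pt (mb K repM) (i + 1))
        = ((l.map (repMA.act · (i + 1))).map (pt (mb K repM))).sum := by
    intro l hl
    induction l with
    | nil => simp
    | cons a l ih =>
      rw [List.map_cons, List.sum_cons, LinearMap.add_apply, ih (fun e he => hl e
        (List.mem_cons_of_mem _ he)), List.map_cons, List.map_cons, List.sum_cons,
        akB_pt K (hl a List.mem_cons_self) hi]
  rw [h1 tabA.ids (fun e he => repMA.ids_le he), sum_filter_pt,
    repMA.act_one (show i < repMA.m from hi)]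
  simp

noncomputable instance aTab : TabAlg K (Ak K) tabA :=
  { b := (akB K : Basis (Fin 25) K (Ak K))
    mul := fun x y => ak_mul K x y
    one := ak_one K }

instance : Module.Finite K (Ak K) := Module.Finite.of_basis (akB K)

end

end Pool.Agent.N9.GS.Data
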