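import Pool.Agent.N9.GS.Tensor

/-!
Algebras with a multiplicative basis given by a table of natural numbers (code `0` is the zero
element, code `i + 1` the basis element with index `i`), modules with a multiplicative basis, and
linear maps given by integer matrices; everything is checked by boolean functions.
-/

set_option autoImplicit false

open CategoryTheory TensorProduct Module

namespace Pool.Agent.N9.GS

universe u

section Points

variable {K M N : Type u} [Field K] [AddCommGroup M] [Module K M] [AddCommGroup N] [Module K N]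

/-- the vector with code `i` -/
noncomputable def pt {n : ℕ} (b : Basis (Fin n) K M) (i : ℕ) : M :=
  if h : 0 < i ∧ i ≤ n then b ⟨i - 1, by omega⟩ else 0

theorem pt_succ {n : ℕ} (b : Basis (Fin n) K M) (j : Fin n) : pt b (j + 1) = b j := by
  have h : 0 < (j : ℕ) + 1 ∧ (j : ℕ) + 1 ≤ n := ⟨Nat.succ_pos _, j.2⟩
  rw [pt, dif_pos h]
  rfl

theorem pt_zero {n : ℕ} (b : Basis (Fin n) K M) : pt b 0 = 0 := by
  rw [pt, dif_neg (fun h => absurd h.1 (lt_irrefl 0))]

theorem pt_gt {n : ℕ} (b : Basis (Fin n) K M) {i : ℕ} (hi : n < i) : pt b i = 0 := by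
  rw [pt, dif_neg (fun h => absurd h.2 (by omega))]

theorem pt_repr {n : ℕ} (b : Basis (Fin n) K M) (i : ℕ) (j : Fin n) :
    b.repr (pt b i) j = if i = (j : ℕ) + 1 then 1 else 0 := by
  by_cases h : 0 < i ∧ i ≤ n
  · rw [pt, dif_pos h, Basis.repr_self, Finsupp.single_apply]
    by_cases h2 : i = (j : ℕ) + 1
    · rw [if_pos h2, if_pos (Fin.ext (by simp only; omega))]
    · rw [if_neg h2, if_neg (fun h3 => h2 (by rw [← h3]; simp only; omega))]
  · rw [pt, dif_neg h, map_zero, Finsupp.zero_apply, if_neg]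
    intro h2
    exact h ⟨by omega, by have := j.2; omega⟩

/-- the linear combination given by a list of (code, coefficient) -/
noncomputable def ev {n : ℕ} (b : Basis (Fin n) K M) (l : List (ℕ × ℤ)) : M :=
  (l.map fun p => ((p.2 : ℤ) : K) • pt b p.1).sum

theorem ev_nil {n : ℕ} (b : Basis (Fin n) K M) : ev b [] = 0 := rfl

theorem ev_cons {n : ℕ} (b : Basis (Fin n) K M) (p : ℕ × ℤ) (l : List (ℕ × ℤ)) :
    ev b (p :: l) = ((p.2 : ℤ) : K) • pt b p.1 + ev b l := by
  simp [ev]

theorem ev_append {n : ℕ} (b : Basis (Fin n) K M) (l l' : List (ℕ × ℤ)) :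
    ev b (l ++ l') = ev b l + ev b l' := by
  simp [ev]

theorem ev_single {n : ℕ} (b : Basis (Fin n) K M) (i : ℕ) : ev b [(i, 1)] = pt b i := by
  simp [ev]

/-- the coefficient of `j` -/
def coef (j : ℕ) : List (ℕ × ℤ) → ℤ
  | [] => 0
  | p :: l => if p.1 = j then p.2 + coef j l else coef j l

theorem ev_repr {n : ℕ} (b : Basis (Fin n) K M) (l : List (ℕ × ℤ)) (j : Fin n) :
    b.repr (ev b l) j = ((coef ((j : ℕ) + 1) l : ℤ) : K) := by
  induction l with
  | nil => simp [ev_nil, coef]
  | cons p l ih =>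
    rw [ev_cons, map_add, Finsupp.add_apply, ih, map_smul, Finsupp.smul_apply, pt_repr, coef]
    split_ifs
    · simp
    · simp

/-- equality of formal sums -/
def eqv (n : ℕ) (l l' : List (ℕ × ℤ)) : Bool :=
  (List.range n).all fun j => coef (j + 1) l == coef (j + 1) l'

theorem ev_eq {n : ℕ} (b : Basis (Fin n) K M) {l l' : List (ℕ × ℤ)} (h : eqv n l l' = true) :
    ev b l = ev b l' := by
  apply b.ext_elem
  intro j
  rw [ev_repr, ev_repr]
  have := (List.all_eq_true.1 h) j (List.mem_range.2 j.2)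
  rw [beq_iff_eq.1 this]

/-- the `i`-th column of a matrix -/
def ent (m : ℕ) (F : List (List (ℕ × ℤ))) : ℕ → List (ℕ × ℤ)
  | 0 => []
  | i + 1 => if i < m then F.getD i [] else []

/-- the linear map of a matrix -/
noncomputable def mat {m n : ℕ} (b : Basis (Fin m) K M) (c : Basis (Fin n) K N)
    (F : List (List (ℕ × ℤ))) : M →ₗ[K] N :=
  b.constr K fun i => ev c (ent m F ((i : ℕ) + 1))

theorem mat_basis {m n : ℕ} (b : Basis (Fin m) K M) (c : Basis (Fin n) K N)
    (F : List (List (ℕ × ℤ))) (i : Fin m) : mat b c F (b i) = ev c (ent m F ((i : ℕ) + 1)) :=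
  Basis.constr_basis _ _ _ _

theorem mat_pt {m n : ℕ} (b : Basis (Fin m) K M) (c : Basis (Fin n) K N)
    (F : List (List (ℕ × ℤ))) (i : ℕ) : mat b c F (pt b i) = ev c (ent m F i) := by
  rcases i with _ | i
  · rw [pt_zero, map_zero]; rfl
  · by_cases h : i < m
    · have := mat_basis b c F ⟨i, h⟩
      rwa [← pt_succ] at this
    · rw [pt_gt b (by omega), map_zero, ent, if_neg h, ev_nil]

/-- composition of a matrix with a list -/
def cmpl (m : ℕ) (F : List (List (ℕ × ℤ))) : List (ℕ × ℤ) → List (ℕ × ℤ)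
  | [] => []
  | p :: l => (ent m F p.1).map (fun q => (q.1, p.2 * q.2)) ++ cmpl m F l

theorem ev_scale {n : ℕ} (b : Basis (Fin n) K M) (c : ℤ) (l : List (ℕ × ℤ)) :
    ev b (l.map fun q => (q.1, c * q.2)) = (c : K) • ev b l := by
  induction l with
  | nil => simp [ev_nil]
  | cons p l ih =>
    rw [List.map_cons, ev_cons, ih, ev_cons, smul_add, smul_smul, Int.cast_mul]

theorem mat_ev {m n : ℕ} (b : Basis (Fin m) K M) (c : Basis (Fin n) K N)
    (F : List (List (ℕ × ℤ))) (l : List (ℕ × ℤ)) :
    mat b c F (ev b l) = ev c (cmpl m F l) := by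
  induction l with
  | nil => rw [ev_nil, map_zero]; rfl
  | cons p l ih => rw [ev_cons, map_add, map_smul, mat_pt, ih, cmpl, ev_append, ev_scale]

end Points

/-- multiplication table of an algebra with multiplicative basis -/
structure Tab where
  n : ℕ
  mul : ℕ → ℕ → ℕ
  ids : List ℕ

/-- the opposite table -/
def Tab.op (T : Tab) : Tab := ⟨T.n, fun x y => T.mul y x, T.ids⟩

/-- `R` has a basis with multiplication table `T` -/
class TabAlg (K R : Type u) [Field K] [Ring R] [Algebra K R] (T : Tab) where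
  b : Basis (Fin T.n) K R
  mul : ∀ x y : Fin T.n, b x * b y = pt b (T.mul (x + 1) (y + 1))
  one : (1 : R) = (T.ids.map (pt b)).sum

/-- all pairs -/
def allx (n m : ℕ) (p : ℕ → ℕ → Bool) : Bool :=
  (List.range (n + 1)).all fun x => (List.range (m + 1)).all fun i => p x i

theorem allx_spec {n m : ℕ} {p : ℕ → ℕ → Bool} (h : allx n m p = true) {x i : ℕ} (hx : x ≤ n)
    (hi : i ≤ m) : p x i = true :=
  List.all_eq_true.1 (List.all_eq_true.1 h x (List.mem_range.2 (by omega))) i
    (List.mem_range.2 (by omega))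

/-- boolean check of a module table -/
def repChk (T : Tab) (m : ℕ) (act : ℕ → ℕ → ℕ) : Bool :=
  (List.range (T.n + 1)).all (fun x => allx T.n m fun y i =>
    act x (act y i) == act (T.mul x y) i) &&
  ((List.range m).all fun i => (T.ids.map (act · (i + 1))).filter (· != 0) == [i + 1]) &&
  (allx T.n m fun x i => decide (act x i ≤ m) && act x 0 == 0 && act 0 i == 0) &&
  (allx T.n T.n fun x y => decide (T.mul x y ≤ T.n)) &&
  T.ids.all (fun e => decide (e ≤ T.n))

/-- a module with multiplicative basis -/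
structure Rep (T : Tab) where
  m : ℕ
  act : ℕ → ℕ → ℕ
  chk : repChk T m act = true

section Rep

variable {T : Tab} (X : Rep T)

theorem Rep.chks : ((((List.range (T.n + 1)).all (fun x => allx T.n X.m fun y i =>
    X.act x (X.act y i) == X.act (T.mul x y) i) = true ∧
  ((List.range X.m).all fun i => (T.ids.map (X.act · (i + 1))).filter (· != 0) == [i + 1]) = true) ∧
  (allx T.n X.m fun x i => decide (X.act x i ≤ X.m) && X.act x 0 == 0 && X.act 0 i == 0) = true) ∧
  (allx T.n T.n fun x y => decide (T.mul x y ≤ T.n)) = true) ∧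
  (T.ids.all (fun e => decide (e ≤ T.n))) = true := by
  have h := X.chk
  simp only [repChk, Bool.and_eq_true] at h
  exact h

theorem Rep.act_mul {x y i : ℕ} (hx : x ≤ T.n) (hy : y ≤ T.n) (hi : i ≤ X.m) :
    X.act x (X.act y i) = X.act (T.mul x y) i := by
  have h := X.chks.1.1.1.1
  have h1 := List.all_eq_true.1 h x (List.mem_range.2 (by omega))
  exact beq_iff_eq.1 (allx_spec h1 hy hi)

theorem Rep.act_one {i : ℕ} (hi : i < X.m) :
    (T.ids.map (X.act · (i + 1))).filter (· != 0) = [i + 1] := by
  have h := X.chks.1.1.1.2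
  exact beq_iff_eq.1 (List.all_eq_true.1 h i (List.mem_range.2 hi))

theorem Rep.act_le {x i : ℕ} (hx : x ≤ T.n) (hi : i ≤ X.m) : X.act x i ≤ X.m := by
  have h := allx_spec X.chks.1.1.2 hx hi
  simp only [Bool.and_eq_true, decide_eq_true_eq] at h
  exact h.1.1

theorem Rep.act_zero {x : ℕ} (hx : x ≤ T.n) : X.act x 0 = 0 := by
  have h := allx_spec X.chks.1.1.2 hx (Nat.zero_le _)
  simp only [Bool.and_eq_true, decide_eq_true_eq, beq_iff_eq] at h
  exact h.1.2

theorem Rep.zero_act {i : ℕ} (hi : i ≤ X.m) : X.act 0 i = 0 := by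
  have h := allx_spec X.chks.1.1.2 (Nat.zero_le _) hi
  simp only [Bool.and_eq_true, decide_eq_true_eq, beq_iff_eq] at h
  exact h.2

include X in
theorem Rep.mul_le {x y : ℕ} (hx : x ≤ T.n) (hy : y ≤ T.n) : T.mul x y ≤ T.n := by
  have h := allx_spec X.chks.1.2 hx hy
  exact of_decide_eq_true h

include X in
theorem Rep.ids_le {e : ℕ} (he : e ∈ T.ids) : e ≤ T.n := by
  have h := List.all_eq_true.1 X.chks.2 e he
  exact of_decide_eq_true h

end Rep

/-- the module with multiplicative basis -/
def MMod (K : Type u) [Field K] {T : Tab} (X : Rep T) : Type u := Fin X.m → K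

section MMod

variable (K : Type u) [Field K] {T : Tab} (X : Rep T)

instance : AddCommGroup (MMod K X) := inferInstanceAs (AddCommGroup (Fin X.m → K))
instance : Module K (MMod K X) := inferInstanceAs (Module K (Fin X.m → K))
instance : Module.Finite K (MMod K X) := inferInstanceAs (Module.Finite K (Fin X.m → K))

/-- the basis -/
noncomputable def mb : Basis (Fin X.m) K (MMod K X) := Pi.basisFun K (Fin X.m)

/-- the action of a basis element -/
noncomputable def actL (x : ℕ) : MMod K X →ₗ[K] MMod K X :=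
  (mb K X).constr K fun i => pt (mb K X) (X.act x ((i : ℕ) + 1))

theorem actL_pt {x i : ℕ} (hx : x ≤ T.n) (hi : i ≤ X.m) :
    actL K X x (pt (mb K X) i) = pt (mb K X) (X.act x i) := by
  rcases i with _ | i
  · rw [pt_zero, map_zero, X.act_zero hx, pt_zero]
  · have h : (mb K X).constr K (fun i : Fin X.m => pt (mb K X) (X.act x ((i : ℕ) + 1)))
        (mb K X ⟨i, by omega⟩) = pt (mb K X) (X.act x (i + 1)) := Basis.constr_basis _ _ _ _
    rw [← pt_succ] at h
    exact h

variable {K} in
theorem sum_filter_pt {M : Type u} [AddCommGroup M] [Module K M] {n : ℕ} (b : Basis (Fin n) K M)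
    (l : List ℕ) : (l.map (pt b)).sum = ((l.filter (· != 0)).map (pt b)).sum := by
  induction l with
  | nil => rfl
  | cons a l ih =>
    by_cases ha : a = 0
    · subst ha
      simp [pt_zero, ih]
    · simp [ha, ih]

variable (R : Type u) [Ring R] [Algebra K R] [tR : TabAlg K R T]

/-- the action as a linear map -/
noncomputable def actR : R →ₗ[K] (MMod K X →ₗ[K] MMod K X) :=
  tR.b.constr K fun x => actL K X ((x : ℕ) + 1)

theorem actR_basis (x : Fin T.n) : actR K X R (tR.b x) = actL K X ((x : ℕ) + 1) :=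
  Basis.constr_basis _ _ _ _

theorem actR_pt {x i : ℕ} (hx : x ≤ T.n) (hi : i ≤ X.m) :
    actR K X R (pt tR.b x) (pt (mb K X) i) = pt (mb K X) (X.act x i) := by
  rcases x with _ | x
  · rw [pt_zero, map_zero, X.zero_act hi, pt_zero]; rfl
  · have h := actR_basis K X R ⟨x, by omega⟩
    rw [← pt_succ] at h
    rw [show pt tR.b (x + 1) = pt tR.b (((⟨x, by omega⟩ : Fin T.n) : ℕ) + 1) from rfl, h,
      actL_pt K X hx hi]

theorem actR_mul (r s : R) : actR K X R (r * s) = actR K X R r * actR K X R s := by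
  have h : (LinearMap.mul K R).compr₂ (actR K X R) =
      (LinearMap.mul K (Module.End K (MMod K X))).compl₁₂ (actR K X R) (actR K X R) := by
    refine tR.b.ext fun x => tR.b.ext fun y => (mb K X).ext fun i => ?_
    show actR K X R (tR.b x * tR.b y) (mb K X i)
      = actR K X R (tR.b x) (actR K X R (tR.b y) (mb K X i))
    have hx : (x : ℕ) + 1 ≤ T.n := x.2
    have hy : (y : ℕ) + 1 ≤ T.n := y.2
    have hi : (i : ℕ) + 1 ≤ X.m := i.2
    rw [tR.mul, ← pt_succ tR.b x, ← pt_succ tR.b y, ← pt_succ (mb K X) i,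
      actR_pt K X R (X.mul_le hx hy) hi, actR_pt K X R hy hi,
      actR_pt K X R hx (X.act_le hy hi), X.act_mul hx hy hi]
  exact LinearMap.congr_fun (LinearMap.congr_fun h r) s

theorem actR_one : actR K X R 1 = 1 := by
  refine (mb K X).ext fun i => ?_
  rw [tR.one, map_list_sum, List.map_map]
  have h1 : ∀ l : List ℕ, (∀ e ∈ l, e ≤ T.n) →
      (l.map (⇑(actR K X R) ∘ pt tR.b)).sum (mb K X i)
        = ((l.map (X.act · ((i : ℕ) + 1))).map (pt (mb K X))).sum := by
    intro l hl
    induction l with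
    | nil => simp
    | cons a l ih =>
      have ha := hl a List.mem_cons_self
      have hi : (i : ℕ) + 1 ≤ X.m := i.2
      rw [List.map_cons, List.sum_cons, LinearMap.add_apply, ih (fun e he => hl e
        (List.mem_cons_of_mem _ he)), List.map_cons, List.map_cons, List.sum_cons,
        Function.comp_apply, ← pt_succ (mb K X) i, actR_pt K X R ha hi]
  rw [h1 T.ids (fun e he => X.ids_le he), sum_filter_pt, X.act_one i.2]
  simp [pt_succ]

/-- the ring map of the action -/
noncomputable def actHom : R →+* Module.End K (MMod K X) where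
  toFun := actR K X R
  map_one' := actR_one K X R
  map_mul' := actR_mul K X R
  map_zero' := map_zero _
  map_add' := map_add _

end MMod

section MMod2

variable {K : Type u} [Field K] {T : Tab} {X : Rep T} {R : Type u} [Ring R] [Algebra K R]
  [tR : TabAlg K R T]

noncomputable instance : Module R (MMod K X) := Module.compHom (MMod K X) (actHom K X R)

theorem mmod_smul (r : R) (w : MMod K X) : r • w = actR K X R r w := rfl

theorem smul_pt {x i : ℕ} (hx : x ≤ T.n) (hi : i ≤ X.m) :
    pt (TabAlg.b (K := K) (R := R) (T := T)) x • pt (mb K X) i = pt (mb K X) (X.act x i) :=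
  actR_pt K X R hx hi

instance : IsScalarTower K R (MMod K X) := ⟨fun k r w => by
  rw [mmod_smul, map_smul]; rfl⟩

theorem smul_ev {x : ℕ} (hx : x ≤ T.n) {l : List (ℕ × ℤ)} (hl : ∀ p ∈ l, p.1 ≤ X.m) :
    pt (TabAlg.b (K := K) (R := R) (T := T)) x • ev (mb K X) l
      = ev (mb K X) (l.map fun p => (X.act x p.1, p.2)) := by
  induction l with
  | nil => rw [ev_nil, smul_zero]; rfl
  | cons p l ih =>
    rw [ev_cons, smul_add, ih (fun q hq => hl q (List.mem_cons_of_mem _ hq)), List.map_cons,
      ev_cons, mmod_smul, map_smul, ← mmod_smul, smul_pt hx (hl p List.mem_cons_self)]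

/-- a `K`-linear map commuting with the basis elements is `R`-linear -/
theorem rlin {M N : Type u} [AddCommGroup M] [Module K M] [Module R M] [IsScalarTower K R M]
    [AddCommGroup N] [Module K N] [Module R N] [IsScalarTower K R N] (f : M →ₗ[K] N)
    (h : ∀ (x : Fin T.n) (w : M), f ((TabAlg.b (K := K) (R := R) (T := T)) x • w)
      = (TabAlg.b (K := K) (R := R) (T := T)) x • f w) (r : R) (w : M) :
    f (r • w) = r • f w := by
  have h1 : r = ∑ x, (tR.b.repr r x) • tR.b x := (tR.b.sum_repr r).symm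
  rw [h1, Finset.sum_smul, Finset.sum_smul, map_sum]
  refine Finset.sum_congr rfl fun x _ => ?_
  rw [smul_assoc, smul_assoc, map_smul, h]

end MMod2

end Pool.Agent.N9.GS
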