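import Pool.Agent.N9.GS.Res

/-!
An upper bound for the projective dimension of all modules over an algebra with multiplicative
basis, from the projective dimensions of the simple modules.
-/

set_option autoImplicit false

open CategoryTheory TensorProduct Module Limits

namespace Pool.Agent.N9.GS

universe u

section PdTensor

variable {K A : Type u} [Field K] [Ring A] [Algebra K A]

theorem pd_tensor_aux (V : Type u) [AddCommGroup V] [Module K V] {n : ℕ}
    {N F U : Type u} [AddCommGroup N] [Module K N] [Module A N] [IsScalarTower K A N]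
    [AddCommGroup F] [Module K F] [Module A F] [IsScalarTower K A F]
    [AddCommGroup U] [Module K U] [Module A U] [IsScalarTower K A U]
    (i0 : N →ₗ[A] F) (p0 : F →ₗ[A] U) (hi0 : Function.Injective i0)
    (hp0 : Function.Surjective p0) (hex : ∀ y, p0 y = 0 ↔ ∃ x, i0 x = y)
    (h1 : PD A (N ⊗[K] V) n) (h2 : PD A (F ⊗[K] V) (n + 1)) : PD A (U ⊗[K] V) (n + 1) := by
  let i : (N ⊗[K] V) →ₗ[A] (F ⊗[K] V) := TensorProduct.AlgebraTensorModule.rTensor K V i0
  let p : (F ⊗[K] V) →ₗ[A] (U ⊗[K] V) := TensorProduct.AlgebraTensorModule.rTensor K V p0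
  have hi : Function.Injective i :=
    Module.Flat.rTensor_preserves_injective_linearMap (M := V) (resK K i0) hi0
  have hp : Function.Surjective p := LinearMap.rTensor_surjective V (g := resK K p0) hp0
  refine pd_right i p hi hp ?_ h1 h2
  intro y
  exact rTensor_exact V (f := resK K i0) (g := resK K p0) (fun y => hex y) hp0 y

/-- `pd (U ⊗ V) ≤ pd U` for a vector space `V` -/
theorem pd_tensor (V : Type u) [AddCommGroup V] [Module K V] (n : ℕ) :
    ∀ (U : Type u) [AddCommGroup U] [Module K U] [Module A U] [IsScalarTower K A U],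
    PD A U (n + 1) → PD A (U ⊗[K] V) (n + 1) := by
  induction n with
  | zero =>
    intro U _ _ _ _ h
    have := proj_of_pd h
    have : Module.Projective A (U ⊗[K] V) := inferInstance
    exact pd_proj
  | succ n ih =>
    intro U _ _ _ _ h
    let f : (U →₀ A) →ₗ[A] U := Finsupp.linearCombination A id
    have hf : Function.Surjective f := Finsupp.linearCombination_id_surjective A U
    let N : Submodule A (U →₀ A) := LinearMap.ker f
    have hex : ∀ y, f y = 0 ↔ ∃ x, N.subtype x = y := by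
      intro y
      constructor
      · intro hy
        exact ⟨⟨y, hy⟩, rfl⟩
      · rintro ⟨x, rfl⟩
        exact x.2
    have h1 : PD A N (n + 1) :=
      pd_left N.subtype f (Submodule.subtype_injective _) hf hex
        (pd_mono (Nat.le_add_left 1 n) pd_proj) h
    have h2 := ih N h1
    have h3 : PD A ((U →₀ A) ⊗[K] V) (n + 1 + 1) := pd_mono (Nat.le_add_left 1 _) pd_proj
    exact pd_tensor_aux (N := N) (F := U →₀ A) (U := U) V N.subtype f (Submodule.subtype_injective _) hf hex h2 h3

theorem pd_prod {R X Y : Type u} [Ring R] [AddCommGroup X] [Module R X] [AddCommGroup Y]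
    [Module R Y] {n : ℕ} (h1 : PD R X n) (h2 : PD R Y n) : PD R (X × Y) n := by
  refine pd_mid (LinearMap.inl R X Y) (LinearMap.snd R X Y) LinearMap.inl_injective
    LinearMap.snd_surjective ?_ h1 h2
  rintro ⟨x, y⟩
  constructor
  · intro h
    exact ⟨x, Prod.ext rfl (Eq.symm h)⟩
  · rintro ⟨z, hz⟩
    exact (congrArg Prod.snd hz).symm

theorem pd_pi {R : Type u} [Ring R] {n : ℕ} (k : ℕ) :
    ∀ (X : Fin k → Type u) [∀ i, AddCommGroup (X i)] [∀ i, Module R (X i)],
    (∀ i, PD R (X i) n) → PD R (∀ i, X i) n := by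
  induction k with
  | zero =>
    intro X _ _ _
    exact pd_sub n
  | succ k ih =>
    intro X _ _ h
    let e : (∀ i, X i) ≃ₗ[R] (X 0 × ∀ i : Fin k, X i.succ) :=
      { toFun := fun f => (f 0, fun i => f i.succ)
        map_add' := fun f g => rfl
        map_smul' := fun r f => rfl
        invFun := fun p => Fin.cons p.1 p.2
        left_inv := fun f => Fin.cons_self_tail f
        right_inv := fun p => rfl }
    exact pd_congr e.symm (pd_prod (h 0) (ih (fun i => X i.succ) (fun i => h i.succ)))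

theorem pd_retract {R X Y : Type u} [Ring R] [AddCommGroup X] [Module R X] [AddCommGroup Y]
    [Module R Y] {n : ℕ} (h : PD R Y n) (i : X →ₗ[R] Y) (p : Y →ₗ[R] X) (hp : ∀ x, p (i x) = x) :
    PD R X n := by
  have r : Retract (ModuleCat.of R X) (ModuleCat.of R Y) :=
    { i := ModuleCat.ofHom i
      r := ModuleCat.ofHom p
      retract := by
        apply ModuleCat.hom_ext
        apply LinearMap.ext
        intro x
        exact hp x }
  exact r.hasProjectiveDimensionLT n

end PdTensor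

/-- the action of the simple module at the idempotent `e` -/
def simpAct (e x i : ℕ) : ℕ := if x = e ∧ i = 1 then 1 else 0

/-- check: the idempotents are orthogonal, `lev` is superadditive, positive outside the
idempotents and less than `N` -/
def levChk (T : Tab) (lev : ℕ → ℕ) (N : ℕ) : Bool :=
  (T.ids.all fun e => T.ids.all fun f => T.mul e f == if e = f then e else 0) &&
  (allx T.n T.n fun x y => x == 0 || y == 0 || T.mul x y == 0 ||
    decide (lev x + lev y ≤ lev (T.mul x y))) &&
  ((List.range T.n).all fun x => (T.ids.contains (x + 1) || decide (0 < lev (x + 1))) &&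
    decide (lev (x + 1) < N)) && (T.ids.all fun e => decide (0 < e) && decide (e ≤ T.n)) &&
  (allx T.n T.n fun x y => decide (T.mul x y ≤ T.n))

section Semisimple

variable {K : Type u} [Field K] {T : Tab} {R : Type u} [Ring R] [Algebra K R]
  [tR : TabAlg K R T]

theorem pt_mul {x y : ℕ} (hx : 0 < x) (hx' : x ≤ T.n) (hy : 0 < y) (hy' : y ≤ T.n) :
    pt tR.b x * pt tR.b y = pt tR.b (T.mul x y) := by
  have := tR.mul ⟨x - 1, by omega⟩ ⟨y - 1, by omega⟩
  rw [← pt_succ tR.b, ← pt_succ tR.b] at this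
  have e1 : x - 1 + 1 = x := by omega
  have e2 : y - 1 + 1 = y := by omega
  simp only [e1, e2] at this
  exact this

theorem one_eq_sum_smul {N : Type u} [AddCommGroup N] [Module R N] (w : N) :
    (T.ids.map fun e => pt tR.b e • w).sum = w := by
  have h : ∀ l : List ℕ, (l.map fun e => pt tR.b e • w).sum = (l.map (pt tR.b)).sum • w := by
    intro l
    induction l with
    | nil => simp
    | cons a l ih => rw [List.map_cons, List.sum_cons, ih, List.map_cons, List.sum_cons, add_smul]
  rw [h, ← tR.one, one_smul]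

variable {N : Type u} [AddCommGroup N] [Module K N] [Module R N] [IsScalarTower K R N]

theorem levChk_spec {lev : ℕ → ℕ} {n : ℕ} (h : levChk T lev n = true) :
    (∀ e ∈ T.ids, ∀ f ∈ T.ids, T.mul e f = if e = f then e else 0) ∧
    (∀ x y, 0 < x → x ≤ T.n → 0 < y → y ≤ T.n → T.mul x y = 0 ∨
      lev x + lev y ≤ lev (T.mul x y)) ∧
    (∀ x, 0 < x → x ≤ T.n → (x ∈ T.ids ∨ 0 < lev x) ∧ lev x < n) ∧
    (∀ e ∈ T.ids, 0 < e ∧ e ≤ T.n) ∧ (∀ x y, x ≤ T.n → y ≤ T.n → T.mul x y ≤ T.n) := by
  simp only [levChk, Bool.and_eq_true] at h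
  obtain ⟨⟨⟨⟨h1, h2⟩, h3⟩, h4⟩, h5⟩ := h
  refine ⟨fun e he f hf => ?_, fun x y hx hx' hy hy' => ?_, fun x hx hx' => ?_, fun e he => ?_,
    fun x y hx hy => ?_⟩
  · exact beq_iff_eq.1 (List.all_eq_true.1 (List.all_eq_true.1 h1 e he) f hf)
  · have := allx_spec h2 hx' hy'
    simp only [Bool.or_eq_true, beq_iff_eq, decide_eq_true_eq] at this
    omega
  · have := List.all_eq_true.1 h3 (x - 1) (List.mem_range.2 (by omega))
    rw [show x - 1 + 1 = x by omega] at this
    simpa using this
  · have := List.all_eq_true.1 h4 e he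
    simpa using this
  · exact of_decide_eq_true (allx_spec h5 hx hy)

/-- the inclusion of an isotypic component of a semisimple module -/
noncomputable def iso1 (S : Rep T) (e : ℕ) : (MMod K S ⊗[K] N) →ₗ[K] N :=
  TensorProduct.lift
    ((LinearMap.lsmul K (N →ₗ[K] N)).flip (Algebra.lsmul K K N (pt tR.b e)) ∘ₗ cd (mb K S) 1)

theorem iso1_tmul (S : Rep T) (e : ℕ) (s : MMod K S) (w : N) :
    iso1 (R := R) S e (s ⊗ₜ w) = cd (mb K S) 1 s • (pt tR.b e • w) := rfl

/-- the projection on an isotypic component of a semisimple module -/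
noncomputable def iso2 (S : Rep T) (e : ℕ) : N →ₗ[K] (MMod K S ⊗[K] N) :=
  (TensorProduct.mk K (MMod K S) N (pt (mb K S) 1)) ∘ₗ (Algebra.lsmul K K N (pt tR.b e))

theorem iso2_apply (S : Rep T) (e : ℕ) (w : N) :
    iso2 (K := K) (R := R) S e w = pt (mb K S) 1 ⊗ₜ (pt tR.b e • w) := rfl

variable {lev : ℕ → ℕ} {n : ℕ}

theorem simp_basis_smul {S : Rep T} {e : ℕ} (hS : S.m = 1)
    (hS2 : ∀ x, S.act x 1 = if x = e then 1 else 0) (x : Fin T.n) (s : MMod K S) :
    tR.b x • s = if (x : ℕ) + 1 = e then s else 0 := by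
  have h : actR K S R (tR.b x) = if (x : ℕ) + 1 = e then LinearMap.id else 0 := by
    refine (mb K S).ext fun i => ?_
    have hi : (i : ℕ) + 1 ≤ S.m := i.2
    have hi' : (i : ℕ) + 1 = 1 := by omega
    rw [← pt_succ tR.b, ← pt_succ (mb K S), actR_pt K S R x.2 hi, hi', hS2]
    split_ifs
    · rfl
    · rw [pt_zero]; rfl
  rw [mmod_smul, h]
  split_ifs <;> rfl

theorem iso1_smul (hl : levChk T lev n = true) {S : Rep T} {e : ℕ} (he : e ∈ T.ids)
    (hS : S.m = 1) (hS2 : ∀ x, S.act x 1 = if x = e then 1 else 0)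
    (hN : ∀ x, 0 < x → x ≤ T.n → x ∉ T.ids → ∀ w : N, pt tR.b x • w = 0) (r : R)
    (z : MMod K S ⊗[K] N) : iso1 (R := R) S e (r • z) = r • iso1 (R := R) S e z := by
  obtain ⟨h1, h2, h3, h4, h5⟩ := levChk_spec hl
  refine rlin (T := T) (iso1 (R := R) S e) (fun x z => ?_) r z
  induction z using TensorProduct.induction_on with
  | zero => rw [smul_zero, map_zero, smul_zero]
  | tmul s w =>
    rw [TensorProduct.smul_tmul', simp_basis_smul hS hS2, iso1_tmul, iso1_tmul]
    have e1 : tR.b x • (cd (mb K S) 1 s • (pt tR.b e • w))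
        = cd (mb K S) 1 s • (pt tR.b (T.mul ((x : ℕ) + 1) e) • w) := by
      rw [← smul_comm (cd (mb K S) 1 s) (tR.b x), ← pt_succ tR.b x, ← mul_smul,
        pt_mul (Nat.succ_pos _) x.2 (h4 e he).1 (h4 e he).2]
    rw [e1]
    by_cases hx : (x : ℕ) + 1 = e
    · rw [if_pos hx, hx, h1 e he e he, if_pos rfl]
    · rw [if_neg hx, map_zero, zero_smul]
      by_cases hx2 : (x : ℕ) + 1 ∈ T.ids
      · rw [h1 _ hx2 e he, if_neg hx, pt_zero, zero_smul, smul_zero]
      · have e2 : pt tR.b (T.mul ((x : ℕ) + 1) e) • w = 0 := by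
          rw [← pt_mul (Nat.succ_pos _) x.2 (h4 e he).1 (h4 e he).2, mul_smul,
            hN _ (Nat.succ_pos _) x.2 hx2]
        rw [e2, smul_zero]
  | add a b ha hb => rw [smul_add, map_add, ha, hb, map_add, smul_add]

theorem iso2_smul (hl : levChk T lev n = true) {S : Rep T} {e : ℕ} (he : e ∈ T.ids)
    (hS : S.m = 1) (hS2 : ∀ x, S.act x 1 = if x = e then 1 else 0)
    (hN : ∀ x, 0 < x → x ≤ T.n → x ∉ T.ids → ∀ w : N, pt tR.b x • w = 0) (r : R)
    (w : N) : iso2 (K := K) (R := R) S e (r • w) = r • iso2 (K := K) (R := R) S e w := by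
  obtain ⟨h1, h2, h3, h4, h5⟩ := levChk_spec hl
  refine rlin (T := T) (iso2 (K := K) (R := R) S e) (fun x w => ?_) r w
  rw [iso2_apply, iso2_apply, TensorProduct.smul_tmul', simp_basis_smul hS hS2,
    ← pt_succ tR.b x, ← mul_smul, pt_mul (h4 e he).1 (h4 e he).2 (show 0 < (x : ℕ) + 1 from Nat.succ_pos _) x.2]
  by_cases hx : (x : ℕ) + 1 = e
  · rw [if_pos hx, hx, h1 e he e he, if_pos rfl]
  · rw [if_neg hx, TensorProduct.zero_tmul]
    by_cases hx2 : (x : ℕ) + 1 ∈ T.ids
    · rw [h1 e he _ hx2, if_neg (Ne.symm hx), pt_zero, zero_smul, TensorProduct.tmul_zero]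
    · rw [← pt_mul (h4 e he).1 (h4 e he).2 (Nat.succ_pos _) x.2, mul_smul,
        hN _ (Nat.succ_pos _) x.2 hx2, smul_zero, TensorProduct.tmul_zero]

/-- modules killed by the radical -/
theorem pd_semisimple (hl : levChk T lev n = true) {k g : ℕ} (e : Fin k → ℕ) (S : Fin k → Rep T)
    (he : T.ids = List.ofFn e) (hS : ∀ v, (S v).m = 1)
    (hS2 : ∀ v x, (S v).act x 1 = if x = e v then 1 else 0)
    (hpd : ∀ v, PD R (MMod K (S v)) (g + 1))
    (hN : ∀ x, 0 < x → x ≤ T.n → x ∉ T.ids → ∀ w : N, pt tR.b x • w = 0) : PD R N (g + 1) := by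
  have hev : ∀ v, e v ∈ T.ids := fun v => by rw [he]; exact (List.mem_ofFn' _ _).2 ⟨v, rfl⟩
  have h1 : PD R (∀ v : Fin k, (MMod K (S v) ⊗[K] N)) (g + 1) :=
    pd_pi k (fun v => (MMod K (S v) ⊗[K] N)) (fun v => pd_tensor N g (MMod K (S v)) (hpd v))
  let i : N →ₗ[R] (∀ v : Fin k, (MMod K (S v) ⊗[K] N)) := LinearMap.pi fun v =>
    { toFun := iso2 (K := K) (R := R) (S v) (e v), map_add' := map_add _,
      map_smul' := iso2_smul hl (hev v) (hS v) (hS2 v) hN }
  let p : (∀ v : Fin k, (MMod K (S v) ⊗[K] N)) →ₗ[R] N := ∑ v,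
    { toFun := iso1 (R := R) (S v) (e v), map_add' := map_add _,
      map_smul' := iso1_smul hl (hev v) (hS v) (hS2 v) hN } ∘ₗ LinearMap.proj v
  refine pd_retract h1 i p fun w => ?_
  have e1 : p (i w) = ∑ v, iso1 (R := R) (S v) (e v) (iso2 (K := K) (R := R) (S v) (e v) w) := by
    show (∑ v, _ : (∀ v : Fin k, (MMod K (S v) ⊗[K] N)) →ₗ[R] N) (i w) = _
    rw [LinearMap.sum_apply]
    rfl
  rw [e1]
  have e2 : ∀ v, iso1 (R := R) (S v) (e v) (iso2 (K := K) (R := R) (S v) (e v) w)
      = pt tR.b (e v) • w := by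
    intro v
    obtain ⟨h1, h2, h3, h4, h5⟩ := levChk_spec hl
    have hm : 1 ≤ (S v).m := by rw [hS v]
    rw [iso2_apply, iso1_tmul, cd_pt _ Nat.one_pos hm, if_pos rfl, one_smul, ← mul_smul,
      pt_mul (h4 _ (hev v)).1 (h4 _ (hev v)).2 (h4 _ (hev v)).1 (h4 _ (hev v)).2,
      h1 _ (hev v) _ (hev v), if_pos rfl]
  simp only [e2]
  have e3 := one_eq_sum_smul (K := K) (T := T) (R := R) w
  rw [he, List.map_ofFn, List.sum_ofFn] at e3
  exact e3

end Semisimple

section All

variable {K : Type u} [Field K] {T : Tab} {R : Type u} [Ring R] [Algebra K R]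
  [tR : TabAlg K R T] {lev : ℕ → ℕ} {n : ℕ}

variable (K) in
theorem pd_semisimple' (hl : levChk T lev n = true) {k g : ℕ} (e : Fin k → ℕ) (S : Fin k → Rep T)
    (he : T.ids = List.ofFn e) (hS : ∀ v, (S v).m = 1)
    (hS2 : ∀ v x, (S v).act x 1 = if x = e v then 1 else 0)
    (hpd : ∀ v, PD R (MMod K (S v)) (g + 1)) {N : Type u} [AddCommGroup N] [Module R N]
    (hN : ∀ x, 0 < x → x ≤ T.n → x ∉ T.ids → ∀ w : N, pt tR.b x • w = 0) : PD R N (g + 1) := by
  let : Module K N := Module.compHom N (algebraMap K R)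
  have : IsScalarTower K R N := ⟨fun k r w => by
    show (k • r) • w = algebraMap K R k • (r • w)
    rw [Algebra.smul_def, mul_smul]⟩
  exact pd_semisimple hl e S he hS hS2 hpd hN

variable (K R) in
/-- the elements killed by the basis elements of level at least `k` -/
def layer (hl : levChk T lev n = true) (M : Type u) [AddCommGroup M] [Module R M] (k : ℕ) :
    Submodule R M where
  carrier := {m | ∀ x, 0 < x → x ≤ T.n → k ≤ lev x → pt tR.b x • m = 0}
  zero_mem' := fun x _ _ _ => smul_zero _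
  add_mem' := fun {a b} ha hb x h1 h2 h3 => by rw [smul_add, ha x h1 h2 h3, hb x h1 h2 h3, add_zero]
  smul_mem' := by
    intro r m hm x h1 h2 h3
    let : Module K M := Module.compHom M (algebraMap K R)
    have hKM : ∀ (c : K) (w : M), c • w = algebraMap K R c • w := fun _ _ => rfl
    obtain ⟨_, l2, _, _, l5⟩ := levChk_spec hl
    let φ : R →ₗ[K] M :=
      { toFun := fun r => (pt tR.b x * r) • m
        map_add' := fun r s => by rw [mul_add, add_smul]
        map_smul' := fun c r => by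
          rw [RingHom.id_apply, hKM, ← mul_smul, mul_smul_comm, Algebra.smul_def] }
    have h : φ = 0 := by
      refine tR.b.ext fun y => ?_
      show (pt tR.b x * tR.b y) • m = 0
      rw [← pt_succ tR.b y, pt_mul h1 h2 (show 0 < (y : ℕ) + 1 from Nat.succ_pos _) y.2]
      rcases l2 x ((y : ℕ) + 1) h1 h2 (Nat.succ_pos _) y.2 with h4 | h4
      · rw [h4, pt_zero, zero_smul]
      · by_cases h5 : T.mul x ((y : ℕ) + 1) = 0
        · rw [h5, pt_zero, zero_smul]
        · exact hm _ (Nat.pos_of_ne_zero h5) (l5 _ _ h2 y.2) (by omega)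
    have h6 := LinearMap.congr_fun h r
    show pt tR.b x • r • m = 0
    rw [← mul_smul]
    exact h6

theorem mem_layer (hl : levChk T lev n = true) {M : Type u} [AddCommGroup M] [Module R M] {k : ℕ}
    {m : M} : m ∈ layer K R hl M k ↔ ∀ x, 0 < x → x ≤ T.n → k ≤ lev x → pt tR.b x • m = 0 :=
  Iff.rfl

theorem layer_le (hl : levChk T lev n = true) (M : Type u) [AddCommGroup M] [Module R M] (k : ℕ) :
    layer K R hl M k ≤ layer K R hl M (k + 1) := by
  intro m hm x h1 h2 h3
  exact hm x h1 h2 (by omega)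

theorem pd_layer (hl : levChk T lev n = true) {k g : ℕ} (e : Fin k → ℕ) (S : Fin k → Rep T)
    (he : T.ids = List.ofFn e) (hS : ∀ v, (S v).m = 1)
    (hS2 : ∀ v x, (S v).act x 1 = if x = e v then 1 else 0)
    (hpd : ∀ v, PD R (MMod K (S v)) (g + 1)) (M : Type u) [AddCommGroup M] [Module R M] (j : ℕ) :
    PD R (layer K R hl M j) (g + 1) := by
  obtain ⟨l1, l2, l3, l4, l5⟩ := levChk_spec hl
  induction j with
  | zero =>
    have : Subsingleton (layer K R hl M 0) := by
      refine ⟨fun a b => ?_⟩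
      have h0 : ∀ a : layer K R hl M 0, a = 0 := by
        intro a
        apply Subtype.ext
        rw [Submodule.coe_zero, ← one_eq_sum_smul (K := K) (T := T) (R := R) (a : M)]
        refine List.sum_eq_zero fun w hw => ?_
        obtain ⟨e, he, rfl⟩ := List.mem_map.1 hw
        exact a.2 e (l4 e he).1 (l4 e he).2 (Nat.zero_le _)
      rw [h0 a, h0 b]
    exact pd_sub _
  | succ j ih =>
    let i := Submodule.inclusion (layer_le (K := K) (R := R) hl M j)
    refine pd_mid i (LinearMap.range i).mkQ (Submodule.inclusion_injective _)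
      (Submodule.mkQ_surjective _) (fun y => by
        rw [Submodule.mkQ_apply, Submodule.Quotient.mk_eq_zero]; exact LinearMap.mem_range) ih ?_
    refine pd_semisimple' K hl e S he hS hS2 hpd ?_
    intro x h1 h2 h3 w
    obtain ⟨m, rfl⟩ := Submodule.mkQ_surjective _ w
    rw [← map_smul, Submodule.mkQ_apply, Submodule.Quotient.mk_eq_zero, LinearMap.mem_range]
    have h4 : pt tR.b x • (m : M) ∈ layer K R hl M j := by
      intro z hz1 hz2 hz3
      rw [← mul_smul, pt_mul hz1 hz2 h1 h2]
      rcases l2 z x hz1 hz2 h1 h2 with h5 | h5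
      · rw [h5, pt_zero, zero_smul]
      · by_cases h6 : T.mul z x = 0
        · rw [h6, pt_zero, zero_smul]
        · have h7 := ((l3 x h1 h2).1).resolve_left h3
          exact m.2 _ (Nat.pos_of_ne_zero h6) (l5 _ _ hz2 h2) (by omega)
    exact ⟨⟨_, h4⟩, Subtype.ext rfl⟩

/-- all modules have projective dimension at most `g` -/
theorem pd_all (hl : levChk T lev n = true) {k g : ℕ} (e : Fin k → ℕ) (S : Fin k → Rep T)
    (he : T.ids = List.ofFn e) (hS : ∀ v, (S v).m = 1)
    (hS2 : ∀ v x, (S v).act x 1 = if x = e v then 1 else 0)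
    (hpd : ∀ v, PD R (MMod K (S v)) (g + 1)) (M : Type u) [AddCommGroup M] [Module R M] :
    PD R M (g + 1) := by
  obtain ⟨l1, l2, l3, l4, l5⟩ := levChk_spec hl
  have h := pd_layer (K := K) (R := R) hl e S he hS hS2 hpd M n
  have h1 : layer K R hl M n = ⊤ := by
    rw [eq_top_iff]
    intro m _ x h1 h2 h3
    exact absurd (l3 x h1 h2).2 (by omega)
  rw [h1] at h
  exact pd_congr (Submodule.topEquiv (R := R) (M := M)) h

end All

end Pool.Agent.N9.GS
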