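import Pool.Agent.N9.GS.Engine

/-!
Linear maps given by integer matrices; certificates for injective coresolutions and projective
resolutions.
-/

set_option autoImplicit false

open CategoryTheory TensorProduct Module

namespace Pool.Agent.N9.GS

universe u

section Hom

variable {K : Type u} [Field K] {T : Tab} {R : Type u} [Ring R] [Algebra K R]
  [tR : TabAlg K R T]

/-- integer matrices, by columns -/
abbrev Mt := List (List (ℕ × ℤ))

/-- check that a matrix is a homomorphism -/
def homChk {T : Tab} (X Y : Rep T) (F : Mt) : Bool :=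
  (allx T.n X.m fun x i => eqv Y.m ((ent X.m F i).map (fun p => (Y.act x p.1, p.2)))
    (ent X.m F (X.act x i))) &&
  (List.range (X.m + 1)).all (fun i => (ent X.m F i).all fun p => decide (p.1 ≤ Y.m))

theorem homChk_smul {X Y : Rep T} {F : Mt} (h : homChk X Y F = true) (r : R) (w : MMod K X) :
    mat (mb K X) (mb K Y) F (r • w) = r • mat (mb K X) (mb K Y) F w := by
  simp only [homChk, Bool.and_eq_true] at h
  refine rlin (T := T) (mat (mb K X) (mb K Y) F) (fun x w => ?_) r w
  have h1 : (mat (mb K X) (mb K Y) F).comp (actR K X R (tR.b x)) =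
      (actR K Y R (tR.b x)).comp (mat (mb K X) (mb K Y) F) := by
    refine (mb K X).ext fun i => ?_
    have hx : (x : ℕ) + 1 ≤ T.n := x.2
    have hi : (i : ℕ) + 1 ≤ X.m := i.2
    have h2 := allx_spec h.1 hx hi
    have h3 := List.all_eq_true.1 h.2 ((i : ℕ) + 1) (List.mem_range.2 (by omega))
    rw [LinearMap.comp_apply, LinearMap.comp_apply, ← pt_succ tR.b, ← pt_succ (mb K X),
      actR_pt K X R hx hi, mat_pt, mat_pt, ← mmod_smul, smul_ev hx (fun p hp =>
        of_decide_eq_true (List.all_eq_true.1 h3 p hp))]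
    exact (ev_eq _ h2).symm
  exact LinearMap.congr_fun h1 w

variable (K R) in
/-- the homomorphism of a matrix -/
noncomputable def hom {X Y : Rep T} (F : Mt) (h : homChk X Y F = true) :
    MMod K X →ₗ[R] MMod K Y where
  toFun := mat (mb K X) (mb K Y) F
  map_add' := map_add _
  map_smul' r w := homChk_smul h r w

theorem hom_apply {X Y : Rep T} (F : Mt) (h : homChk X Y F = true) (w : MMod K X) :
    hom K R F h w = mat (mb K X) (mb K Y) F w := rfl

/-- `G ∘ F = 0` -/
def zeroChk {T : Tab} (X Y Z : Rep T) (F G : Mt) : Bool :=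
  (List.range X.m).all fun i => eqv Z.m (cmpl Y.m G (ent X.m F (i + 1))) []

theorem zeroChk_spec {X Y Z : Rep T} {F G : Mt} (h : zeroChk X Y Z F G = true) (w : MMod K X) :
    mat (mb K Y) (mb K Z) G (mat (mb K X) (mb K Y) F w) = 0 := by
  have h1 : (mat (mb K Y) (mb K Z) G).comp (mat (mb K X) (mb K Y) F) = 0 := by
    refine (mb K X).ext fun i => ?_
    have h2 := List.all_eq_true.1 h i (List.mem_range.2 i.2)
    rw [LinearMap.comp_apply, mat_basis, mat_ev, ev_eq _ h2]
    rfl
  exact LinearMap.congr_fun h1 w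

/-- `H ∘ G = 1` on `X` -/
def idChk {T : Tab} (X Y : Rep T) (G H : Mt) : Bool :=
  (List.range X.m).all fun i => eqv X.m (cmpl Y.m H (ent X.m G (i + 1))) [(i + 1, 1)]

theorem idChk_spec {X Y : Rep T} {G H : Mt} (h : idChk X Y G H = true) (w : MMod K X) :
    mat (mb K Y) (mb K X) H (mat (mb K X) (mb K Y) G w) = w := by
  have h1 : (mat (mb K Y) (mb K X) H).comp (mat (mb K X) (mb K Y) G) = LinearMap.id := by
    refine (mb K X).ext fun i => ?_
    have h2 := List.all_eq_true.1 h i (List.mem_range.2 i.2)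
    rw [LinearMap.comp_apply, mat_basis, mat_ev, ev_eq _ h2, ev_single, pt_succ]
    rfl
  exact LinearMap.congr_fun h1 w

/-- `H' ∘ G + F ∘ H = 1` on `Y`, where `F : X → Y`, `G : Y → Z`, `H : Y → X`, `H' : Z → Y` -/
def htpChk {T : Tab} (X Y Z : Rep T) (F G H H' : Mt) : Bool :=
  (List.range Y.m).all fun i =>
    eqv Y.m (cmpl Z.m H' (ent Y.m G (i + 1)) ++ cmpl X.m F (ent Y.m H (i + 1))) [(i + 1, 1)]

theorem htpChk_spec {X Y Z : Rep T} {F G H H' : Mt} (h : htpChk X Y Z F G H H' = true)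
    (w : MMod K Y) :
    mat (mb K Z) (mb K Y) H' (mat (mb K Y) (mb K Z) G w)
      + mat (mb K X) (mb K Y) F (mat (mb K Y) (mb K X) H w) = w := by
  have h1 : (mat (mb K Z) (mb K Y) H').comp (mat (mb K Y) (mb K Z) G)
      + (mat (mb K X) (mb K Y) F).comp (mat (mb K Y) (mb K X) H) = LinearMap.id := by
    refine (mb K Y).ext fun i => ?_
    have h2 := List.all_eq_true.1 h i (List.mem_range.2 i.2)
    rw [LinearMap.add_apply, LinearMap.comp_apply, LinearMap.comp_apply, mat_basis, mat_basis,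
      mat_ev, mat_ev, ← ev_append, ev_eq _ h2, ev_single, pt_succ]
    rfl
  exact LinearMap.congr_fun h1 w

/-- exactness from the certificates -/
theorem exact_of_chk {X Y Z : Rep T} {F G H H' : Mt} (hF : homChk X Y F = true)
    (hG : homChk Y Z G = true) (h0 : zeroChk X Y Z F G = true)
    (h1 : htpChk X Y Z F G H H' = true) :
    Function.Exact (hom K R F hF) (hom K R G hG) := by
  intro w
  rw [hom_apply]
  constructor
  · intro hw
    have h2 := htpChk_spec (K := K) h1 w
    rw [hw, map_zero, zero_add] at h2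
    exact ⟨_, h2⟩
  · rintro ⟨v, rfl⟩
    exact zeroChk_spec h0 v

theorem inj_of_chk {X Y : Rep T} {F H : Mt} (hF : homChk X Y F = true)
    (h1 : idChk X Y F H = true) : Function.Injective (hom K R F hF) := by
  intro v w h
  rw [← idChk_spec (K := K) h1 v, ← idChk_spec (K := K) h1 w]
  exact congrArg _ h

theorem surj_of_chk {X Y : Rep T} {F H : Mt} (hF : homChk X Y F = true)
    (h1 : idChk Y X H F = true) : Function.Surjective (hom K R F hF) :=
  fun w => ⟨_, idChk_spec (K := K) h1 w⟩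

/-- check that a module is a sum of dual modules `D(eR)`: `xt t` is the basis element of `R`
corresponding to `t`, `gm t` the index of the summand, `t0 k` the index of the idempotent in the
summand `k` -/
def cofChk (T : Tab) (X : Rep T) (xt gm t0 : ℕ → ℕ) : Bool :=
  (allx (X.m - 1) (T.n - 1) fun t y =>
    let z := T.mul (xt (t + 1)) (y + 1)
    let l := (List.range X.m).filter fun s => X.act (y + 1) (s + 1) == t + 1
    (z == 0 && l == []) ||
      match l with
      | [s] => xt (s + 1) == z && gm (s + 1) == gm (t + 1)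
      | _ => false) &&
  (allx (X.m - 1) (X.m - 1) fun t s =>
    (X.act (xt (t + 1)) (s + 1) == t0 (gm (t + 1))) == (s == t)) &&
  ((List.range X.m).all fun t => decide (0 < xt (t + 1)) && decide (xt (t + 1) ≤ T.n) &&
    decide (0 < t0 (gm (t + 1))) && decide (t0 (gm (t + 1)) ≤ X.m))

theorem cofChk_spec {X : Rep T} {xt gm t0 : ℕ → ℕ} (h : cofChk T X xt gm t0 = true) :
    (∀ t y : ℕ, t < X.m → y < T.n →
      (T.mul (xt (t + 1)) (y + 1) = 0 ∧ ∀ s, s < X.m → X.act (y + 1) (s + 1) ≠ t + 1) ∨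
      ∃ s, s < X.m ∧ xt (s + 1) = T.mul (xt (t + 1)) (y + 1) ∧ gm (s + 1) = gm (t + 1) ∧
        ∀ s', s' < X.m → (X.act (y + 1) (s' + 1) = t + 1 ↔ s' = s)) ∧
    (∀ t s : ℕ, t < X.m → s < X.m →
      (X.act (xt (t + 1)) (s + 1) = t0 (gm (t + 1)) ↔ s = t)) ∧
    (∀ t : ℕ, t < X.m → 0 < xt (t + 1) ∧ xt (t + 1) ≤ T.n ∧ 0 < t0 (gm (t + 1)) ∧
      t0 (gm (t + 1)) ≤ X.m) := by
  simp only [cofChk, Bool.and_eq_true] at h
  refine ⟨fun t y ht hy => ?_, fun t s ht hs => ?_, fun t ht => ?_⟩
  · have h1 := allx_spec h.1.1 (show t ≤ X.m - 1 by omega) (show y ≤ T.n - 1 by omega)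
    simp only [Bool.or_eq_true, Bool.and_eq_true, beq_iff_eq] at h1
    have hm : ∀ s, s ∈ ((List.range X.m).filter fun s => X.act (y + 1) (s + 1) == t + 1) ↔
        (s < X.m ∧ X.act (y + 1) (s + 1) = t + 1) := by
      intro s
      rw [List.mem_filter, List.mem_range, beq_iff_eq]
    generalize ((List.range X.m).filter fun s => X.act (y + 1) (s + 1) == t + 1) = l at h1 hm
    rcases h1 with ⟨h1, h2⟩ | h1
    · left
      refine ⟨h1, fun s hs hs2 => ?_⟩
      rw [h2] at hm
      exact absurd ((hm s).2 ⟨hs, hs2⟩) (by simp)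
    · right
      match l, h1, hm with
      | [s], h1, hm =>
        simp only [Bool.and_eq_true, beq_iff_eq] at h1
        refine ⟨s, ((hm s).1 (by simp)).1, h1.1, h1.2, fun s' hs' => ⟨fun h2 => ?_, fun h2 => ?_⟩⟩
        · have := (hm s').2 ⟨hs', h2⟩
          simpa using this
        · rw [h2]
          exact ((hm s).1 (by simp)).2
  · have h1 := allx_spec h.1.2 (show t ≤ X.m - 1 by omega) (show s ≤ X.m - 1 by omega)
    rw [beq_iff_eq] at h1
    by_cases h2 : s = t
    · rw [beq_iff_eq.2 h2, beq_iff_eq] at h1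
      exact ⟨fun _ => h2, fun _ => h1⟩
    · rw [beq_eq_false_iff_ne.2 h2] at h1
      exact ⟨fun h3 => absurd h3 (beq_eq_false_iff_ne.1 h1), fun h3 => absurd h3 h2⟩
  · have h1 := List.all_eq_true.1 h.2 t (List.mem_range.2 ht)
    simp only [Bool.and_eq_true, decide_eq_true_eq] at h1
    exact ⟨h1.1.1.1, h1.1.1.2, h1.1.2, h1.2⟩

/-- coordinate with code `c` -/
noncomputable def cd {M : Type u} [AddCommGroup M] [Module K M] {n : ℕ} (b : Basis (Fin n) K M)
    (c : ℕ) : M →ₗ[K] K :=
  if h : 0 < c ∧ c ≤ n then b.coord ⟨c - 1, by omega⟩ else 0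

theorem cd_pt {M : Type u} [AddCommGroup M] [Module K M] {n : ℕ} (b : Basis (Fin n) K M)
    {c : ℕ} (hc : 0 < c) (hc' : c ≤ n) (i : ℕ) : cd b c (pt b i) = if i = c then 1 else 0 := by
  rw [cd, dif_pos ⟨hc, hc'⟩, Basis.coord_apply, pt_repr]
  have : c - 1 + 1 = c := by omega
  simp only [this]

theorem cofree_injective {X : Rep T} {xt gm t0 : ℕ → ℕ} (h : cofChk T X xt gm t0 = true) :
    Module.Injective R (MMod K X) := by
  obtain ⟨h1, h2, h3⟩ := cofChk_spec h
  let pK : Coind K R (ℕ → K) →ₗ[K] MMod K X :=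
    { toFun := fun f => (mb K X).equivFun.symm fun t =>
        f (pt tR.b (xt ((t : ℕ) + 1))) (gm ((t : ℕ) + 1))
      map_add' := fun f g => by rw [← map_add]; rfl
      map_smul' := fun k f => by rw [RingHom.id_apply, ← map_smul]; rfl }
  have hpK : ∀ f t, (mb K X).repr (pK f) t = f (pt tR.b (xt ((t : ℕ) + 1))) (gm ((t : ℕ) + 1)) :=
    fun f t => by
      rw [← Basis.equivFun_apply]
      exact congrFun ((mb K X).equivFun.apply_symm_apply _) t
  have hlin : ∀ (r : R) (f : Coind K R (ℕ → K)), pK (r • f) = r • pK f := by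
    refine rlin (T := T) pK fun y f => ?_
    apply (mb K X).ext_elem
    intro t
    have e1 : pK f = ∑ s, ((mb K X).repr (pK f) s) • mb K X s := ((mb K X).sum_repr _).symm
    have e2 : ∀ s : Fin X.m, tR.b y • mb K X s = pt (mb K X) (X.act ((y : ℕ) + 1) ((s : ℕ) + 1)) := by
      intro s
      have := smul_pt (K := K) (R := R) (X := X) (x := (y : ℕ) + 1) (i := (s : ℕ) + 1) y.2 s.2
      rwa [pt_succ, pt_succ] at this
    rw [hpK, Coind.smul_apply]
    have e3 : (mb K X).repr (tR.b y • pK f) t = ∑ s : Fin X.m,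
        if X.act ((y : ℕ) + 1) ((s : ℕ) + 1) = (t : ℕ) + 1 then
          f (pt tR.b (xt ((s : ℕ) + 1))) (gm ((s : ℕ) + 1)) else 0 := by
      conv_lhs => rw [e1]
      rw [mmod_smul, map_sum, map_sum, Finsupp.finsetSum_apply]
      refine Finset.sum_congr rfl fun s _ => ?_
      rw [map_smul, ← mmod_smul, e2, map_smul, Finsupp.smul_apply, pt_repr, hpK, smul_eq_mul]
      split_ifs
      · rw [mul_one]
      · rw [mul_zero]
    rw [e3]
    have hz : pt tR.b (xt ((t : ℕ) + 1)) * tR.b y
        = pt tR.b (T.mul (xt ((t : ℕ) + 1)) ((y : ℕ) + 1)) := by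
      obtain ⟨h4, h5, _⟩ := h3 t t.2
      have := tR.mul ⟨xt ((t : ℕ) + 1) - 1, by omega⟩ y
      rw [← pt_succ tR.b] at this
      have e4 : xt ((t : ℕ) + 1) - 1 + 1 = xt ((t : ℕ) + 1) := by omega
      simp only [e4] at this
      exact this
    rw [hz]
    rcases h1 t y t.2 y.2 with ⟨h4, h5⟩ | ⟨s, hs, h4, h5, h6⟩
    · rw [h4, pt_zero, Coind.map_zero]
      symm
      refine Finset.sum_eq_zero fun s _ => ?_
      rw [if_neg (h5 s s.2)]
    · rw [Finset.sum_eq_single ⟨s, hs⟩]
      · rw [if_pos ((h6 s hs).2 rfl), h4, h5]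
      · intro s' _ hs'
        rw [if_neg]
        intro h7
        exact hs' (Fin.ext ((h6 s' s'.2).1 h7))
      · intro h7
        exact absurd (Finset.mem_univ _) h7
  let p : Coind K R (ℕ → K) →ₗ[R] MMod K X :=
    { toFun := pK, map_add' := map_add pK, map_smul' := hlin }
  let i : MMod K X →ₗ[R] Coind K R (ℕ → K) :=
    { toFun := fun w => Coind.ofLin
        { toFun := fun r k => cd (mb K X) (t0 k) (r • w)
          map_add' := fun r s => by funext k; rw [add_smul, map_add]; rfl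
          map_smul' := fun c r => by funext k; rw [smul_assoc, map_smul]; rfl }
      map_add' := fun v w => by
        refine Coind.ext fun r => funext fun k => ?_
        show cd (mb K X) (t0 k) (r • (v + w)) = cd (mb K X) (t0 k) (r • v) + cd (mb K X) (t0 k) (r • w)
        rw [smul_add, map_add]
      map_smul' := fun s w => by
        refine Coind.ext fun r => funext fun k => ?_
        show cd (mb K X) (t0 k) (r • s • w) = cd (mb K X) (t0 k) ((r * s) • w)
        rw [mul_smul] }
  refine inj_retract coind_injective i p fun w => ?_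
  have e5 : (pK ∘ₗ (⟨⟨fun w => i w, fun v w => map_add i v w⟩, fun c w => by
      refine Coind.ext fun r => funext fun k => ?_
      show cd (mb K X) (t0 k) (r • c • w) = c • cd (mb K X) (t0 k) (r • w)
      rw [mmod_smul, map_smul, map_smul]; rfl⟩ : MMod K X →ₗ[K] Coind K R (ℕ → K)))
      = LinearMap.id := by
    refine (mb K X).ext fun s => (mb K X).ext_elem fun t => ?_
    rw [LinearMap.comp_apply, hpK, LinearMap.id_apply]
    show cd (mb K X) (t0 (gm ((t : ℕ) + 1))) (pt tR.b (xt ((t : ℕ) + 1)) • mb K X s) = _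
    obtain ⟨h4, h5, h6, h7⟩ := h3 t t.2
    rw [← pt_succ (mb K X), smul_pt h5 s.2, cd_pt _ h6 h7, pt_succ, Basis.repr_self,
      Finsupp.single_apply]
    by_cases h8 : s = t
    · rw [if_pos h8, if_pos ((h2 t s t.2 s.2).2 (by rw [h8]))]
    · rw [if_neg h8, if_neg (fun h9 => h8 (Fin.ext ((h2 t s t.2 s.2).1 h9)))]
  exact LinearMap.congr_fun e5 w

/-- check that a module is a sum of modules `Re` -/
def freChk (T : Tab) (X : Rep T) (xt gm g0 : ℕ → ℕ) : Bool :=
  (allx T.n X.m fun y t => T.mul y (xt t) == xt (X.act y t) &&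
    (X.act y t == 0 || gm (X.act y t) == gm t)) &&
  ((List.range X.m).all fun t => X.act (xt (t + 1)) (g0 (gm (t + 1))) == t + 1 &&
    decide (xt (t + 1) ≤ T.n) && decide (g0 (gm (t + 1)) ≤ X.m) && decide (0 < xt (t + 1))) &&
  (xt 0 == 0)

theorem fre_projective {X : Rep T} {xt gm g0 : ℕ → ℕ} (h : freChk T X xt gm g0 = true) :
    Module.Projective R (MMod K X) := by
  simp only [freChk, Bool.and_eq_true, beq_iff_eq] at h
  obtain ⟨⟨h1, h2⟩, h3⟩ := h
  have h2' : ∀ t, t < X.m → X.act (xt (t + 1)) (g0 (gm (t + 1))) = t + 1 ∧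
      xt (t + 1) ≤ T.n ∧ g0 (gm (t + 1)) ≤ X.m ∧ 0 < xt (t + 1) := by
    intro t ht
    have := List.all_eq_true.1 h2 t (List.mem_range.2 ht)
    simp only [Bool.and_eq_true, beq_iff_eq, decide_eq_true_eq] at this
    exact ⟨this.1.1.1, this.1.1.2, this.1.2, this.2⟩
  let iK : MMod K X →ₗ[K] (ℕ →₀ R) := (mb K X).constr K fun t =>
    Finsupp.single (gm ((t : ℕ) + 1)) (pt tR.b (xt ((t : ℕ) + 1)))
  have hiK : ∀ t : ℕ, iK (pt (mb K X) t) = if 0 < t ∧ t ≤ X.m then
      Finsupp.single (gm t) (pt tR.b (xt t)) else 0 := by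
    intro t
    rcases t with _ | t
    · rw [pt_zero, map_zero, if_neg (fun h => absurd h.1 (lt_irrefl 0))]
    · by_cases ht : t < X.m
      · rw [if_pos ⟨Nat.succ_pos _, ht⟩]
        have : iK (mb K X ⟨t, ht⟩) = Finsupp.single (gm (t + 1)) (pt tR.b (xt (t + 1))) :=
          Basis.constr_basis _ _ _ _
        rw [← pt_succ] at this
        exact this
      · rw [if_neg (fun h => ht (by omega)), pt_gt _ (by omega), map_zero]
  have hlin : ∀ (r : R) (w : MMod K X), iK (r • w) = r • iK w := by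
    refine rlin (T := T) iK fun y w => ?_
    have e : iK ∘ₗ actR K X R (tR.b y) = (Algebra.lsmul K K (ℕ →₀ R) (tR.b y)) ∘ₗ iK := by
      refine (mb K X).ext fun t => ?_
      have ht : (t : ℕ) + 1 ≤ X.m := t.2
      have hy : (y : ℕ) + 1 ≤ T.n := y.2
      have h4 := allx_spec h1 hy ht
      simp only [Bool.and_eq_true, beq_iff_eq, Bool.or_eq_true] at h4
      obtain ⟨h5, h6, h7, h8⟩ := h2' t t.2
      rw [LinearMap.comp_apply, LinearMap.comp_apply, ← pt_succ (mb K X), ← pt_succ tR.b y,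
        actR_pt K X R hy ht, hiK, hiK,
        if_pos (⟨Nat.succ_pos _, ht⟩ : 0 < (t : ℕ) + 1 ∧ (t : ℕ) + 1 ≤ X.m)]
      have e1 : pt tR.b ((y : ℕ) + 1) * pt tR.b (xt ((t : ℕ) + 1))
          = pt tR.b (xt (X.act ((y : ℕ) + 1) ((t : ℕ) + 1))) := by
        have := tR.mul y ⟨xt ((t : ℕ) + 1) - 1, by omega⟩
        rw [← pt_succ tR.b ⟨xt ((t : ℕ) + 1) - 1, by omega⟩, ← pt_succ tR.b y] at this
        have e4 : xt ((t : ℕ) + 1) - 1 + 1 = xt ((t : ℕ) + 1) := by omega
        simp only [e4] at this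
        rw [this, h4.1]
      have e7 : (Algebra.lsmul K K (ℕ →₀ R) (pt tR.b ((y : ℕ) + 1)))
          (Finsupp.single (gm ((t : ℕ) + 1)) (pt tR.b (xt ((t : ℕ) + 1)))) =
          Finsupp.single (gm ((t : ℕ) + 1)) (pt tR.b (xt (X.act ((y : ℕ) + 1) ((t : ℕ) + 1)))) := by
        show pt tR.b ((y : ℕ) + 1) • Finsupp.single _ _ = _
        rw [Finsupp.smul_single, smul_eq_mul, e1]
      rw [e7]
      rcases h4.2 with h9 | h9
      · rw [h9, h3, if_neg (fun h => absurd h.1 (lt_irrefl 0)), pt_zero, Finsupp.single_zero]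
      · by_cases h10 : 0 < X.act ((y : ℕ) + 1) ((t : ℕ) + 1)
        · rw [if_pos ⟨h10, X.act_le hy ht⟩, h9]
        · rw [if_neg (fun h => h10 h.1)]
          have h11 : X.act ((y : ℕ) + 1) ((t : ℕ) + 1) = 0 := by omega
          rw [h11, h3, pt_zero, Finsupp.single_zero]
    exact LinearMap.congr_fun e w
  let i : MMod K X →ₗ[R] (ℕ →₀ R) :=
    { toFun := iK, map_add' := map_add iK, map_smul' := hlin }
  let p : (ℕ →₀ R) →ₗ[R] MMod K X := Finsupp.linearCombination R fun k => pt (mb K X) (g0 k)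
  refine Module.Projective.of_split i p (LinearMap.ext fun w => ?_)
  have e5 : (⟨⟨fun w => p (iK w), fun v w => by rw [map_add, map_add]⟩, fun c w => by
      have e6 : p (c • iK w) = c • p (iK w) := by
        rw [← algebraMap_smul R c (iK w), map_smul, algebraMap_smul]
      show p (iK (c • w)) = c • p (iK w)
      rw [map_smul, e6]⟩ : MMod K X →ₗ[K] MMod K X) = LinearMap.id := by
    refine (mb K X).ext fun t => ?_
    obtain ⟨h5, h6, h7, h8⟩ := h2' t t.2
    show p (iK (mb K X t)) = mb K X t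
    rw [← pt_succ (mb K X), hiK, if_pos ⟨Nat.succ_pos _, t.2⟩]
    show Finsupp.linearCombination R _ _ = _
    rw [Finsupp.linearCombination_single, smul_pt h6 h7, h5]
  exact LinearMap.congr_fun e5 w

end Hom

end Pool.Agent.N9.GS
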