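import Pool.Agent.N9.GS.EndM

/-!
A gendo-symmetric algebra of global dimension `4` whose injective dimension as a bimodule is at
most `6`.

`B` is the symmetric Nakayama algebra with 3 simple modules and Loewy length 4 (`tabB`),
`M = B ⊕ S₀ ⊕ [0 1] ⊕ S₁` (`repM`), `A = End_B(M)` has dimension 25 (`tabA`).  `A` is quasi-hereditary;
its heredity chain is a filtration of the bimodule `A` with subquotients `Uᵢ ⊗ Vᵢ` with
`idim Uᵢ + idim Vᵢ ≤ 6`.  The tables and the (co)resolutions in `Data.lean` are checked by the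
kernel.
-/

set_option autoImplicit false

open CategoryTheory TensorProduct Module MulOpposite

namespace Pool.Agent.N9.GS.Data

universe u

section

variable (K : Type u) [Field K]

/-! ### global dimension -/

/-- vertices -/
def vtx : Fin 6 → ℕ := ![1, 8, 15, 18, 22, 25]

/-- simple modules -/
def simps : Fin 6 → Rep tabA := ![simp0, simp1, simp2, simp3, simp4, simp5]

theorem simps_pd (v : Fin 6) : PD (Ak K) (MMod K (simps v)) 5 := by
  fin_cases v
  · exact pd_mono (by decide) (resChk_spec (K := K) (R := Ak K) resS0_chk)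
  · exact pd_mono (by decide) (resChk_spec (K := K) (R := Ak K) resS1_chk)
  · exact pd_mono (by decide) (resChk_spec (K := K) (R := Ak K) resS2_chk)
  · exact pd_mono (by decide) (resChk_spec (K := K) (R := Ak K) resS3_chk)
  · exact pd_mono (by decide) (resChk_spec (K := K) (R := Ak K) resS4_chk)
  · exact pd_mono (by decide) (resChk_spec (K := K) (R := Ak K) resS5_chk)

theorem vtx_eq : tabA.ids = List.ofFn vtx := by decide

theorem simpAct_one (e x : ℕ) : simpAct e x 1 = if x = e then 1 else 0 := by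
  by_cases h : x = e
  · rw [simpAct, if_pos ⟨h, rfl⟩, if_pos h]
  · rw [simpAct, if_neg (fun h2 => h h2.1), if_neg h]

theorem pd_ak (M : Type u) [AddCommGroup M] [Module (Ak K) M] : PD (Ak K) M 5 := by
  refine pd_all (K := K) (g := 4) levA_chk vtx simps vtx_eq (fun v => ?_) (fun v x => ?_)
    (simps_pd K) M
  · fin_cases v <;> rfl
  · fin_cases v <;> exact simpAct_one _ _

theorem f0 : homChk repLP_3 simp3 F3_0 = true := by decide +kernel
theorem f1 : homChk repLP_0 repLP_3 F3_1 = true := by decide +kernel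
theorem f2 : homChk repLP_24 repLP_0 F3_2 = true := by decide +kernel
theorem f3 : homChk repLP_1 repLP_24 F3_3 = true := by decide +kernel
theorem f4 : homChk repLP_5 repLP_1 F3_4 = true := by decide +kernel

theorem z1 : zeroChk repLP_5 repLP_1 repLP_24 F3_4 F3_3 = true := by decide +kernel
theorem z2 : zeroChk repLP_1 repLP_24 repLP_0 F3_3 F3_2 = true := by decide +kernel
theorem z3 : zeroChk repLP_24 repLP_0 repLP_3 F3_2 F3_1 = true := by decide +kernel
theorem z4 : zeroChk repLP_0 repLP_3 simp3 F3_1 F3_0 = true := by decide +kernel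
theorem h1 : htpChk repLP_5 repLP_1 repLP_24 F3_4 F3_3 H3_4 H3_3 = true := by decide +kernel
theorem h2 : htpChk repLP_1 repLP_24 repLP_0 F3_3 F3_2 H3_3 H3_2 = true := by decide +kernel
theorem h3 : htpChk repLP_24 repLP_0 repLP_3 F3_2 F3_1 H3_2 H3_1 = true := by decide +kernel
theorem h4 : htpChk repLP_0 repLP_3 simp3 F3_1 F3_0 H3_1 H3_0 = true := by decide +kernel
theorem i0 : idChk simp3 repLP_3 H3_0 F3_0 = true := by decide +kernel
theorem i4 : idChk repLP_5 repLP_1 F3_4 H3_4 = true := by decide +kernel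
theorem r4 : radChk repLP_5 repLP_1 F3_4 1 xk3 kk3 = true := rad3_chk

theorem proj_of_res {l : List (Stg tabA)} {U : Rep tabA} (h : resChk U l = true) (s : Stg tabA)
    (hs : s ∈ l) : Module.Projective (Ak K) (MMod K s.I) := by
  have key : ∀ (l : List (Stg tabA)) (Y P : Rep tabA) (F H : Mt), rsChk Y P F H l = true →
      ∀ s ∈ l, Module.Projective (Ak K) (MMod K s.I) := by
    intro l
    induction l with
    | nil => intro _ _ _ _ _ s hs; simp at hs
    | cons a l ih =>
      intro Y P F H h s hs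
      simp only [rsChk, Bool.and_eq_true] at h
      rcases List.mem_cons.1 hs with rfl | hs
      · exact fre_projective h.1.2
      · exact ih _ _ _ _ h.2 s hs
  match l, h, hs with
  | a :: l, h, hs =>
    simp only [resChk, Bool.and_eq_true] at h
    rcases List.mem_cons.1 hs with rfl | hs
    · exact fre_projective h.1.2
    · exact key l _ _ _ _ h.2 s hs

theorem p0 : Module.Projective (Ak K) (MMod K repLP_3) :=
  proj_of_res K resS3_chk _ (List.mem_cons_self)
theorem p1 : Module.Projective (Ak K) (MMod K repLP_0) :=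
  proj_of_res K resS3_chk _ (List.mem_cons_of_mem _ List.mem_cons_self)
theorem p2 : Module.Projective (Ak K) (MMod K repLP_24) :=
  proj_of_res K resS3_chk _ (List.mem_cons_of_mem _ (List.mem_cons_of_mem _ List.mem_cons_self))

theorem not_pd : ¬ PD (Ak K) (MMod K simp3) 4 := by
  intro h
  have := p0 K
  have := p1 K
  have := p2 K
  have e0 : PD (Ak K) (LinearMap.range (hom K (Ak K) F3_0 f0)) 4 :=
    pd_range_of _ (surj_of_chk f0 i0) h
  have e1 : PD (Ak K) (LinearMap.range (hom K (Ak K) F3_1 f1)) 3 :=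
    pd_range_left (n := 2) _ _ (exact_of_chk f1 f0 z4 h4) e0
  have e2 : PD (Ak K) (LinearMap.range (hom K (Ak K) F3_2 f2)) 2 :=
    pd_range_left (n := 1) _ _ (exact_of_chk f2 f1 z3 h3) e1
  have e3 : PD (Ak K) (LinearMap.range (hom K (Ak K) F3_3 f3)) 1 :=
    pd_range_left (n := 0) _ _ (exact_of_chk f3 f2 z2 h2) e2
  exact not_pd_one f4 f3 z1 h1 i4 r4 e3

/-! ### the injective dimension of the bimodule -/

attribute [local instance] TensorProduct.Algebra.module

theorem id_bimod : ID (Ak K ⊗[K] (Ak K)ᵐᵒᵖ) (Ak K) 7 := by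
  have t0 : ID (Ak K ⊗[K] (Ak K)ᵐᵒᵖ) (idl K (Ak K) (sI 0) idl0_chk) 7 :=
    id_bot _ _ (by decide +kernel) 7
  have t1 := id_step_idl (K := K) (A := Ak K) (p := 2) (q := 4) (N := 6) idl1_chk idl0_chk
    step1_chk (coresChk_spec corU1_chk) (coresChk_spec corV1_chk) (by norm_num) t0
  have t2 := id_step_idl (K := K) (A := Ak K) (p := 4) (q := 2) (N := 6) idl2_chk idl1_chk
    step2_chk (coresChk_spec corU2_chk) (coresChk_spec corV2_chk) (by norm_num) t1
  have t3 := id_step_idl (K := K) (A := Ak K) (p := 3) (q := 3) (N := 6) idl3_chk idl2_chk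
    step3_chk (coresChk_spec corU3_chk) (coresChk_spec corV3_chk) (by norm_num) t2
  have t4 := id_step_idl (K := K) (A := Ak K) (p := 2) (q := 3) (N := 6) idl4_chk idl3_chk
    step4_chk (coresChk_spec corU4_chk) (coresChk_spec corV4_chk) (by norm_num) t3
  have t5 := id_step_idl (K := K) (A := Ak K) (p := 3) (q := 2) (N := 6) idl5_chk idl4_chk
    step5_chk (coresChk_spec corU5_chk) (coresChk_spec corV5_chk) (by norm_num) t4
  have t6 := id_step_idl (K := K) (A := Ak K) (p := 2) (q := 2) (N := 6) idl6_chk idl5_chk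
    step6_chk (coresChk_spec corU6_chk) (coresChk_spec corV6_chk) (by norm_num) t5
  exact id_top _ idl6_chk (by decide +kernel) t6

/-! ### `B` is symmetric -/

/-- the symmetrizing form of `B` -/
noncomputable def lam : Bk K →ₗ[K] K :=
  cd (taB K tabB) 4 + cd (taB K tabB) 8 + cd (taB K tabB) 12

/-- indicator of the socle -/
def ind (z : ℕ) : ℕ := if z = 4 ∨ z = 8 ∨ z = 12 then 1 else 0

theorem lam_pt (z : ℕ) : lam K (pt (taB K tabB) z) = (ind z : K) := by
  have h4 : 4 ≤ tabB.n := by decide
  have h8 : 8 ≤ tabB.n := by decide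
  have h12 : 12 ≤ tabB.n := by decide
  rw [lam, LinearMap.add_apply, LinearMap.add_apply, cd_pt _ (by norm_num) h4,
    cd_pt _ (by norm_num) h8, cd_pt _ (by norm_num) h12, ind]
  by_cases h : z = 4
  · simp [h]
  · by_cases h' : z = 8
    · simp [h']
    · by_cases h'' : z = 12
      · simp [h'']
      · simp [h, h', h'']

theorem symChk : ((allx 12 12 fun x y => ind (tabB.mul x y) == ind (tabB.mul y x)) &&
    (allx 11 11 fun x z => ind (tabB.mul (z + 1) (dualB (x + 1))) == if z = x then 1 else 0) &&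
    (List.range 12).all fun x => decide (dualB (x + 1) ≤ 12)) = true := by decide +kernel

theorem mulB (x y : Fin tabB.n) : taB K tabB x * taB K tabB y =
    pt (taB K tabB) (tabB.mul ((x : ℕ) + 1) ((y : ℕ) + 1)) := taMul_basis K tabB x y

theorem lam_comm (a b : Bk K) : lam K (a * b) = lam K (b * a) := by
  have h : (LinearMap.mul K (Bk K)).compr₂ (lam K) =
      ((LinearMap.mul K (Bk K)).compr₂ (lam K)).flip := by
    refine (taB K tabB).ext fun x => (taB K tabB).ext fun y => ?_
    show lam K (taB K tabB x * taB K tabB y) = lam K (taB K tabB y * taB K tabB x)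
    have h1 := symChk
    simp only [Bool.and_eq_true] at h1
    have h2 := allx_spec h1.1.1 (show (x : ℕ) + 1 ≤ 12 from x.2) (show (y : ℕ) + 1 ≤ 12 from y.2)
    rw [mulB, mulB, lam_pt, lam_pt, beq_iff_eq.1 h2]
  exact LinearMap.congr_fun (LinearMap.congr_fun h a) b

theorem lam_nondeg (a : Bk K) (h : ∀ b, lam K (a * b) = 0) : a = 0 := by
  apply (taB K tabB).ext_elem
  intro x
  have h1 := symChk
  simp only [Bool.and_eq_true] at h1
  have hd : dualB ((x : ℕ) + 1) ≤ tabB.n := of_decide_eq_true
    (List.all_eq_true.1 h1.2 x (List.mem_range.2 x.2))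
  have e : (lam K) ∘ₗ ((LinearMap.mul K (Bk K)).flip (pt (taB K tabB) (dualB ((x : ℕ) + 1))))
      = (taB K tabB).coord x := by
    refine (taB K tabB).ext fun z => ?_
    have h2 := allx_spec h1.1.2 (show (x : ℕ) ≤ 11 from Nat.le_of_lt_succ x.2)
      (show (z : ℕ) ≤ 11 from Nat.le_of_lt_succ z.2)
    show lam K (taB K tabB z * pt (taB K tabB) (dualB ((x : ℕ) + 1))) = _
    have e2 : taB K tabB z * pt (taB K tabB) (dualB ((x : ℕ) + 1))
        = pt (taB K tabB) (tabB.mul ((z : ℕ) + 1) (dualB ((x : ℕ) + 1))) := by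
      rw [← pt_succ (taB K tabB) z]
      exact taMul_pt K tabB_chk z.2 hd
    rw [e2, lam_pt, beq_iff_eq.1 h2, Basis.coord_apply, Basis.repr_self, Finsupp.single_apply]
    by_cases h3 : (z : ℕ) = x
    · rw [if_pos h3, if_pos (Fin.ext h3)]; simp
    · rw [if_neg h3, if_neg (fun h4 => h3 (congrArg Fin.val h4))]; simp
  have h5 : lam K (a * pt (taB K tabB) (dualB ((x : ℕ) + 1))) = (taB K tabB).coord x a :=
    LinearMap.congr_fun e a
  rw [map_zero, Finsupp.zero_apply, ← Basis.coord_apply, ← h5, h]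

/-! ### `M` is a generator -/

/-- the regular module -/
noncomputable def kap : MMod K repB →ₗ[Bk K] Bk K where
  toFun := (mb K repB).constr K fun i => pt (taB K tabB) ((i : ℕ) + 1)
  map_add' := map_add _
  map_smul' := by
    have hk : ∀ i, i ≤ 12 → (mb K repB).constr K (fun i : Fin repB.m => pt (taB K tabB)
        ((i : ℕ) + 1)) (pt (mb K repB) i) = pt (taB K tabB) i := by
      intro i hi
      rcases i with _ | i
      · rw [pt_zero, pt_zero, map_zero]
      · have h : (mb K repB).constr K (fun i : Fin repB.m => pt (taB K tabB) ((i : ℕ) + 1))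
            (mb K repB ⟨i, hi⟩) = pt (taB K tabB) (i + 1) := Basis.constr_basis _ _ _ _
        rw [← pt_succ] at h
        exact h
    refine rlin (T := tabB) ((mb K repB).constr K fun i : Fin repB.m => pt (taB K tabB)
      ((i : ℕ) + 1)) fun x w => ?_
    have e : ((mb K repB).constr K fun i : Fin repB.m => pt (taB K tabB) ((i : ℕ) + 1)) ∘ₗ
        (actR K repB (Bk K) (TabAlg.b (K := K) (R := Bk K) (T := tabB) x)) =
        (LinearMap.mul K (Bk K) (TabAlg.b (K := K) (R := Bk K) (T := tabB) x)) ∘ₗ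
        ((mb K repB).constr K fun i : Fin repB.m => pt (taB K tabB) ((i : ℕ) + 1)) := by
      refine (mb K repB).ext fun i => ?_
      have hx : (x : ℕ) + 1 ≤ tabB.n := x.2
      have hi : (i : ℕ) + 1 ≤ repB.m := i.2
      have h1 : repB.act ((x : ℕ) + 1) ((i : ℕ) + 1) ≤ 12 := repB.act_le hx hi
      rw [LinearMap.comp_apply, LinearMap.comp_apply, ← pt_succ (mb K repB),
        ← pt_succ (TabAlg.b (K := K) (R := Bk K) (T := tabB)) x, actR_pt K repB (Bk K) hx hi,
        hk _ h1, hk _ (show (i : ℕ) + 1 ≤ 12 from hi)]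
      exact (taMul_pt K tabB_chk hx (show (i : ℕ) + 1 ≤ tabB.n from hi)).symm
    exact LinearMap.congr_fun e w

theorem kap_pt {i : ℕ} (hi : i ≤ 12) : kap K (pt (mb K repB) i) = pt (taB K tabB) i := by
  rcases i with _ | i
  · rw [pt_zero, pt_zero, map_zero]
  · have h : (mb K repB).constr K (fun i : Fin repB.m => pt (taB K tabB) ((i : ℕ) + 1))
        (mb K repB ⟨i, hi⟩) = pt (taB K tabB) (i + 1) := Basis.constr_basis _ _ _ _
    rw [← pt_succ] at h
    exact h

theorem pr_chk : homChk repM repB prMB = true := by decide +kernel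

/-- the generating element -/
noncomputable def w0 : Mk K := pt (mb K repM) 1 + pt (mb K repM) 5 + pt (mb K repM) 9

theorem generator : ∃ (i : Bk K →ₗ[Bk K] Mk K) (p : Mk K →ₗ[Bk K] Bk K), ∀ b, p (i b) = b := by
  refine ⟨LinearMap.toSpanSingleton (Bk K) (Mk K) (w0 K), kap K ∘ₗ hom K (Bk K) prMB pr_chk,
    fun b => ?_⟩
  have h1 : (kap K ∘ₗ hom K (Bk K) prMB pr_chk) (w0 K) = 1 := by
    have e : ∀ j, ent repM.m prMB j = [(j, 1)] → j ≤ 12 →
        (kap K ∘ₗ hom K (Bk K) prMB pr_chk) (pt (mb K repM) j) = pt (taB K tabB) j := by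
      intro j hj hj2
      rw [LinearMap.comp_apply, hom_apply, mat_pt, hj, ev_single, kap_pt K hj2]
    rw [w0, map_add, map_add, e 1 (by decide) (by norm_num), e 5 (by decide) (by norm_num),
      e 9 (by decide) (by norm_num)]
    have h2 := (bTab K).one
    rw [h2]
    show _ = (([1, 5, 9] : List ℕ).map (pt (taB K tabB))).sum
    simp [add_assoc]
  rw [LinearMap.toSpanSingleton_apply, map_smul, h1, smul_eq_mul, mul_one]

end

end Pool.Agent.N9.GS.Data
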