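import Pool.Agent.N9.GS.Hom

/-!
Certificates for injective coresolutions and projective resolutions.
-/

set_option autoImplicit false

open CategoryTheory TensorProduct Module

namespace Pool.Agent.N9.GS

universe u

/-- one term `I` of a resolution, with the data `xt gm t0` describing it as a sum of projective or
injective modules, the differential `F` and the homotopy `H` -/
structure Stg (T : Tab) where
  I : Rep T
  xt : ℕ → ℕ
  gm : ℕ → ℕ
  t0 : ℕ → ℕ
  F : Mt
  H : Mt

/-- check the tail of a coresolution; `F : P → Y`, `H : Y → P` -/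
def corChk {T : Tab} (P Y : Rep T) (F H : Mt) : List (Stg T) → Bool
  | [] => idChk Y P H F
  | s :: l => homChk Y s.I s.F && zeroChk P Y s.I F s.F && htpChk P Y s.I F s.F H s.H &&
      cofChk T s.I s.xt s.gm s.t0 && corChk Y s.I s.F s.H l

/-- check a coresolution of `U` -/
def coresChk {T : Tab} (U : Rep T) : List (Stg T) → Bool
  | [] => false
  | s :: l => homChk U s.I s.F && idChk U s.I s.F s.H && cofChk T s.I s.xt s.gm s.t0 &&
      corChk U s.I s.F s.H l

/-- check the tail of a resolution; `F : P → Y`, `H : Y → P` -/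
def rsChk {T : Tab} (Y P : Rep T) (F H : Mt) : List (Stg T) → Bool
  | [] => idChk P Y F H
  | s :: l => homChk s.I P s.F && zeroChk s.I P Y s.F F && htpChk s.I P Y s.F F s.H H &&
      freChk T s.I s.xt s.gm s.t0 && rsChk P s.I s.F s.H l

/-- check a resolution of `U` -/
def resChk {T : Tab} (U : Rep T) : List (Stg T) → Bool
  | [] => false
  | s :: l => homChk s.I U s.F && idChk U s.I s.H s.F && freChk T s.I s.xt s.gm s.t0 &&
      rsChk U s.I s.F s.H l

section

variable {K : Type u} [Field K] {T : Tab} {R : Type u} [Ring R] [Algebra K R]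
  [tR : TabAlg K R T]

theorem corChk_spec (l : List (Stg T)) : ∀ (P Y : Rep T) (F H : Mt) (hF : homChk P Y F = true),
    Module.Injective R (MMod K Y) → corChk P Y F H l = true →
    ID R (LinearMap.range (hom K R F hF)) (l.length + 1) := by
  induction l with
  | nil =>
    intro P Y F H hF hY h
    exact id_range_surj _ (surj_of_chk hF h) hY
  | cons s l ih =>
    intro P Y F H hF hY h
    simp only [corChk, Bool.and_eq_true] at h
    obtain ⟨⟨⟨⟨h1, h2⟩, h3⟩, h4⟩, h5⟩ := h
    have h6 := ih Y s.I s.F s.H h1 (cofree_injective h4) h5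
    exact id_range _ _ (exact_of_chk hF h1 h2 h3) hY h6

theorem coresChk_spec {U : Rep T} {l : List (Stg T)} (h : coresChk U l = true) :
    ID R (MMod K U) l.length := by
  match l, h with
  | s :: l, h =>
    simp only [coresChk, Bool.and_eq_true] at h
    obtain ⟨⟨⟨h1, h2⟩, h3⟩, h4⟩ := h
    exact id_of_range _ (inj_of_chk h1 h2) (corChk_spec l U s.I s.F s.H h1 (cofree_injective h3) h4)

theorem rsChk_spec (l : List (Stg T)) : ∀ (Y P : Rep T) (F H : Mt) (hF : homChk P Y F = true),
    Module.Projective R (MMod K P) → rsChk Y P F H l = true →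
    PD R (LinearMap.range (hom K R F hF)) (l.length + 1) := by
  induction l with
  | nil =>
    intro Y P F H hF hP h
    exact pd_range_inj _ (inj_of_chk hF h)
  | cons s l ih =>
    intro Y P F H hF hP h
    simp only [rsChk, Bool.and_eq_true] at h
    obtain ⟨⟨⟨⟨h1, h2⟩, h3⟩, h4⟩, h5⟩ := h
    have h6 := ih P s.I s.F s.H h1 (fre_projective h4) h5
    exact pd_range _ _ (exact_of_chk h1 hF h2 h3) h6

theorem resChk_spec {U : Rep T} {l : List (Stg T)} (h : resChk U l = true) :
    PD R (MMod K U) l.length := by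
  match l, h with
  | s :: l, h =>
    simp only [resChk, Bool.and_eq_true] at h
    obtain ⟨⟨⟨h1, h2⟩, h3⟩, h4⟩ := h
    exact pd_of_range _ (surj_of_chk h1 h2)
      (rsChk_spec l U s.I s.F s.H h1 (fre_projective h3) h4)

/-- check that `F : X → Y` has no retraction: the image of the element `c` is a combination of
elements `x • k` where no element `x • s` of `X` equals `c` -/
def radChk {T : Tab} (X Y : Rep T) (F : Mt) (c : ℕ) (xk kk : ℕ → ℕ) : Bool :=
  ((ent X.m F c).all fun p => Y.act (xk p.1) (kk p.1) == p.1 && decide (kk p.1 ≤ Y.m) &&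
    decide (xk p.1 ≤ T.n) && (List.range (X.m + 1)).all fun s => X.act (xk p.1) s != c) &&
  decide (0 < c) && decide (c ≤ X.m)

theorem cd_smul_zero {X : Rep T} {x c : ℕ} (hx : x ≤ T.n) (hc : 0 < c) (hc' : c ≤ X.m)
    (h : ((List.range (X.m + 1)).all fun s => X.act x s != c) = true) (w : MMod K X) :
    cd (mb K X) c (pt (TabAlg.b (K := K) (R := R) (T := T)) x • w) = 0 := by
  have e : (cd (mb K X) c) ∘ₗ (actR K X R (pt tR.b x)) = 0 := by
    refine (mb K X).ext fun s => ?_
    have hs : (s : ℕ) + 1 ≤ X.m := s.2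
    have h1 := List.all_eq_true.1 h ((s : ℕ) + 1) (List.mem_range.2 (by omega))
    rw [LinearMap.comp_apply, ← pt_succ (mb K X), actR_pt K X R hx hs, cd_pt _ hc hc',
      if_neg (bne_iff_ne.1 h1)]
    rfl
  exact LinearMap.congr_fun e w

theorem no_retract {X Y : Rep T} {F : Mt} {c : ℕ} {xk kk : ℕ → ℕ} (hF : homChk X Y F = true)
    (h : radChk X Y F c xk kk = true) (ρ : MMod K Y →ₗ[R] MMod K X)
    (hρ : ∀ w, ρ (hom K R F hF w) = w) : False := by
  simp only [radChk, Bool.and_eq_true, decide_eq_true_eq] at h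
  obtain ⟨⟨h1, h2⟩, h3⟩ := h
  have h4 := hρ (pt (mb K X) c)
  rw [hom_apply, mat_pt] at h4
  have h5 : ∀ l : List (ℕ × ℤ), (l.all fun p => Y.act (xk p.1) (kk p.1) == p.1 &&
      decide (kk p.1 ≤ Y.m) && decide (xk p.1 ≤ T.n) &&
      (List.range (X.m + 1)).all fun s => X.act (xk p.1) s != c) = true →
      cd (mb K X) c (ρ (ev (mb K Y) l)) = 0 := by
    intro l hl
    induction l with
    | nil => rw [ev_nil, map_zero, map_zero]
    | cons p l ih =>
      rw [List.all_cons, Bool.and_eq_true] at hl
      obtain ⟨hp, hl⟩ := hl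
      simp only [Bool.and_eq_true, decide_eq_true_eq, beq_iff_eq] at hp
      obtain ⟨⟨⟨hp1, hp2⟩, hp3⟩, hp4⟩ := hp
      have e1 : ρ (((p.2 : ℤ) : K) • pt (mb K Y) p.1) = ((p.2 : ℤ) : K) • ρ (pt (mb K Y) p.1) := by
        rw [← algebraMap_smul R (((p.2 : ℤ) : K)) (pt (mb K Y) p.1), map_smul, algebraMap_smul]
      rw [ev_cons, map_add, map_add, ih hl, e1, map_smul, add_zero]
      have e2 : pt (mb K Y) p.1 = pt tR.b (xk p.1) • pt (mb K Y) (kk p.1) := by
        rw [smul_pt hp3 hp2, hp1]
      rw [e2, map_smul, cd_smul_zero hp3 h2 h3 hp4, smul_zero]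
  have h6 := h5 _ h1
  rw [h4, cd_pt _ h2 h3, if_pos rfl] at h6
  exact one_ne_zero h6

/-- lower bound for the projective dimension from a resolution whose last map does not split -/
theorem not_pd_one {X Y Z : Rep T} {F G H H' : Mt} {c : ℕ} {xk kk : ℕ → ℕ}
    (hF : homChk X Y F = true) (hG : homChk Y Z G = true) (h0 : zeroChk X Y Z F G = true)
    (h1 : htpChk X Y Z F G H H' = true) (h2 : idChk X Y F H = true)
    (h : radChk X Y F c xk kk = true) : ¬ PD R (LinearMap.range (hom K R G hG)) 1 := by
  intro h3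
  have h4 := proj_of_pd h3
  obtain ⟨s, hs⟩ := Module.projective_lifting_property (hom K R G hG).rangeRestrict
    (LinearMap.id : LinearMap.range (hom K R G hG) →ₗ[R] _) (LinearMap.surjective_rangeRestrict _)
  have hex := exact_of_chk (K := K) (R := R) hF hG h0 h1
  have hinj := inj_of_chk (K := K) (R := R) hF h2
  have h5 : ∀ w : MMod K Y, w - s ((hom K R G hG).rangeRestrict w) ∈
      LinearMap.range (hom K R F hF) := by
    intro w
    rw [LinearMap.mem_range]
    apply (hex _).1
    have h6 : (hom K R G hG) (s ((hom K R G hG).rangeRestrict w)) = hom K R G hG w :=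
      congrArg Subtype.val (LinearMap.congr_fun hs ((hom K R G hG).rangeRestrict w))
    rw [map_sub, h6, sub_self]
  let q : MMod K Y →ₗ[R] LinearMap.range (hom K R F hF) :=
    LinearMap.codRestrict _ (LinearMap.id - s ∘ₗ (hom K R G hG).rangeRestrict) h5
  let ρ : MMod K Y →ₗ[R] MMod K X := (LinearEquiv.ofInjective _ hinj).symm.toLinearMap ∘ₗ q
  refine no_retract hF h ρ fun w => ?_
  apply hinj
  have h7 : hom K R F hF (ρ (hom K R F hF w)) = (q (hom K R F hF w) : MMod K Y) :=
    congrArg Subtype.val ((LinearEquiv.ofInjective _ hinj).apply_symm_apply (q (hom K R F hF w)))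
  rw [h7]
  show hom K R F hF w - s ((hom K R G hG).rangeRestrict (hom K R F hF w)) = _
  have h8 : (hom K R G hG).rangeRestrict (hom K R F hF w) = 0 :=
    Subtype.ext ((hex _).2 ⟨w, rfl⟩)
  rw [h8, map_zero, sub_zero]

end

end Pool.Agent.N9.GS
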