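import Pool.Agent.N9.GS.Basic

/-!
Coinduced modules; the injective (projective) dimension of `U ⊗ V` over `A ⊗ C`.
-/

set_option autoImplicit false

open CategoryTheory TensorProduct

namespace Pool.Agent.N9.GS

universe u

section Coind

variable (K R W : Type u) [Field K] [Ring R] [Algebra K R] [AddCommGroup W] [Module K W]

/-- the coinduced module `Hom_K(R, W)` -/
def Coind : Type u := R →ₗ[K] W

instance : AddCommGroup (Coind K R W) := inferInstanceAs (AddCommGroup (R →ₗ[K] W))
instance : Module K (Coind K R W) := inferInstanceAs (Module K (R →ₗ[K] W))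
instance : FunLike (Coind K R W) R W := inferInstanceAs (FunLike (R →ₗ[K] W) R W)

variable {K R W}

@[ext] theorem Coind.ext {f g : Coind K R W} (h : ∀ x, f x = g x) : f = g := DFunLike.ext _ _ h

theorem Coind.add_apply (f g : Coind K R W) (x : R) : (f + g) x = f x + g x := rfl
theorem Coind.zero_apply (x : R) : (0 : Coind K R W) x = 0 := rfl
theorem Coind.ksmul_apply (k : K) (f : Coind K R W) (x : R) : (k • f) x = k • f x := rfl
theorem Coind.map_add (f : Coind K R W) (x y : R) : f (x + y) = f x + f y :=
  LinearMap.map_add (f : R →ₗ[K] W) x y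
theorem Coind.map_zero (f : Coind K R W) : f 0 = 0 :=
  LinearMap.map_zero (f : R →ₗ[K] W)
theorem Coind.map_smul (f : Coind K R W) (k : K) (x : R) : f (k • x) = k • f x :=
  LinearMap.map_smul (f : R →ₗ[K] W) k x

/-- the underlying linear map -/
def Coind.toLin (f : Coind K R W) : R →ₗ[K] W := f
/-- a linear map as an element of the coinduced module -/
def Coind.ofLin (f : R →ₗ[K] W) : Coind K R W := f

theorem Coind.ofLin_apply (f : R →ₗ[K] W) (x : R) : Coind.ofLin f x = f x := rfl
theorem Coind.toLin_apply (f : Coind K R W) (x : R) : f.toLin x = f x := rfl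

instance : SMul R (Coind K R W) := ⟨fun a f => Coind.ofLin (f.toLin.comp (LinearMap.mulRight K a))⟩

theorem Coind.smul_apply (a : R) (f : Coind K R W) (x : R) : (a • f) x = f (x * a) := rfl

instance : Module R (Coind K R W) where
  one_smul f := by ext x; rw [Coind.smul_apply, mul_one]
  mul_smul a b f := by ext x; rw [Coind.smul_apply, Coind.smul_apply, Coind.smul_apply, mul_assoc]
  smul_zero a := by ext x; rfl
  zero_smul f := by ext x; rw [Coind.smul_apply, mul_zero, Coind.map_zero, Coind.zero_apply]
  smul_add a f g := by ext x; rfl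
  add_smul a b f := by
    ext x
    rw [Coind.smul_apply, mul_add, Coind.map_add, Coind.add_apply, Coind.smul_apply,
      Coind.smul_apply]

instance : IsScalarTower K R (Coind K R W) := ⟨fun k a f => by
  ext x
  rw [Coind.smul_apply, mul_smul_comm, Coind.map_smul, Coind.ksmul_apply, Coind.smul_apply]⟩

theorem coind_injective : Module.Injective R (Coind K R W) := by
  constructor
  intro X Y _ _ _ _ f hf g
  let : Module K X := Module.compHom X (algebraMap K R)
  let : Module K Y := Module.compHom Y (algebraMap K R)
  have hX : ∀ (k : K) (x : X), k • x = algebraMap K R k • x := fun _ _ => rfl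
  have hY : ∀ (k : K) (x : Y), k • x = algebraMap K R k • x := fun _ _ => rfl
  let f' : X →ₗ[K] Y :=
    { toFun := f, map_add' := f.map_add, map_smul' := fun k x => by
        rw [hX, f.map_smul]; rfl }
  let φ : X →ₗ[K] W :=
    { toFun := fun x => g x 1
      map_add' := fun x y => by rw [g.map_add, Coind.add_apply]
      map_smul' := fun k x => by
        rw [hX, g.map_smul, Coind.smul_apply, one_mul, Algebra.algebraMap_eq_smul_one,
          Coind.map_smul]; rfl }
  obtain ⟨s, hs⟩ := f'.exists_leftInverse_of_injective (LinearMap.ker_eq_bot.2 hf)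
  let ψ : Y →ₗ[K] W := φ.comp s
  have hψ : ∀ x, ψ (f x) = g x 1 := fun x => by
    have : s (f' x) = x := LinearMap.congr_fun hs x
    show φ (s (f' x)) = _
    rw [this]; rfl
  refine ⟨{ toFun := fun y => Coind.ofLin
              { toFun := fun a => ψ (a • y)
                map_add' := fun a b => by rw [add_smul, ψ.map_add]
                map_smul' := fun k a => by
                  rw [← algebraMap_smul R k a, smul_assoc, ← hY, ψ.map_smul]; rfl }
            map_add' := fun y z => by
              ext a
              rw [Coind.add_apply]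
              show ψ (a • (y + z)) = ψ (a • y) + ψ (a • z)
              rw [smul_add, ψ.map_add]
            map_smul' := fun b y => by
              ext a
              rw [RingHom.id_apply, Coind.smul_apply]
              show ψ (a • b • y) = ψ ((a * b) • y)
              rw [mul_smul] }, fun x => ?_⟩
  ext a
  show ψ (a • f x) = g x a
  rw [← f.map_smul, hψ, g.map_smul, Coind.smul_apply, one_mul]

/-- the embedding of a module in the coinduced module -/
def toCoind (K R U : Type u) [Field K] [Ring R] [Algebra K R] [AddCommGroup U] [Module K U]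
    [Module R U] [IsScalarTower K R U] : U →ₗ[R] Coind K R U where
  toFun w := Coind.ofLin
    { toFun := fun a => a • w
      map_add' := fun a b => add_smul a b w
      map_smul' := fun k a => smul_assoc k a w }
  map_add' w w' := by ext a; exact smul_add a w w'
  map_smul' b w := by ext a; exact (mul_smul a b w).symm

theorem toCoind_apply (U : Type u) [AddCommGroup U] [Module K U]
    [Module R U] [IsScalarTower K R U] (w : U) (a : R) : toCoind K R U w a = a • w := rfl

theorem toCoind_injective (U : Type u) [AddCommGroup U] [Module K U]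
    [Module R U] [IsScalarTower K R U] : Function.Injective (toCoind K R U) := by
  intro w w' h
  have := DFunLike.congr_fun h 1
  rwa [toCoind_apply, toCoind_apply, one_smul, one_smul] at this

instance coind_finite [Module.Finite K R] [Module.Finite K W] : Module.Finite K (Coind K R W) :=
  inferInstanceAs (Module.Finite K (R →ₗ[K] W))

end Coind

section TMod

variable (K A C U V : Type u) [Field K] [Ring A] [Algebra K A] [Ring C] [Algebra K C]
  [AddCommGroup U] [Module K U] [Module A U] [IsScalarTower K A U]
  [AddCommGroup V] [Module K V] [Module C V] [IsScalarTower K C V]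

/-- the algebra map `A ⊗ C → End(U ⊗ V)` -/
noncomputable def tHom : A ⊗[K] C →ₐ[K] Module.End K (U ⊗[K] V) :=
  (Module.endTensorEndAlgHom (R := K) (S := K) (A := K) (M := U) (N := V)).comp
    (Algebra.TensorProduct.map (Algebra.lsmul K K U) (Algebra.lsmul K K V))

/-- the `A ⊗ C`-module `U ⊗ V` -/
@[instance_reducible]
noncomputable def tmod : Module (A ⊗[K] C) (U ⊗[K] V) :=
  Module.compHom (U ⊗[K] V) (tHom K A C U V).toRingHom

attribute [local instance] tmod

variable {K A C U V}

theorem tmod_smul (a : A) (c : C) (u : U) (v : V) :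
    (a ⊗ₜ[K] c) • (u ⊗ₜ[K] v) = (a • u) ⊗ₜ[K] (c • v) := rfl

instance tmod_tower : IsScalarTower K (A ⊗[K] C) (U ⊗[K] V) := ⟨fun k r w => by
  show (tHom K A C U V) (k • r) w = k • (tHom K A C U V r w)
  rw [map_smul]; rfl⟩

end TMod

section TMap

variable {K A C : Type u} [Field K] [Ring A] [Algebra K A] [Ring C] [Algebra K C]
  {U U' U'' V V' V'' : Type u}
  [AddCommGroup U] [Module K U] [Module A U] [IsScalarTower K A U]
  [AddCommGroup U'] [Module K U'] [Module A U'] [IsScalarTower K A U']
  [AddCommGroup U''] [Module K U''] [Module A U''] [IsScalarTower K A U'']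
  [AddCommGroup V] [Module K V] [Module C V] [IsScalarTower K C V]
  [AddCommGroup V'] [Module K V'] [Module C V'] [IsScalarTower K C V']
  [AddCommGroup V''] [Module K V''] [Module C V''] [IsScalarTower K C V'']

attribute [local instance] tmod

variable (K) in
/-- an `R`-linear map as a `K`-linear map -/
def resK (f : U →ₗ[A] U') : U →ₗ[K] U' where
  toFun := f
  map_add' := f.map_add
  map_smul' k u := by
    rw [← algebraMap_smul A k u, f.map_smul, algebraMap_smul, RingHom.id_apply]

theorem resK_apply (f : U →ₗ[A] U') (u : U) : resK K f u = f u := rfl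

/-- additive maps that commute with pure tensors are linear over the tensor product -/
theorem tlin_aux {M N : Type u} [AddCommGroup M] [Module (A ⊗[K] C) M] [AddCommGroup N]
    [Module (A ⊗[K] C) N] (f : M →+ N)
    (h : ∀ (a : A) (c : C) (m : M), f ((a ⊗ₜ[K] c) • m) = (a ⊗ₜ[K] c) • f m)
    (r : A ⊗[K] C) (m : M) : f (r • m) = r • f m := by
  induction r using TensorProduct.induction_on with
  | zero => rw [zero_smul, zero_smul, map_zero]
  | tmul a c => exact h a c m
  | add r s hr hs => rw [add_smul, map_add, hr, hs, add_smul]

/-- the tensor product of two linear maps -/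
noncomputable def tmap (f : U →ₗ[A] U') (g : V →ₗ[C] V') :
    (U ⊗[K] V) →ₗ[A ⊗[K] C] (U' ⊗[K] V') where
  toFun := TensorProduct.map (resK K f) (resK K g)
  map_add' := map_add _
  map_smul' r w := by
    rw [RingHom.id_apply]
    refine tlin_aux (TensorProduct.map (resK K f) (resK K g)).toAddMonoidHom ?_ r w
    intro a c m
    show TensorProduct.map (resK K f) (resK K g) ((a ⊗ₜ[K] c) • m)
      = (a ⊗ₜ[K] c) • TensorProduct.map (resK K f) (resK K g) m
    induction m using TensorProduct.induction_on with
    | zero => rw [smul_zero, map_zero, smul_zero]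
    | tmul u v =>
      rw [tmod_smul, TensorProduct.map_tmul, TensorProduct.map_tmul, tmod_smul, resK_apply,
        resK_apply, f.map_smul, g.map_smul]; rfl
    | add m n hm hn => rw [smul_add, map_add, hm, hn, map_add, smul_add]

theorem tmap_tmul (f : U →ₗ[A] U') (g : V →ₗ[C] V') (u : U) (v : V) :
    tmap (K := K) f g (u ⊗ₜ v) = f u ⊗ₜ g v := rfl

theorem tmap_apply (f : U →ₗ[A] U') (g : V →ₗ[C] V') (w : U ⊗[K] V) :
    tmap (K := K) f g w = TensorProduct.map (resK K f) (resK K g) w := rfl

theorem resK_id : resK K (LinearMap.id : U →ₗ[A] U) = LinearMap.id := rfl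

theorem tmap_left_injective (f : U →ₗ[A] U') (hf : Function.Injective f) :
    Function.Injective (tmap (K := K) f (LinearMap.id : V →ₗ[C] V)) := by
  have := Module.Flat.rTensor_preserves_injective_linearMap (M := V) (resK K f) hf
  exact this

theorem tmap_right_injective (g : V →ₗ[C] V') (hg : Function.Injective g) :
    Function.Injective (tmap (K := K) (LinearMap.id : U →ₗ[A] U) g) := by
  have := Module.Flat.lTensor_preserves_injective_linearMap (M := U) (resK K g) hg
  exact this

theorem tmap_left_surjective (f : U →ₗ[A] U') (hf : Function.Surjective f) :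
    Function.Surjective (tmap (K := K) f (LinearMap.id : V →ₗ[C] V)) := by
  have := LinearMap.rTensor_surjective V (g := resK K f) hf
  exact this

theorem tmap_right_surjective (g : V →ₗ[C] V') (hg : Function.Surjective g) :
    Function.Surjective (tmap (K := K) (LinearMap.id : U →ₗ[A] U) g) := by
  have := LinearMap.lTensor_surjective U (g := resK K g) hg
  exact this

theorem tmap_left_exact (i : U →ₗ[A] U') (p : U' →ₗ[A] U'') (h : ∀ y, p y = 0 ↔ ∃ x, i x = y)
    (hp : Function.Surjective p) (y : U' ⊗[K] V) :
    tmap (K := K) p (LinearMap.id : V →ₗ[C] V) y = 0 ↔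
      ∃ x, tmap (K := K) i (LinearMap.id : V →ₗ[C] V) x = y := by
  have h' : Function.Exact (resK K i) (resK K p) := fun y => h y
  exact rTensor_exact V h' hp y

theorem tmap_right_exact (i : V →ₗ[C] V') (p : V' →ₗ[C] V'') (h : ∀ y, p y = 0 ↔ ∃ x, i x = y)
    (hp : Function.Surjective p) (y : U ⊗[K] V') :
    tmap (K := K) (LinearMap.id : U →ₗ[A] U) p y = 0 ↔
      ∃ x, tmap (K := K) (LinearMap.id : U →ₗ[A] U) i x = y := by
  have h' : Function.Exact (resK K i) (resK K p) := fun y => h y
  exact lTensor_exact U h' hp y

theorem tmap_comp (f : U →ₗ[A] U') (f' : U' →ₗ[A] U'') (g : V →ₗ[C] V') (g' : V' →ₗ[C] V'')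
    (w : U ⊗[K] V) : tmap (K := K) f' g' (tmap f g w) = tmap (f'.comp f) (g'.comp g) w := by
  induction w using TensorProduct.induction_on with
  | zero => simp only [map_zero]
  | tmul u v => rfl
  | add m n hm hn => simp only [map_add, hm, hn]

theorem tmap_id (w : U ⊗[K] V) :
    tmap (K := K) (LinearMap.id : U →ₗ[A] U) (LinearMap.id : V →ₗ[C] V) w = w := by
  induction w using TensorProduct.induction_on with
  | zero => simp only [map_zero]
  | tmul u v => rfl
  | add m n hm hn => simp only [map_add, hm, hn]

variable (K A C) in
/-- the comparison `Hom(A, U) ⊗ Hom(C, V) → Hom(A ⊗ C, U ⊗ V)`, as an additive map -/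
noncomputable def cmpAdd (W W' : Type u) [AddCommGroup W] [Module K W] [AddCommGroup W']
    [Module K W'] :
    (Coind K A W ⊗[K] Coind K C W') →+ Coind K (A ⊗[K] C) (W ⊗[K] W') :=
  (TensorProduct.homTensorHomMap (RingHom.id K) A C W W').toAddMonoidHom

theorem cmpAdd_tmul {W W' : Type u} [AddCommGroup W] [Module K W] [AddCommGroup W']
    [Module K W'] (f : Coind K A W) (g : Coind K C W') (x : A) (y : C) :
    cmpAdd K A C W W' (f ⊗ₜ g) (x ⊗ₜ y) = f x ⊗ₜ g y := rfl

variable (K A C) in
/-- the comparison `Hom(A, U) ⊗ Hom(C, V) → Hom(A ⊗ C, U ⊗ V)` -/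
noncomputable def cmp (W W' : Type u) [AddCommGroup W] [Module K W] [AddCommGroup W']
    [Module K W'] :
    (Coind K A W ⊗[K] Coind K C W') →ₗ[A ⊗[K] C] Coind K (A ⊗[K] C) (W ⊗[K] W') where
  toFun := cmpAdd K A C W W'
  map_add' w w' := map_add _ w w'
  map_smul' r w := by
    rw [RingHom.id_apply]
    refine tlin_aux (cmpAdd K A C W W') ?_ r w
    intro a c m
    induction m using TensorProduct.induction_on with
    | zero => rw [smul_zero, map_zero, smul_zero]
    | tmul f g =>
      ext x
      rw [tmod_smul, Coind.smul_apply]
      induction x using TensorProduct.induction_on with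
      | zero => rw [zero_mul, Coind.map_zero, Coind.map_zero]
      | tmul x y =>
        rw [cmpAdd_tmul, Algebra.TensorProduct.tmul_mul_tmul, cmpAdd_tmul, Coind.smul_apply,
          Coind.smul_apply]
      | add x y hx hy => rw [Coind.map_add, hx, hy, add_mul, Coind.map_add]
    | add m n hm hn => rw [smul_add, map_add, hm, hn, map_add, smul_add]

theorem cmp_bijective (W W' : Type u) [AddCommGroup W] [Module K W] [AddCommGroup W']
    [Module K W'] [Module.Finite K A] [Module.Finite K C] :
    Function.Bijective (cmp K A C W W') := by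
  have h := (homTensorHomEquiv K A C W W').bijective
  have e : (⇑(homTensorHomEquiv K A C W W') : _ → _) =
      TensorProduct.homTensorHomMap (RingHom.id K) A C W W' := by
    funext x
    exact homTensorHomEquiv_apply x
  rw [e] at h
  exact h

/-- tensor products of finite-dimensional injective modules are injective -/
theorem inj_tensor [Module.Finite K A] [Module.Finite K C] (hU : Module.Injective A U)
    (hV : Module.Injective C V) : Module.Injective (A ⊗[K] C) (U ⊗[K] V) := by
  obtain ⟨p, hp⟩ := inj_split hU (toCoind K A U) (toCoind_injective U)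
  obtain ⟨q, hq⟩ := inj_split hV (toCoind K C V) (toCoind_injective V)
  have h1 : Module.Injective (A ⊗[K] C) (Coind K A U ⊗[K] Coind K C V) :=
    let e := LinearEquiv.ofBijective _ (cmp_bijective (A := A) (C := C) (K := K) U V)
    inj_retract coind_injective e.toLinearMap e.symm.toLinearMap (fun x => e.symm_apply_apply x)
  refine inj_retract h1 (tmap (toCoind K A U) (toCoind K C V)) (tmap p q) (fun x => ?_)
  rw [tmap_comp]
  have e1 : p.comp (toCoind K A U) = LinearMap.id := LinearMap.ext hp
  have e2 : q.comp (toCoind K C V) = LinearMap.id := LinearMap.ext hq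
  rw [e1, e2, tmap_id]

/-- every finite-dimensional module embeds in a finite-dimensional injective module, and the
cokernel has smaller injective dimension -/
theorem id_step (R : Type u) [Ring R] [Algebra K R] [Module.Finite K R] (X : Type u)
    [AddCommGroup X] [Module K X] [Module R X] [IsScalarTower K R X] [Module.Finite K X] (n : ℕ)
    (h : ID R X (n + 2)) :
    ID R (Coind K R X ⧸ LinearMap.range (toCoind K R X)) (n + 1) :=
  id_right (toCoind K R X) (LinearMap.range (toCoind K R X)).mkQ (toCoind_injective X)
    (Submodule.mkQ_surjective _) (fun y => by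
      rw [Submodule.mkQ_apply, Submodule.Quotient.mk_eq_zero]; exact LinearMap.mem_range) h
    (id_mono (Nat.le_add_left 1 n) (id_inj coind_injective))

end TMap

section Main

attribute [local instance] tmod

variable {K A C : Type u} [Field K] [Ring A] [Algebra K A] [Ring C] [Algebra K C]
  [Module.Finite K A] [Module.Finite K C]

theorem id_tensor_zero (U : Type u) [AddCommGroup U] [Module K U] [Module A U]
    [IsScalarTower K A U] [Module.Finite K U] (hU : Module.Injective A U) (m : ℕ) :
    ∀ (V : Type u) [AddCommGroup V] [Module K V] [Module C V]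
    [IsScalarTower K C V] [Module.Finite K V], ID C V (m + 1) →
    ID (A ⊗[K] C) (U ⊗[K] V) (m + 1) := by
  induction m with
  | zero =>
    intro V _ _ _ _ _ hV
    exact id_inj (inj_tensor hU (inj_of_id hV))
  | succ m ih =>
    intro V _ _ _ _ _ hV
    have h1 := id_step (K := K) C V m hV
    have h2 := ih (Coind K C V ⧸ LinearMap.range (toCoind K C V)) h1
    have h3 : ID (A ⊗[K] C) (U ⊗[K] Coind K C V) (m + 1 + 1) :=
      id_mono (Nat.le_add_left 1 _) (id_inj (inj_tensor hU coind_injective))
    have hp := Submodule.mkQ_surjective (LinearMap.range (toCoind K C V))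
    exact id_left (tmap LinearMap.id (toCoind K C V))
      (tmap LinearMap.id (LinearMap.range (toCoind K C V)).mkQ)
      (tmap_right_injective _ (toCoind_injective V)) (tmap_right_surjective _ hp)
      (tmap_right_exact _ _ (fun y => by
        rw [Submodule.mkQ_apply, Submodule.Quotient.mk_eq_zero]; exact LinearMap.mem_range) hp)
      h3 h2

/-- `idim (U ⊗ V) ≤ idim U + idim V` -/
theorem id_tensor (n : ℕ) : ∀ (m : ℕ) (U : Type u) [AddCommGroup U] [Module K U] [Module A U]
    [IsScalarTower K A U] [Module.Finite K U] (V : Type u) [AddCommGroup V] [Module K V]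
    [Module C V] [IsScalarTower K C V] [Module.Finite K V], ID A U (n + 1) → ID C V (m + 1) →
    ID (A ⊗[K] C) (U ⊗[K] V) (n + m + 1) := by
  induction n with
  | zero =>
    intro m U _ _ _ _ _ V _ _ _ _ _ hU hV
    rw [Nat.zero_add]
    exact id_tensor_zero U (inj_of_id hU) m V hV
  | succ n ih =>
    intro m U _ _ _ _ _ V _ _ _ _ _ hU hV
    have h1 := id_step (K := K) A U n hU
    have h2 := ih m (Coind K A U ⧸ LinearMap.range (toCoind K A U)) V h1 hV
    have h3 : ID (A ⊗[K] C) (Coind K A U ⊗[K] V) (m + 1) :=
      id_tensor_zero (Coind K A U) coind_injective m V hV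
    have hp := Submodule.mkQ_surjective (LinearMap.range (toCoind K A U))
    have h4 : n + 1 + m + 1 = (n + m + 1) + 1 := by omega
    rw [h4]
    exact id_left (tmap (toCoind K A U) LinearMap.id)
      (tmap (LinearMap.range (toCoind K A U)).mkQ LinearMap.id)
      (tmap_left_injective _ (toCoind_injective U)) (tmap_left_surjective _ hp)
      (tmap_left_exact _ _ (fun y => by
        rw [Submodule.mkQ_apply, Submodule.Quotient.mk_eq_zero]; exact LinearMap.mem_range) hp)
      (id_mono (by omega) h3) h2

end Main

end Pool.Agent.N9.GS
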